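import Pool.Agent.Lib.MP_49b2f4_co.Up

/-! One positive semidefinite block, with wider fields. -/

namespace Pool.Agent.Lib.MP_49b2f4_co.N7

open Finset

noncomputable def row (B : Blk) (k : ℕ) : ℕ :=
  look B.rows k (fun _ a _ _ => a) (cst 56 1099511627776 7)

noncomputable def qe (t : Tr) (i j : ℕ) : ℕ :=
  cond (Nat.ble i j) (fl 112 (gq t j) i) (fl 112 (gq t i) j)

noncomputable def Qt (t : Tr) (i j : ℕ) : ℤ := (qe t i j : ℤ) - 1099511627776

theorem Qt_symm (t : Tr) (i j : ℕ) : Qt t i j = Qt t j i := by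
  unfold Qt qe
  rw [cond_ble, cond_ble]
  rcases lt_trichotomy i j with h | h | h
  · rw [if_pos h.le, if_neg (by omega)]
  · subst h; rfl
  · rw [if_neg (by omega), if_pos h.le]

noncomputable def Qb (B : Blk) (k1 k2 : ℕ) : ℤ :=
  ((col B.rows k2).map fun e' =>
    ((col B.rows k1).map fun e => sg e * sg e' * Qt B.qt (e / 2) (e' / 2)).sum).sum

noncomputable def aq (t : Tr) (e e' : ℕ) : ℕ :=
  cond (Nat.beq (Nat.land (Nat.xor e e') 1) 0) (qe t (Nat.shiftRight e 1) (Nat.shiftRight e' 1))
    (Nat.sub 2199023255552 (qe t (Nat.shiftRight e 1) (Nat.shiftRight e' 1)))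

theorem aq_eq (t : Tr) (e e' : ℕ) (h : qe t (e / 2) (e' / 2) ≤ 2199023255552) :
    (aq t e e' : ℤ) = 1099511627776 + sg e * sg e' * Qt t (e / 2) (e' / 2) := by
  have e1 : ∀ x : ℕ, Nat.shiftRight x 1 = x / 2 := fun x => Nat.shiftRight_one x
  have e2 : Nat.land (Nat.xor e e') 1 = (e ^^^ e') % 2 := Nat.and_one_is_mod _
  have e3 := @Nat.xor_mod_two_eq_one e e'
  unfold aq Qt sg
  rw [cond_beq, e1, e1, e2]
  have e4 : Nat.sub 2199023255552 (qe t (e / 2) (e' / 2)) = 2199023255552 - qe t (e / 2) (e' / 2) := rfl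
  rw [e4]
  by_cases h1 : e % 2 = 0 <;> by_cases h2 : e' % 2 = 0
  · rw [if_pos (by omega), if_pos h1, if_pos h2]; ring
  · rw [if_neg (by omega), if_pos h1, if_neg h2, Nat.cast_sub h]; push_cast; ring
  · rw [if_neg (by omega), if_neg h1, if_pos h2, Nat.cast_sub h]; push_cast; ring
  · rw [if_pos (by omega), if_neg h1, if_neg h2]; ring

noncomputable def entchk (B : Blk) (a : ℕ) (s : List ℕ) (k : ℕ) : Bool :=
  Nat.beq (Nat.add (fl 56 a k) (sumL (col B.rows k) (fun e' => sumL s (fun e => aq B.qt e e'))))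
    (Nat.add 1099511627776 (Nat.mul (Nat.mul 1099511627776 (sumL s (fun _ => 1)))
      (sumL (col B.rows k) (fun _ => 1))))

noncomputable def rowchk (B : Blk) (lo m a : ℕ) (s : List ℕ) : Bool :=
  cond (Nat.beq (Nat.land a (cst 56 2199023255551 7)) a)
    (cond (allL s (fun e => Nat.ble (Nat.succ (Nat.shiftRight e 1)) B.r))
      (allN m (fun k => entchk B a s (Nat.add lo k))) false) false

noncomputable def rowsF (B : Blk) (lo m : ℕ) : ℕ → ℕ → ℕ → List ℕ → Bool :=
  fun _ a _ s => cond (rowchk B lo m a s) true false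

def Cover (B : Blk) : Prop :=
  0 < B.n ∧ ∀ k < B.n, ∃ lo m, lo ≤ k ∧ k < lo + m ∧ allT B.rows (rowsF B lo m) = true

noncomputable def pe (x y : ℕ) (d : Bool) : Bool :=
  cond d (Nat.ble (Nat.add y 4611686018427387904) x)
    (cond (Nat.ble y (Nat.add x 18014398509481984)) (Nat.ble x (Nat.add y 18014398509481984)) false)

noncomputable def psdrow (q S A i c : ℕ) : Bool :=
  allN (Nat.succ i) (fun j => pe
    (Nat.add (Nat.mul 1152921504606846976 (fl 112 q j)) (Nat.mul 1125899906842624 (Nat.add (fl 112 S j) (fl 112 S i))))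
    (Nat.add (fl 112 A j) (Nat.add 1267650600228229401496703205376 (Nat.mul c 1267650600228229401496703205376))) (Nat.beq j i))

noncomputable def psdchk (B : Blk) : Bool :=
  cond (Nat.ble B.r 127) (cond (Nat.ble B.n 128) (allN B.r (fun i =>
    cond (Nat.beq (Nat.land (gq B.qt i) (cst 112 2199023255551 7)) (gq B.qt i))
      (cond (Nat.beq (Nat.land (gl B.qt i) (cst 112 2251799813685247 7)) (gl B.qt i))
        (psdrow (gq B.qt i) (sumF i B.r (gl B.qt))
          (sumF i B.r (fun k => Nat.mul (fl 112 (gl B.qt k) i) (gl B.qt k))) i (Nat.sub B.r i))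
        false) false)) false) false

theorem psd_of_chk {B : Blk} (h : psdchk B = true) :
    B.n ≤ 128 ∧ (∀ i < B.r, ∀ j < B.r, qe B.qt i j ≤ 2199023255552) ∧
      ∀ w : ℕ → ℝ, 0 ≤ ∑ i ∈ range B.r, ∑ j ∈ range B.r, w i * w j * (Qt B.qt i j : ℝ) := by
  unfold psdchk at h
  obtain ⟨hr, h⟩ := band h
  obtain ⟨hn, h⟩ := band h
  have hr := ble_sp hr
  have h := allN_spec h
  have hq : ∀ i < B.r, Bnd 112 (gq B.qt i) 2199023255551 := fun i hi =>
    bnd_of_land (bnd_cst (by norm_num) _) (band (h i hi)).1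
  have hl : ∀ i < B.r, Bnd 112 (gl B.qt i) 2251799813685247 := fun i hi =>
    bnd_of_land (bnd_cst (by norm_num) _) (band (band (h i hi)).2).1
  refine ⟨ble_sp hn, fun i hi j hj => ?_, fun w => ?_⟩
  · unfold qe; rw [cond_ble, fl_eq, fl_eq]
    split_ifs
    · exact (hq j hj i).trans (by norm_num)
    · exact (hq i hi j).trans (by norm_num)
  set L : ℕ → ℕ → ℤ := fun k j => if j ≤ k then (fld 112 (gl B.qt k) j : ℤ) - 1125899906842624 else 0
    with hL
  set E : ℕ → ℕ → ℤ := fun i j => 1152921504606846976 * Qt B.qt i j - ∑ k ∈ range B.r, L k i * L k j with hE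
  have hE1 : ∀ i < B.r, ∀ j ≤ i,
      if j = i then 4611686018427387904 ≤ E i j else |E i j| ≤ 18014398509481984 := by
    intro i hi j hj
    have h3 := allN_spec (band (band (h i hi)).2).2 j (Nat.lt_succ_of_le hj)
    have hS := (fld_sumF (i := i) B.r hl (by omega)).2
    have hA := (fld_sumF (W := 112) (B := 2251799813685247 * 2251799813685247) (i := i)
      (f := fun k => Nat.mul (fl 112 (gl B.qt k) i) (gl B.qt k)) B.r (fun k hk => by
        have h4 := hl k hk i
        rw [← fl_eq] at h4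
        have h5 : fl 112 (gl B.qt k) i * 2251799813685247 ≤ 2251799813685247 * 2251799813685247 :=
          Nat.mul_le_mul_right _ h4
        exact ((hl k hk).mul _ (by omega)).mono h5) (by omega)).2
    have hA' : ∀ k ∈ range B.r, (if i ≤ k then fld 112 (Nat.mul (fl 112 (gl B.qt k) i) (gl B.qt k)) j
        else 0) = if i ≤ k then fld 112 (gl B.qt k) i * fld 112 (gl B.qt k) j else 0 := by
      intro k hk
      rw [mem_range] at hk
      have h4 := hl k hk i
      have h5 : fld 112 (gl B.qt k) i * 2251799813685247 ≤ 2251799813685247 * 2251799813685247 :=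
          Nat.mul_le_mul_right _ h4
      rw [fl_eq, Nat.mul_eq, (hl k hk).mul_aux _ (by omega)]
    have hc : ((B.r - i : ℕ) : ℤ) = ∑ k ∈ range B.r, if i ≤ k then (1 : ℤ) else 0 := by
      rw [← sum_filter, sum_const, nsmul_one]
      congr 1
      have : (range B.r).filter (fun k => i ≤ k) = Ico i B.r := by
        ext k; simp [and_comm]
      rw [this, Nat.card_Ico]
    have hq' : Qt B.qt i j = (fld 112 (gq B.qt i) j : ℤ) - 1099511627776 := by
      rw [Qt_symm]; unfold Qt qe; rw [cond_ble, if_pos hj, fl_eq]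
    have hsum : ∑ k ∈ range B.r, L k i * L k j =
        (fld 112 (sumF i B.r fun k => Nat.mul (fl 112 (gl B.qt k) i) (gl B.qt k)) j : ℤ)
        - 1125899906842624 * ((fld 112 (sumF i B.r (gl B.qt)) j : ℤ) + (fld 112 (sumF i B.r (gl B.qt)) i : ℤ))
        + ((B.r - i : ℕ) : ℤ) * 1267650600228229401496703205376 := by
      rw [hA, sum_congr rfl hA', hS, hS, hc]
      push_cast
      rw [← sum_add_distrib, mul_sum, sum_mul, ← sum_sub_distrib, ← sum_add_distrib]
      refine sum_congr rfl fun k _ => ?_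
      simp only [hL]
      by_cases c : i ≤ k
      · simp only [if_pos c, if_pos (hj.trans c)]; ring
      · simp only [if_neg c]; ring
    simp only [hE]
    rw [hsum, hq']
    unfold pe at h3
    simp only [fl_eq, Nat.add_eq, Nat.mul_eq, Nat.sub_eq, cond_beq] at h3 ⊢
    generalize fld 112 (sumF i B.r fun k => fld 112 (gl B.qt k) i * gl B.qt k) j = a at *
    generalize fld 112 (sumF i B.r (gl B.qt)) j = b at *
    generalize fld 112 (sumF i B.r (gl B.qt)) i = c at *
    generalize fld 112 (gq B.qt i) j = d at *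
    generalize B.r - i = m at *
    split_ifs at h3 ⊢
    · have := ble_sp h3; omega
    · have h4 := ble_sp (band h3).1
      have h5 := ble_sp (band h3).2
      rw [abs_le]; constructor <;> omega
  have hEs : ∀ i j, E i j = E j i := fun i j => by
    simp only [hE]; rw [Qt_symm]; congr 1; exact sum_congr rfl fun k _ => mul_comm _ _
  have hd := diag_dom B.r (fun i j => (E i j : ℝ)) 18014398509481984 (by norm_num)
    (fun i hi => by
      have := hE1 i hi i le_rfl
      rw [if_pos rfl] at this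
      have h6 : (4611686018427387904 : ℝ) ≤ (E i i : ℝ) := by exact_mod_cast this
      have h7 : (B.r : ℝ) ≤ 127 := by exact_mod_cast hr
      linarith)
    (fun i hi j hj hij => by
      have : |E i j| ≤ 18014398509481984 := by
        rcases lt_or_gt_of_ne hij with c | c
        · have := hE1 j hj i c.le
          rw [if_neg hij] at this; rwa [hEs]
        · have := hE1 i hi j c.le
          rwa [if_neg (Ne.symm hij)] at this
      exact_mod_cast this) w
  have hsq := sum_sq_form B.r (fun k i => (L k i : ℝ)) w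
  have hpos : 0 ≤ ∑ k ∈ range B.r, (∑ i ∈ range B.r, w i * (L k i : ℝ)) ^ 2 :=
    sum_nonneg fun k _ => sq_nonneg _
  have hid : 1152921504606846976 * ∑ i ∈ range B.r, ∑ j ∈ range B.r, w i * w j * (Qt B.qt i j : ℝ) =
      ∑ i ∈ range B.r, ∑ j ∈ range B.r, w i * w j * (E i j : ℝ) +
      ∑ i ∈ range B.r, ∑ j ∈ range B.r, w i * w j * ∑ k ∈ range B.r, ((L k i : ℝ) * L k j) := by
    rw [mul_sum, ← sum_add_distrib]
    refine sum_congr rfl fun i _ => ?_
    rw [mul_sum, ← sum_add_distrib]
    refine sum_congr rfl fun j _ => ?_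
    simp only [hE]; push_cast; ring
  rw [hsq] at hid
  linarith

structure OK (B : Blk) : Prop where
  bnd : ∀ k, Bnd 56 (row B k) 2199023255551
  val : ∀ k1 k2, k2 < B.n → (fld 56 (row B k1) k2 : ℤ) = 1099511627776 - Qb B k1 k2
  symm : ∀ k1 k2, Qb B k1 k2 = Qb B k2 k1
  psd : Psd (Qb B)

theorem blk_ok {B : Blk} (h1 : psdchk B = true) (h2 : Cover B) : OK B := by
  obtain ⟨hn, hq, hp⟩ := psd_of_chk h1
  obtain ⟨lo0, m0, _, _, h0⟩ := h2.2 0 h2.1
  have hm : ∀ {k a b s}, Mem B.rows k a b s → rowchk B lo0 m0 a s = true := fun hm =>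
    (band (allT_mem h0 hm)).1
  have hc : ∀ k, ∀ e ∈ col B.rows k, e / 2 < B.r := by
    intro k e he
    unfold col at he
    rcases look_cases B.rows k with h | ⟨a, b, s, hmem, h⟩
    · rw [h] at he; simp at he
    · rw [h] at he
      have := ble_sp (allL_spec (band (band (hm hmem)).2).1 e he)
      have e1 : Nat.shiftRight e 1 = e / 2 := Nat.shiftRight_one e
      rw [e1] at this; exact this
  set β : ℕ → ℕ → ℤ := fun k i => ((col B.rows k).map fun e => if e / 2 = i then sg e else 0).sum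
    with hβ
  have hQ : ∀ k1 k2, Qb B k1 k2 =
      ∑ i ∈ range B.r, ∑ j ∈ range B.r, β k1 i * β k2 j * Qt B.qt i j := by
    intro k1 k2
    unfold Qb
    have e1 : ∀ e', ((col B.rows k1).map fun e => sg e * sg e' * Qt B.qt (e / 2) (e' / 2)).sum
        = sg e' * ∑ i ∈ range B.r, β k1 i * Qt B.qt i (e' / 2) := by
      intro e'
      rw [← list_sum_range B.r (fun i => Qt B.qt i (e' / 2)) _ (hc k1), ← List.sum_map_mul_left]
      congr 2; funext e; ring
    simp only [e1]
    rw [list_sum_range B.r (fun j => ∑ i ∈ range B.r, β k1 i * Qt B.qt i j) _ (hc k2), sum_comm]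
    refine sum_congr rfl fun j _ => ?_
    rw [mul_sum]
    refine sum_congr rfl fun i _ => by simp only [hβ]; ring
  refine ⟨fun k => ?_, fun k1 k2 hk => ?_, fun k1 k2 => ?_, fun ι _ a κ => ?_⟩
  · unfold row
    rcases look_cases B.rows k with h | ⟨a, b, s, hmem, h⟩
    · rw [h]; exact (bnd_cst (by norm_num) _).mono (by norm_num)
    · rw [h]; exact bnd_of_land (bnd_cst (by norm_num) _) (band (hm hmem)).1
  · have hc1 := hc k1
    unfold row Qb
    unfold col at hc1
    have e0 : col B.rows k1 = look B.rows k1 (fun _ _ _ s => s) [] := rfl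
    rw [e0]
    rcases look_cases B.rows k1 with h | ⟨a, b, s, hmem, h⟩
    · rw [h, h, fld_cst (by norm_num), if_pos (by omega)]; simp
    · rw [h] at hc1
      rw [h, h]
      obtain ⟨lo, m, c1, c2, h6⟩ := h2.2 k2 hk
      have h7 := allN_spec (band (band (band (allT_mem h6 hmem)).1).2).2 (k2 - lo) (by omega)
      rw [Nat.add_eq, Nat.add_sub_cancel' c1] at h7
      have h3 := beq_sp h7
      have h4 := congrArg (fun z : ℕ => (z : ℤ)) h3
      simp only [Nat.add_eq, Nat.mul_eq, fl_eq, Nat.cast_add, Nat.cast_mul, sumL_eq] at h4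
      have h5 : ((col B.rows k2).map fun e' => (s.map fun e => (aq B.qt e e' : ℤ)).sum) =
          (col B.rows k2).map fun e' => 1099511627776 * (s.map fun _ => ((1 : ℕ) : ℤ)).sum +
            (s.map fun e => sg e * sg e' * Qt B.qt (e / 2) (e' / 2)).sum := by
        refine List.map_congr_left fun e' he' => ?_
        rw [← List.sum_map_mul_left, ← List.sum_map_add]
        congr 1
        refine List.map_congr_left fun e he => ?_
        rw [aq_eq _ _ _ (hq _ (hc1 e he) _ (hc k2 e' he'))]; simp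
      rw [h5, List.sum_map_add] at h4
      simp only [List.map_const', List.sum_replicate, nsmul_eq_mul, Nat.cast_one, mul_one,
        Nat.cast_ofNat] at h4
      linarith
  · rw [hQ, hQ, sum_comm]
    refine sum_congr rfl fun i _ => sum_congr rfl fun j _ => by rw [Qt_symm]; ring
  · have := hp fun i => ∑ s, a s * β (κ s) i
    refine le_trans this (le_of_eq ?_)
    simp only [hQ]
    push_cast
    simp only [sum_mul, mul_sum]
    have e1 : ∀ (F : ℕ → ℕ → ι → ι → ℝ), ∑ i ∈ range B.r, ∑ j ∈ range B.r, ∑ t, ∑ s, F i j s t =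
        ∑ s, ∑ t, ∑ i ∈ range B.r, ∑ j ∈ range B.r, F i j s t := by
      intro F
      calc _ = ∑ i ∈ range B.r, ∑ t, ∑ s, ∑ j ∈ range B.r, F i j s t := by
            refine sum_congr rfl fun i _ => ?_
            rw [sum_comm]
            exact sum_congr rfl fun t _ => sum_comm
        _ = ∑ t, ∑ s, ∑ i ∈ range B.r, ∑ j ∈ range B.r, F i j s t := by
            rw [sum_comm]
            exact sum_congr rfl fun t _ => sum_comm
        _ = _ := sum_comm
    rw [e1]
    refine sum_congr rfl fun s _ => sum_congr rfl fun t _ => sum_congr rfl fun i _ =>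
      sum_congr rfl fun j _ => by ring

theorem cover1 {B : Blk} (hn : 0 < B.n) (h : allT B.rows (rowsF B 0 B.n) = true) : Cover B :=
  ⟨hn, fun k hk => ⟨0, B.n, by omega, by omega, h⟩⟩

noncomputable def QL (l : List Blk) (τ k1 k2 : ℕ) : ℤ := fnd l τ (fun B => Qb B k1 k2) 0

noncomputable def rowL (l : List Blk) (τ k : ℕ) : ℕ :=
  fnd l τ (fun B => row B k) (cst 56 1099511627776 7)

def LOK (l : List Blk) (n : ℕ) : Prop := ∀ B ∈ l, OK B ∧ B.n = n

noncomputable def okB (n : ℕ) (B : Blk) : Bool :=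
  cond (Nat.beq B.n n) (cond (psdchk B) (allT B.rows (rowsF B 0 B.n)) false) false

theorem okB_spec {n : ℕ} (hn : 0 < n) {B : Blk} (h : okB n B = true) : OK B ∧ B.n = n := by
  obtain ⟨h1, h⟩ := band h
  obtain ⟨h2, h3⟩ := band h
  have e := beq_sp h1
  exact ⟨blk_ok h2 (cover1 (by omega) h3), e⟩

theorem LOK.nil (n : ℕ) : LOK [] n := fun _ h => by simp at h

theorem LOK.cons {n : ℕ} (hn : 0 < n) {B : Blk} {l : List Blk} (h : okB n B = true) (hl : LOK l n) :
    LOK (B :: l) n := fun B' hB => by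
  rcases List.mem_cons.1 hB with rfl | hB
  · exact okB_spec hn h
  · exact hl _ hB

theorem QL_psd {l : List Blk} {n : ℕ} (h : LOK l n) (τ : ℕ) : Psd (QL l τ) := by
  unfold QL
  rcases fnd_cases l τ with e | ⟨B, hB, e⟩
  · intro ι _ a κ; simp [e]
  · simp only [e]; exact (h B hB).1.psd

theorem rowL_spec {l : List Blk} {n : ℕ} (h : LOK l n) (hn : n ≤ 128) (τ k : ℕ) :
    Bnd 56 (rowL l τ k) 2199023255551 ∧
      ∀ k2 < n, (fld 56 (rowL l τ k) k2 : ℤ) = 1099511627776 - QL l τ k k2 := by
  unfold rowL QL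
  rcases fnd_cases l τ with e | ⟨B, hB, e⟩
  · simp only [e]
    refine ⟨(bnd_cst (by norm_num) _).mono (by norm_num), fun k2 hk => ?_⟩
    rw [fld_cst (by norm_num), if_pos (by omega)]; simp
  · simp only [e]
    obtain ⟨ok, h2⟩ := h B hB
    exact ⟨ok.bnd _, fun k2 hk => ok.val _ _ (by omega)⟩

end Pool.Agent.Lib.MP_49b2f4_co.N7
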