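import Pool.Agent.Lib.MP_49b2f4_co.N7.Blk

/-! A checker for certificates on seven vertices. -/

namespace Pool.Agent.Lib.MP_49b2f4_co.N7

open Finset

def l5 : List ℕ := [40, 41, 42, 43, 44]
def l6 : List ℕ := [48, 49, 50, 51, 52]
def lA : List ℕ := [32, 33, 34, 35, 24, 25, 26]
def lB : List ℕ := [48, 49, 50, 53, 40, 41, 42]

noncomputable def swW (j i v : ℕ) : ℕ := cond (Nat.ble j i) v (isw 56 6 i j v)

theorem swW_bnd : ∀ j < 6, ∀ i ≤ j, ∀ v B', Bnd 56 v B' → Bnd 56 (swW j i v) B' := by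
  intro j hj i hi v B h
  unfold swW
  rw [cond_ble]
  split_ifs with c
  · exact h
  · exact h.isw (by omega) (by omega)

theorem swW_fld : ∀ j < 6, ∀ i ≤ j, ∀ v g, fld 56 (swW j i v) (gat lP6 g) =
    fld 56 v (gat lP6 (act (Equiv.swap i j) g)) := by
  intro j hj i hi v g
  have hl : lP6.length = 6 := rfl
  unfold swW
  rw [cond_ble, gat_act _ (by decide)]
  split_ifs with c
  · have : i = j := by omega
    subst this
    rw [mpL_self]
  · rw [fld_isw_gat (by omega) (by omega) (by omega), (F_facts j hj i (by omega)).2]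

section
variable (L3 L5 : List Blk) (ob : ℕ → ℕ)

noncomputable def v5 (h : ℕ) : ℕ :=
  dup 56 5 (rowL L5 (Nat.land h 133666119455) (bits h 40 31))

noncomputable def v3 (h : ℕ) : ℕ :=
  isw 56 6 3 5 (dup 56 5 (dup 56 4 (Nat.shiftRight
    (rowL L3 (Nat.land h 460551) (Nat.add (Nat.mul 16 (bits h 24 7)) (bits h 32 15)))
    (Nat.mul 56 (Nat.mul 16 (bits h 40 7))))))

noncomputable def leaf (h : ℕ) : ℕ := Nat.add (Nat.add (v5 L5 h) (v3 L3 h)) (ob h)

noncomputable def chkA : ℕ → ℕ → ℕ → List ℕ → Bool := fun k a _ _ =>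
  Nat.beq a (symV (leaf L3 L5 ob) swW 6 k)

noncomputable def cc (oc : ℕ → ℤ) (g : ℕ) : ℤ :=
  oc g - QL L5 (blk 5 g) (gat l5 g) (gat l6 g) - QL L3 (blk 3 g) (gat lA g) (gat lB g)

end

noncomputable def val7 (t : Tr) (h : ℕ) : ℕ :=
  look t (Nat.land h 69540876599103) (fun _ a _ _ => fl 56 a (bits h 48 63)) 0

noncomputable def sumN (n : ℕ) (f : ℕ → ℕ) : ℕ :=
  Nat.rec (motive := fun _ => ℕ) 0 (fun k acc => Nat.add acc (f k)) n

theorem sumN_eq (f : ℕ → ℕ) : ∀ n, sumN n f = ∑ k ∈ range n, f k := by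
  intro n
  induction n with
  | zero => rfl
  | succ n ih => rw [sum_range_succ, ← ih]; rfl

noncomputable def chkB (t : Tr) (K : ℕ) : ℕ → ℕ → ℕ → List ℕ → Bool := fun k a _ _ =>
  Nat.ble (Nat.mul 5040 (Nat.add K 2199023255552))
    (sumN 7 (fun u => val7 t (can (fl 24 a u) 5 (swp u 6 k))))

theorem blkM3 : blkM 3 = 460551 := by decide +kernel

theorem land3 (g : ℕ) : Nat.land (blk 6 g) 460551 = blk 3 g := by
  rw [← blk_blk (n := 3) (m := 6) (by norm_num) g, ← blkM3]; rfl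

theorem bits6 (g a n : ℕ) (h : ∀ p ∈ List.range' a n, p / 8 < 6 ∧ p % 8 < 6) :
    bits (blk 6 g) a (2 ^ n - 1) = gat (List.range' a n) g := by
  rw [bits_eq, gat_blk (by norm_num) h]

theorem bits_l5 (g : ℕ) : bits (blk 6 g) 40 31 = gat l5 g := bits6 g 40 5 (by decide)

theorem v5_spec {L5 : List Blk} (h5 : LOK L5 32) (g : ℕ) :
    Bnd 56 (v5 L5 (blk 6 g)) 2199023255551 ∧ (fld 56 (v5 L5 (blk 6 g)) (gat lP6 g) : ℤ) =
      1099511627776 - QL L5 (blk 5 g) (gat l5 g) (gat l6 g) := by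
  unfold v5
  rw [land5, bits_l5]
  obtain ⟨b, s⟩ := rowL_spec h5 (by norm_num) (blk 5 g) (gat l5 g)
  refine ⟨b.dup, ?_⟩
  rw [fld_dup_gat _ _ _ _ (by rfl)]
  exact s _ (gat_lt l6 g)

theorem v3_spec {L3 : List Blk} (h3 : LOK L3 128) (g : ℕ) :
    Bnd 56 (v3 L3 (blk 6 g)) 2199023255551 ∧ (fld 56 (v3 L3 (blk 6 g)) (gat lP6 g) : ℤ) =
      1099511627776 - QL L3 (blk 3 g) (gat lA g) (gat lB g) := by
  unfold v3
  have e1 : bits (blk 6 g) 24 7 = gat [24, 25, 26] g := bits6 g 24 3 (by decide)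
  have e2 : bits (blk 6 g) 32 15 = gat [32, 33, 34, 35] g := bits6 g 32 4 (by decide)
  have e3 : bits (blk 6 g) 40 7 = gat [40, 41, 42] g := bits6 g 40 3 (by decide)
  have eA : gat lA g = 16 * gat [24, 25, 26] g + gat [32, 33, 34, 35] g :=
    gat_append [32, 33, 34, 35] [24, 25, 26] g
  have eB : gat lB g = 16 * gat [40, 41, 42] g + gat [48, 49, 50, 53] g :=
    gat_append [48, 49, 50, 53] [40, 41, 42] g
  rw [land3, e1, e2, e3, Nat.add_eq, Nat.mul_eq, Nat.mul_eq, Nat.mul_eq, ← eA]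
  obtain ⟨b, s⟩ := rowL_spec h3 le_rfl (blk 3 g) (gat lA g)
  refine ⟨(b.shr _).dup.dup.isw (by norm_num) (by norm_num), ?_⟩
  rw [fld_isw_gat (by norm_num) (by decide) (by decide), fld_dup_gat _ _ _ _ (by rfl),
    fld_dup_gat _ _ _ _ (by rfl), ← s _ (gat_lt lB g), eB]
  exact congrArg _ (fld_shr _ _ _ _)

theorem main_chk {L3 L5 : List Blk} (h3 : LOK L3 128) (h5 : LOK L5 32) {ob : ℕ → ℕ} {oc : ℕ → ℤ}
    {K : ℕ} (hb : ∀ h, Bnd 56 (ob h) 35184372088832)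
    (hv : ∀ g, Good g → (fld 56 (ob (blk 6 g)) (gat lP6 g) : ℤ) = oc g + K) {t t7 : Tr}
    (hA : allT t (chkA L3 L5 ob) = true) (hB : allT t7 (chkB t K) = true) :
    Cov (fun g => 0 ≤ Sym (cc L3 L5 oc) 7 g) 7 t7 := by
  have lb : ∀ g, Bnd 56 (leaf L3 L5 ob (blk 6 g)) (2199023255551 + 2199023255551 + 35184372088832) :=
    fun g => ((v5_spec h5 g).1.add (v3_spec h3 g).1 (by norm_num)).add (hb _) (by norm_num)
  have lv : ∀ g, Good g → (fld 56 (leaf L3 L5 ob (blk 6 g)) (gat lP6 g) : ℤ) =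
      cc L3 L5 oc g + (K + 2199023255552) := by
    intro g hg
    unfold leaf cc
    rw [Nat.add_eq, Nat.add_eq, ((v5_spec h5 g).1.add (v3_spec h3 g).1 (by norm_num)).fld_add (hb _)
      (by norm_num), (v5_spec h5 g).1.fld_add (v3_spec h3 g).1 (by norm_num)]
    push_cast
    rw [(v5_spec h5 g).2, (v3_spec h3 g).2, hv g hg]; ring
  obtain ⟨_, s⟩ := symV_spec (W := 56) (m := 6) (leaf := leaf L3 L5 ob) (sw := swW)
    (by norm_num) (fun g _ => lb g) 6 le_rfl (by decide) swW_bnd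
  have sv : ∀ g, Good g → (fld 56 (symV (leaf L3 L5 ob) swW 6 (blk 6 g)) (gat lP6 g) : ℤ) =
      Sym (cc L3 L5 oc) 6 g + 720 * (K + 2199023255552) := by
    intro g hg
    rw [s (fun _ g => gat lP6 g) _ lv swW_fld g hg, Sym_add, Sym_const]; rfl
  have xv : ∀ g, Good g → (val7 t (blk 7 g) : ℤ) ≤
      Sym (cc L3 L5 oc) 6 g + 720 * (K + 2199023255552) := by
    intro g hg
    unfold val7
    rw [land6, bits_P6, ← sv g hg]
    rcases look_cases t (blk 6 g) with e | ⟨a, b, s, hm, e⟩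
    · rw [e]; exact Int.ofNat_le.2 (Nat.zero_le _)
    · rw [e, fl_eq, beq_sp (allT_mem hA hm)]
  intro g hg a b s hm
  have h1 := ble_sp (allT_mem hB hm)
  rw [sumN_eq] at h1
  have h2 : ∑ u ∈ range 7, (val7 t (can (fl 24 a u) 5 (swp u 6 (blk 7 g))) : ℤ) ≤
      ∑ u ∈ range 7, (Sym (cc L3 L5 oc) 6 (act (Equiv.swap u 6) g) + 720 * (K + 2199023255552)) := by
    refine sum_le_sum fun u hu => ?_
    rw [mem_range] at hu
    have g1 : Good (swp u 6 g) := swp_good (by norm_num) hg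
    rw [swp_blk' (by norm_num) (by norm_num) hg, can_blk _ (by norm_num) 5 (by norm_num) _ g1,
      ← swp_eq (by omega) (by norm_num) hg.lt,
      ← can_inv (fl 24 a u) 5 (by norm_num) (inv_Sym (cc L3 L5 oc) (by norm_num)) _ g1]
    exact xv _ (can_good _ _ (by norm_num) _ g1)
  rw [sum_add_distrib, sum_const, card_range] at h2
  have h3 : ((5040 * (K + 2199023255552) : ℕ) : ℤ) ≤
      ((∑ u ∈ range 7, val7 t (can (fl 24 a u) 5 (swp u 6 (blk 7 g))) : ℕ) : ℤ) :=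
    Int.ofNat_le.2 h1
  push_cast at h3
  have e : Sym (cc L3 L5 oc) 7 g = ∑ u ∈ range 7, Sym (cc L3 L5 oc) 6 (act (Equiv.swap u 6) g) := rfl
  show 0 ≤ Sym (cc L3 L5 oc) 7 g
  rw [e]
  simp only [nsmul_eq_mul] at h2
  push_cast at h2
  linarith

theorem inv7 (c : ℕ → ℤ) : Inv (fun g => 0 ≤ Sym c 7 g) 6 := by
  intro i j h1 h2 g hg
  show (0 ≤ Sym _ 7 (act _ g)) = _
  rw [Sym_act _ 7 (by norm_num) _ (fix_swap (by omega) (by omega)) _ hg.lt]

end Pool.Agent.Lib.MP_49b2f4_co.N7
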