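import Pool.Agent.Lib.MP_49b2f4_co.N7.Chk

/-! The objective rows of the two certificates. -/

namespace Pool.Agent.Lib.MP_49b2f4_co.N7

noncomputable def cls (k : ℕ) : ℕ := fl 3 56552821244769920193563777901 k

noncomputable def bit5 (q : ℕ) : ℕ := Nat.land (Nat.shiftRight q 5) 1

/-- adjacency of the classes `a` and `b` -/
noncomputable def cyc (a b : ℕ) : ℕ := fl 1 10102962 (Nat.add (Nat.mul 5 a) b)

noncomputable def obj (k q : ℕ) : ℕ :=
  cond (Nat.beq (cls k) 5) 6 (cond (Nat.beq (cls (Nat.land q 31)) 5) 5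
    (cond (Nat.beq (cls k) (cls (Nat.land q 31))) 25
      (cond (Nat.beq (cyc (cls k) (cls (Nat.land q 31))) (bit5 q)) 0 25)))

noncomputable def ob2 (h : ℕ) : ℕ :=
  Nat.add (mk 56 1143604 5 6 6)
    (cond (Nat.beq (Nat.land h 133666119455) 38990906642)
      (cat 56 (fun q => Nat.sub 277065834000 (Nat.mul 4000000000 (obj (bits h 40 31) q))) 6 0)
      (cst 56 274934646500 6))

noncomputable def oc2 (g : ℕ) : ℤ :=
  56739556 + 1143604 * (if adj g 6 5 then 1 else 0) -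
    c5I g * (17868812500 + 4000000000 * ((obj (gat l5 g) (gat lP6 g) : ℤ) - 5))

theorem obj_le (k q : ℕ) : obj k q ≤ 25 := by
  unfold obj
  simp only [cond_beq]
  split_ifs <;> norm_num

theorem bit5_P6 (g : ℕ) : (gat lP6 g).testBit 5 = adj g 6 5 := by rw [testBit_gat]; rfl

theorem fld_mk5 {c : ℕ} (hc : c < 2 ^ 56) (g : ℕ) :
    (fld 56 (mk 56 c 5 6 6) (gat lP6 g) : ℤ) = c * (if adj g 6 5 then 1 else 0) := by
  have h64 : gat lP6 g < 2 ^ 6 := gat_lt _ _
  have hP : MkP 5 6 6 (gat lP6 g) ↔ adj g 6 5 = true := by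
    unfold MkP; rw [bit5_P6]; simp; intro _; exact h64
  rw [fld_mk hc]
  simp only [hP]
  split_ifs <;> simp

theorem fld_mk6 {c : ℕ} (hc : c < 2 ^ 56) (g : ℕ) :
    (fld 56 (mk 56 c 6 5 6) (gat lP6 g) : ℤ) = c * (1 - if adj g 6 5 then 1 else 0) := by
  have h64 : gat lP6 g < 2 ^ 6 := gat_lt _ _
  have hP : MkP 6 5 6 (gat lP6 g) ↔ adj g 6 5 = false := by
    unfold MkP; rw [bit5_P6]; simp; intro _; exact h64
  rw [fld_mk hc]
  simp only [hP]
  cases adj g 6 5 <;> simp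

theorem ob2_aux (h : ℕ) : Bnd 56 (cond (Nat.beq (Nat.land h 133666119455) 38990906642)
      (cat 56 (fun q => Nat.sub 277065834000 (Nat.mul 4000000000 (obj (bits h 40 31) q))) 6 0)
      (cst 56 274934646500 6)) 277065834000 := by
  rw [cond_beq]
  split_ifs
  · intro i
    rw [fld_cat]
    split_ifs
    · exact (Nat.mod_le _ _).trans (Nat.sub_le _ _)
    · exact Nat.zero_le _
  · exact (bnd_cst (by norm_num) _).mono (by norm_num)

theorem ob2_bnd (h : ℕ) : Bnd 56 (ob2 h) 35184372088832 :=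
  ((bnd_mk (by norm_num) _ _ _).add (ob2_aux h) (by norm_num)).mono (by norm_num)

theorem ob2_val (g : ℕ) (_ : Good g) :
    (fld 56 (ob2 (blk 6 g)) (gat lP6 g) : ℤ) = oc2 g + (274877906944 : ℕ) := by
  have h64 : gat lP6 g < 2 ^ 6 := gat_lt _ _
  unfold ob2 oc2 c5I
  rw [Nat.add_eq, (bnd_mk (by norm_num) _ _ _).fld_add (ob2_aux _) (by norm_num), Nat.cast_add,
    fld_mk5 (by norm_num), land5, cond_beq, bits_l5]
  by_cases c : blk 5 g = 38990906642
  · rw [if_pos c, if_pos c, fld_cat, if_pos h64, Nat.zero_add]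
    have := obj_le (gat l5 g) (gat lP6 g)
    simp only [Nat.sub_eq, Nat.mul_eq]
    omega
  · rw [if_neg c, if_neg c, fld_cst (by norm_num), if_pos h64]
    omega

/-! the exact certificate -/

noncomputable def yy (t : Tr) (τ : ℕ) : ℕ :=
  Nat.mod (look t τ (fun _ a _ _ => a) 34359738368) 68719476736

noncomputable def ob1 (t : Tr) (M : ℕ) (h : ℕ) : ℕ :=
  Nat.add (Nat.add (mk 56 (Nat.mul 128 (yy t (Nat.land h 133666119455))) 5 6 6)
    (mk 56 4398046511104 6 5 6))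
    (cst 56 (Nat.sub (Nat.sub 8796093022208 (Nat.mul 45 (yy t (Nat.land h 133666119455))))
      (cond (Nat.beq (Nat.land h 133666119455) 38990906642) M 0)) 6)

noncomputable def oc1 (t : Tr) (M k : ℕ) (g : ℕ) : ℤ :=
  k - M * c5I g + ((yy t (blk 5 g) : ℤ) - 34359738368) * (128 * (if adj g 6 5 then 1 else 0) - 45)

theorem yy_lt (t : Tr) (τ : ℕ) : yy t τ < 68719476736 := Nat.mod_lt _ (by norm_num)

theorem ob1_aux (t : Tr) (M τ : ℕ) :
    Bnd 56 (mk 56 (Nat.mul 128 (yy t τ)) 5 6 6) 8796093022208 ∧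
    Bnd 56 (cst 56 (Nat.sub (Nat.sub 8796093022208 (Nat.mul 45 (yy t τ)))
      (cond (Nat.beq τ 38990906642) M 0)) 6) 8796093022208 := by
  have := yy_lt t τ
  have e : Nat.sub (Nat.sub 8796093022208 (Nat.mul 45 (yy t τ)))
      (cond (Nat.beq τ 38990906642) M 0) ≤ 8796093022208 := (Nat.sub_le _ _).trans (Nat.sub_le _ _)
  refine ⟨(bnd_mk (by rw [Nat.mul_eq]; omega) _ _ _).mono (by rw [Nat.mul_eq]; omega),
    (bnd_cst (by omega) _).mono e⟩

theorem ob1_bnd (t : Tr) (M h : ℕ) : Bnd 56 (ob1 t M h) 35184372088832 :=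
  (((ob1_aux t M _).1.add (bnd_mk (c := 4398046511104) (by norm_num) _ _ _) (by norm_num)).add
    (ob1_aux t M _).2 (by norm_num)).mono (by norm_num)

theorem ob1_val (t : Tr) {M k K : ℕ} (hM : M ≤ 4398046511104) (hK : k + K = 11647951306752)
    (g : ℕ) (_ : Good g) :
    (fld 56 (ob1 t M (blk 6 g)) (gat lP6 g) : ℤ) = oc1 t M k g + K := by
  have h64 : gat lP6 g < 2 ^ 6 := gat_lt _ _
  have := yy_lt t (blk 5 g)
  unfold ob1 oc1 c5I
  rw [land5, Nat.add_eq, Nat.add_eq, ((ob1_aux t M _).1.add (bnd_mk (c := 4398046511104)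
    (by norm_num) _ _ _) (by norm_num)).fld_add (ob1_aux t M _).2 (by norm_num),
    (ob1_aux t M _).1.fld_add (bnd_mk (c := 4398046511104) (by norm_num) _ _ _) (by norm_num),
    Nat.cast_add, Nat.cast_add, fld_mk5 (by rw [Nat.mul_eq]; omega), fld_mk6 (by norm_num),
    cond_beq]
  simp only [Nat.sub_eq, Nat.mul_eq]
  rw [fld_cst (lt_of_le_of_lt ((Nat.sub_le _ _).trans (Nat.sub_le _ _)) (by norm_num)), if_pos h64]
  split_ifs <;> omega

end Pool.Agent.Lib.MP_49b2f4_co.N7
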