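import Pool.Agent.Lib.MP_49b2f4_co.N7.W
import Pool.Agent.Lib.MP_49b2f4_co.N7.Obj

/-! What the certificates say about a weighted graph. -/

namespace Pool.Agent.Lib.MP_49b2f4_co.N7

open Finset

variable {V : Type} [Fintype V] (A : V → V → Bool) {w : V → ℝ}

theorem sum_SymW (w : V → ℝ) (c : ℕ → ℤ) : ∀ n, n ≤ 8 →
    ∑ x : Fin 8 → V, (∏ i, w (x i)) * (Sym c n (code A x) : ℝ) =
      n.factorial * ∑ x : Fin 8 → V, (∏ i, w (x i)) * (c (code A x) : ℝ) := by
  intro n
  induction n with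
  | zero => intro _; simp [Sym]
  | succ j ih =>
    intro hn
    simp only [Sym, Int.cast_sum, mul_sum]
    rw [sum_comm, sum_congr rfl
      (g := fun _ => ∑ x : Fin 8 → V, (∏ i, w (x i)) * (Sym c j (code A x) : ℝ))]
    · rw [ih (by omega), sum_const, card_range, Nat.factorial_succ, ← mul_sum]; push_cast; ring
    · intro i hi
      rw [mem_range] at hi
      simp only [act_code A _ (show i < 8 by omega) (show j < 8 by omega)]
      refine Fintype.sum_equiv
        (Equiv.arrowCongr (Equiv.swap (Fin.ofNat 8 i) (Fin.ofNat 8 j)).symm (Equiv.refl V)) _ _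
        (fun x => ?_)
      rw [← Equiv.prod_comp (Equiv.swap (Fin.ofNat 8 i) (Fin.ofNat 8 j)) (fun k => w (x k))]
      rfl

def I5 (w : V → ℝ) (F : V → V → V → V → V → ℝ) : ℝ := I w fun a => I4 w (F a)

theorem sum_I (w : V → ℝ) (F : ℕ → ℝ) :
    ∑ x : Fin 8 → V, (∏ i, w (x i)) * F (code A x) = I5 w fun a b c d e =>
      I w fun f => I w fun g => I w fun h => F (codeN A (sel a b c d e f g h)) := by
  rw [sum_eight]
  simp only [I5, I4, I, mul_sum, code_vec, Fin.prod_univ_succ, Fin.prod_univ_zero,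
    Matrix.cons_val_zero, Matrix.cons_val_succ, mul_one, mul_assoc]

def ty5 (a b c d e : V) : ℕ := blk 5 (codeN A (sel a b c d e a a a))
def ty3 (a b c : V) : ℕ := blk 3 (codeN A (sel a b c a a a a a))
def k5 (a b c d e y : V) : ℕ := gatv A (sel a b c d e y a a) l5
def k3 (a b c y z : V) : ℕ := gatv A (sel a b c y z a a a) lA

omit [Fintype V] in
theorem ty5_eq (a b c d e f g h : V) : blk 5 (codeN A (sel a b c d e f g h)) = ty5 A a b c d e :=
  blk_code A _ _ (fun i hi => by interval_cases i <;> rfl)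

omit [Fintype V] in
theorem cc_code (L3 L5 : List Blk) (oc : ℕ → ℤ) (a b c d e f g h : V) :
    (cc L3 L5 oc (codeN A (sel a b c d e f g h)) : ℝ) = oc (codeN A (sel a b c d e f g h))
      - (QL L5 (ty5 A a b c d e) (k5 A a b c d e f) (k5 A a b c d e g) : ℝ)
      - (QL L3 (ty3 A a b c) (k3 A a b c d e) (k3 A a b c f g) : ℝ) := by
  have e3 : blk 3 (codeN A (sel a b c d e f g h)) = ty3 A a b c :=
    blk_code A _ _ (fun i hi => by interval_cases i <;> rfl)
  have k1 : gat l5 (codeN A (sel a b c d e f g h)) = k5 A a b c d e f :=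
    (gat_code _ _ _ (by decide)).trans rfl
  have k2 : gat l6 (codeN A (sel a b c d e f g h)) = k5 A a b c d e g :=
    (gat_code _ _ _ (by decide)).trans rfl
  have k3' : gat lA (codeN A (sel a b c d e f g h)) = k3 A a b c d e :=
    (gat_code _ _ _ (by decide)).trans rfl
  have k4 : gat lB (codeN A (sel a b c d e f g h)) = k3 A a b c f g :=
    (gat_code _ _ _ (by decide)).trans rfl
  unfold cc
  rw [ty5_eq, e3, k1, k2, k3', k4]
  push_cast
  ring

theorem psd_I {Q : ℕ → ℕ → ℤ} (h : Psd Q) (w : V → ℝ) (κ : V → ℕ) :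
    0 ≤ I w fun f => I w fun g => (Q (κ f) (κ g) : ℝ) := by
  have := h V w κ
  simp only [I, mul_sum, ← mul_assoc]
  exact this

theorem psd_I2 {Q : ℕ → ℕ → ℤ} (h : Psd Q) (w : V → ℝ) (κ : V → V → ℕ) :
    0 ≤ I w fun d => I w fun e => I w fun f => I w fun g => (Q (κ d e) (κ f g) : ℝ) := by
  have := h (V × V) (fun p => w p.1 * w p.2) (fun p => κ p.1 p.2)
  simp only [Fintype.sum_prod_type] at this
  simp only [I, mul_sum]
  refine this.trans (le_of_eq ?_)
  iterate 4 (refine sum_congr rfl fun _ _ => ?_)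
  ring

theorem cert_obj {L3 L5 : List Blk} (h3 : LOK L3 128) (h5 : LOK L5 32) {oc : ℕ → ℤ}
    (cert : ∀ g, Good g → 0 ≤ Sym (cc L3 L5 oc) 7 g) (hA : Gr A) (hw : Pr w)
    {F : V → V → V → V → V → V → V → ℝ}
    (hF : ∀ a b c d e f g h, (oc (codeN A (sel a b c d e f g h)) : ℝ) = F a b c d e f g) :
    0 ≤ I5 w fun a b c d e => I w fun f => I w fun g => F a b c d e f g := by
  have h1 : 0 ≤ ∑ x : Fin 8 → V, (∏ i, w (x i)) * (Sym (cc L3 L5 oc) 7 (code A x) : ℝ) :=
    sum_nonneg fun x _ => mul_nonneg (prod_nonneg fun i _ => hw.nn _)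
      (by exact_mod_cast cert _ (code_good A hA.symm hA.irr x))
  rw [sum_SymW A w _ 7 (by norm_num)] at h1
  have h2 := nonneg_of_mul_nonneg_right h1 (by exact_mod_cast Nat.factorial_pos 7)
  rw [sum_I A w (fun g => (cc L3 L5 oc g : ℝ))] at h2
  simp only [cc_code, hF, hw.const, I5, I4, I_sub] at h2
  have p5 : 0 ≤ I w fun a => I w fun b => I w fun c => I w fun d => I w fun e =>
      I w fun f => I w fun g =>
      (QL L5 (ty5 A a b c d e) (k5 A a b c d e f) (k5 A a b c d e g) : ℝ) := by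
    iterate 5 (refine I_nn hw.nn fun _ => ?_)
    exact psd_I (QL_psd h5 _) w _
  have p3 : 0 ≤ I w fun a => I w fun b => I w fun c => I w fun d => I w fun e =>
      I w fun f => I w fun g =>
      (QL L3 (ty3 A a b c) (k3 A a b c d e) (k3 A a b c f g) : ℝ) := by
    iterate 3 (refine I_nn hw.nn fun _ => ?_)
    exact psd_I2 (QL_psd h3 _) w _
  simp only [I5, I4]
  linarith

omit [Fintype V] in
theorem adj65 (a b c d e f g h : V) :
    ((if adj (codeN A (sel a b c d e f g h)) 6 5 then 1 else 0 : ℤ) : ℝ) = r (A g f) := by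
  have k7 : adj (codeN A (sel a b c d e f g h)) 6 5 = A g f :=
    adj_codeN _ _ (by norm_num) (by norm_num)
  rw [k7]; cases A g f <;> simp

theorem PW_swap (w : V → ℝ) : (I w fun f => I w fun g => r (A g f)) = PW w A :=
  I2_swap w fun a b => r (A a b)

theorem cert1 {L3 L5 : List Blk} (h3 : LOK L3 128) (h5 : LOK L5 32) {t : Tr} {M k : ℕ}
    (cert : ∀ g, Good g → 0 ≤ Sym (cc L3 L5 (oc1 t M k)) 7 g) (hA : Gr A) (hw : Pr w) :
    M * NW w A ≤ k + 34359738368 * |128 * PW w A - 45| := by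
  have h := cert_obj A h3 h5 cert hA hw (F := fun a b c d e f g => k - M * pi A a b c d e +
    ((yy t (ty5 A a b c d e) : ℝ) - 34359738368) * (128 * r (A g f) - 45)) (by
      intro a b c d e f g h
      unfold oc1
      rw [ty5_eq, ← adj65 A a b c d e f g h, pi, ← c5I_code A hA.symm hA.irr a b c d e f g h]
      push_cast; ring)
  simp only [I_add, I_sub, I_mul, hw.const, PW_swap] at h
  have h2 : (I5 w fun a b c d e => k - M * pi A a b c d e +
      ((yy t (ty5 A a b c d e) : ℝ) - 34359738368) * (128 * PW w A - 45)) ≤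
      I5 w fun a b c d e => k + 34359738368 * |128 * PW w A - 45| - M * pi A a b c d e := by
    refine I_mono hw.nn fun a => I4_mono hw.nn fun b c d e => ?_
    have y1 : (0 : ℝ) ≤ yy t (ty5 A a b c d e) := by positivity
    have y2 : (yy t (ty5 A a b c d e) : ℝ) ≤ 68719476736 := by
      exact_mod_cast (yy_lt t (ty5 A a b c d e)).le
    have y3 : |(yy t (ty5 A a b c d e) : ℝ) - 34359738368| ≤ 34359738368 :=
      abs_le.2 ⟨by linarith, by linarith⟩
    have y4 := le_abs_self (((yy t (ty5 A a b c d e) : ℝ) - 34359738368) * (128 * PW w A - 45))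
    rw [abs_mul] at y4
    have := mul_le_mul_of_nonneg_right y3 (abs_nonneg (128 * PW w A - 45))
    linarith
  have h4 := h.trans h2
  simp only [I5, I4, I_sub, I_mul, hw.const] at h4
  unfold NW I4
  linarith

theorem obj_eq : ∀ k < 32, ∀ k' < 32, ∀ b : Bool, (obj k (32 * b.toNat + k') : ℤ) - 5 =
    (1 - (cls k != 5).toNat) + (cls k != 5).toNat * (cls k' != 5).toNat *
      (25 * (Fin.ofNat 5 (cls k) == Fin.ofNat 5 (cls k')).toNat - 5 +
        25 * ((Fin.ofNat 5 (cls k) != Fin.ofNat 5 (cls k')) &&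
          (b != CC (Fin.ofNat 5 (cls k)) (Fin.ofNat 5 (cls k')))).toNat) := by
  decide +kernel

noncomputable def om (a b c d e u : V) : Bool := cls (k5 A a b c d e u) != 5
noncomputable def cl0 (a b c d e u : V) : Fin 5 := Fin.ofNat 5 (cls (k5 A a b c d e u))

noncomputable def objR (ω : V → Bool) (c : V → Fin 5) (f g : V) : ℝ :=
  (1 - r (ω f)) + r (ω f) * r (ω g) * (25 * r (c f == c g) - 5 + 25 * r (D A c f g))

omit [Fintype V] in
theorem oc2_code (hA : Gr A) (a b c d e f g h : V) : (oc2 (codeN A (sel a b c d e f g h)) : ℝ) =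
    56739556 + 1143604 * r (A g f) - pi A a b c d e * (17868812500 + 4000000000 *
      objR A (om A a b c d e) (cl0 A a b c d e) f g) := by
  have k1 : gat l5 (codeN A (sel a b c d e f g h)) = k5 A a b c d e f :=
    (gat_code _ _ _ (by decide)).trans rfl
  have k2 : gat l6 (codeN A (sel a b c d e f g h)) = k5 A a b c d e g :=
    (gat_code _ _ _ (by decide)).trans rfl
  have k3 : gat [53] (codeN A (sel a b c d e f g h)) = (A f g).toNat := by
    rw [gat_code _ _ _ (by decide), hA.symm f g]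
    show Nat.bit (A g f) 0 = _
    cases A g f <;> rfl
  have k4 : gat lP6 (codeN A (sel a b c d e f g h)) = 32 * (A f g).toNat + k5 A a b c d e g := by
    rw [← k3, ← k2]; exact gat_append l6 [53] _
  have l1 : k5 A a b c d e f < 32 := by rw [← k1]; exact gat_lt _ _
  have l2 : k5 A a b c d e g < 32 := by rw [← k2]; exact gat_lt _ _
  unfold oc2
  rw [k1, k4, obj_eq _ l1 _ l2, ← adj65 A a b c d e f g h, pi,
    ← c5I_code A hA.symm hA.irr a b c d e f g h]
  simp only [objR, om, cl0, D, dd, r_nat]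
  push_cast; ring

theorem cert2 {L3 L5 : List Blk} (h3 : LOK L3 128) (h5 : LOK L5 32)
    (cert : ∀ g, Good g → 0 ≤ Sym (cc L3 L5 oc2) 7 g) (hA : Gr A) (hw : Pr w)
    (hP : 39 / 100 ≤ PW w A) (hN : 4958 / 100 + PW w A ≤ 15625 * NW w A) :
    ∃ (ω : V → Bool) (c : V → Fin 5), I2 w (objR A ω c) ≤ 1 / 320 := by
  have h := cert_obj A h3 h5 cert hA hw (oc2_code A hA)
  simp only [I_add, I_sub, I_mul, hw.const, PW_swap] at h
  have hne : Nonempty V := by
    by_contra hc
    rw [not_nonempty_iff] at hc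
    have := hw.one
    simp at this
  obtain ⟨z, _, hz⟩ := exists_min_image (univ : Finset (V × V × V × V × V))
    (fun z => I2 w (objR A (om A z.1 z.2.1 z.2.2.1 z.2.2.2.1 z.2.2.2.2)
      (cl0 A z.1 z.2.1 z.2.2.1 z.2.2.2.1 z.2.2.2.2))) univ_nonempty
  refine ⟨_, _, le_trans (le_of_eq rfl) (?_ : I2 w (objR A (om A z.1 z.2.1 z.2.2.1 z.2.2.2.1 z.2.2.2.2)
      (cl0 A z.1 z.2.1 z.2.2.1 z.2.2.2.1 z.2.2.2.2)) ≤ _)⟩
  generalize I2 w (objR A (om A z.1 z.2.1 z.2.2.1 z.2.2.2.1 z.2.2.2.2)
      (cl0 A z.1 z.2.1 z.2.2.1 z.2.2.2.1 z.2.2.2.2)) = m at *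
  have h2 : (I5 w fun a b c d e => 56739556 + 1143604 * PW w A - pi A a b c d e *
      (17868812500 + 4000000000 * I w fun f => I w fun g =>
        objR A (om A a b c d e) (cl0 A a b c d e) f g)) ≤
      I5 w fun a b c d e => 56739556 + 1143604 * PW w A -
        (17868812500 + 4000000000 * m) * pi A a b c d e := by
    refine I_mono hw.nn fun a => I4_mono hw.nn fun b c d e => ?_
    have := mul_le_mul_of_nonneg_left (hz (a, b, c, d, e) (mem_univ _)) (pi_nn A a b c d e)
    unfold I2 at this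
    linarith
  have h4 := h.trans h2
  simp only [I5, I4, I_sub, I_mul, hw.const] at h4
  have e : (I w fun a => I w fun b => I w fun c => I w fun d => I w fun e => pi A a b c d e) =
    NW w A := rfl
  rw [e] at h4
  by_contra hc
  have : 0 < (m - 1 / 320) * (15625 * NW w A) := mul_pos (by linarith) (by linarith)
  nlinarith

end Pool.Agent.Lib.MP_49b2f4_co.N7
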