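import Pool.Agent.Lib.MP_49b2f4_co.N7.Sub
import Mathlib.Analysis.MeanInequalities

/-! Lower bounds for upper bounds of the family `RS`. -/

namespace Pool.Agent.Lib.MP_49b2f4_co.N7

open Finset

theorem amgm5 {x : Fin 5 → ℝ} (x0 : ∀ i, 0 ≤ x i) (x1 : ∑ i, x i = 1) : ∏ i, x i ≤ 1 / 3125 := by
  have h := Real.geom_mean_le_arith_mean_weighted univ (fun _ : Fin 5 => (1 / 5 : ℝ)) x
    (fun _ _ => by norm_num) (by simp) (fun i _ => x0 i)
  rw [← mul_sum, x1, Real.finsetProd_rpow _ _ (fun i _ => x0 i)] at h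
  have h0 : 0 ≤ ∏ i, x i := prod_nonneg fun i _ => x0 i
  have h2 := pow_le_pow_left₀ (Real.rpow_nonneg h0 _) h 5
  rw [← Real.rpow_natCast, ← Real.rpow_mul h0] at h2
  norm_num at h2
  linarith

theorem mem_unif {q : ℝ} (s : Fin 5 → ℝ) (hs : ∀ i, 0 ≤ s i ∧ s i ≤ 1)
    (h : s 0 + s 1 + s 2 + s 3 + s 4 = 25 * q - 10) :
    24 / 625 + (gmax (s 0) + gmax (s 1) + gmax (s 2) + gmax (s 3) + gmax (s 4)) / 3125 ∈ RS q := by
  refine ⟨fun _ => 1 / 5, s, fun _ => by norm_num, by simp, hs, ?_, ?_⟩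
  · simp only [Fin.sum_univ_five]; linarith
  · simp only [Fin.sum_univ_five, Fin.prod_univ_five]; ring

theorem RS_base {q u : ℝ} (q0 : 2 / 5 ≤ q) (q1 : q ≤ 3 / 5) (hu : ∀ v ∈ RS q, v ≤ u) :
    24 / 625 ≤ u := by
  have := hu _ (mem_unif (fun _ => 5 * q - 2) (fun _ => ⟨by linarith, by linarith⟩) (by ring))
  have := gmax_nn (5 * q - 2)
  linarith

theorem g_mid {q : ℝ} (q0 : 2 / 5 ≤ q) (q1 : q ≤ 3 / 5) : 24 / 625 ≤ gmax q :=
  RS_base q0 q1 fun _ h => RS_le h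

theorem RS_lin {q u : ℝ} (q0 : 2 / 5 ≤ q) (q1 : q ≤ 1 / 2) (hu : ∀ v ∈ RS q, v ≤ u) :
    12 / 15625 * (4958 / 100 + q) ≤ u := by
  have g4 := g_mid (q := 2 / 5) le_rfl (by norm_num)
  have g0 := gmax_nn 0
  have key : ∀ a b c d e : ℝ, 0 ≤ a → a ≤ 1 → 0 ≤ b → b ≤ 1 → 0 ≤ c → c ≤ 1 → 0 ≤ d → d ≤ 1 →
      0 ≤ e → e ≤ 1 → a + b + c + d + e = 25 * q - 10 →
      24 / 625 + (gmax a + gmax b + gmax c + gmax d + gmax e) / 3125 ≤ u := by
    intro a b c d e a0 a1 b0 b1 c0 c1 d0 d1 e0 e1 h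
    refine hu _ (mem_unif ![a, b, c, d, e] (fun i => ?_) h)
    fin_cases i
    exacts [⟨a0, a1⟩, ⟨b0, b1⟩, ⟨c0, c1⟩, ⟨d0, d1⟩, ⟨e0, e1⟩]
  by_cases c1 : 25 * q - 10 ≤ 2 / 5
  · have := RS_base q0 (by linarith) hu
    linarith
  by_cases c2 : 25 * q - 10 ≤ 4 / 5
  · have := key (2 / 5) (25 * q - 52 / 5) 0 0 0 (by norm_num) (by norm_num) (by linarith)
      (by linarith) le_rfl (by norm_num) le_rfl (by norm_num) le_rfl (by norm_num) (by ring)
    have := gmax_nn (25 * q - 52 / 5)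
    linarith
  by_cases c3 : 25 * q - 10 ≤ 6 / 5
  · have := key (2 / 5) (2 / 5) (25 * q - 54 / 5) 0 0 (by norm_num) (by norm_num) (by norm_num)
      (by norm_num) (by linarith) (by linarith) le_rfl (by norm_num) le_rfl (by norm_num) (by ring)
    have := gmax_nn (25 * q - 54 / 5)
    linarith
  by_cases c4 : 25 * q - 10 ≤ 8 / 5
  · have := key (2 / 5) (2 / 5) (2 / 5) (25 * q - 56 / 5) 0 (by norm_num) (by norm_num) (by norm_num)
      (by norm_num) (by norm_num) (by norm_num) (by linarith) (by linarith) le_rfl (by norm_num)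
      (by ring)
    have := gmax_nn (25 * q - 56 / 5)
    linarith
  by_cases c5 : 25 * q - 10 ≤ 2
  · have := key (2 / 5) (2 / 5) (2 / 5) (2 / 5) (25 * q - 58 / 5) (by norm_num) (by norm_num)
      (by norm_num) (by norm_num) (by norm_num) (by norm_num) (by norm_num) (by norm_num)
      (by linarith) (by linarith) (by ring)
    have := gmax_nn (25 * q - 58 / 5)
    linarith
  · have := hu _ (mem_unif (fun _ => 5 * q - 2) (fun _ => ⟨by linarith, by linarith⟩) (by ring))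
    have := g_mid (q := 5 * q - 2) (by linarith) (by linarith)
    linarith

theorem RS_move {q u : ℝ} (q0 : 2 / 5 ≤ q) (q1 : q ≤ 1 / 2) (hu : ∀ v ∈ RS q, v ≤ u)
    {x P : Fin 5 → ℝ} (xl : ∀ i, 19 / 100 ≤ x i) (xu : ∀ i, x i ≤ 21 / 100) (x1 : ∑ i, x i = 1)
    (hP : ∀ i, 0 ≤ P i ∧ P i ≤ 1) :
    120 * ∏ i, x i + ∑ i, x i ^ 5 * gmax (P i) ≤
      u + 1 / 200 * |2 * ∑ i, x i * x (i + 1) + ∑ i, x i ^ 2 * P i - q| := by
  have x0 : ∀ i, 0 ≤ x i := fun i => le_trans (by norm_num) (xl i)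
  have x5 : ∀ i, x i ^ 5 ≤ 1 / 105 * x i ^ 2 := fun i => by
    have := mul_le_mul_of_nonneg_right (pow_le_pow_left₀ (x0 i) (xu i) 3) (sq_nonneg (x i))
    have := sq_nonneg (x i)
    nlinarith
  have mv : ∀ z t : ℝ, 0 ≤ t → t ≤ 1 → 0 ≤ z → z ≤ 1 →
      2 * ∑ i, x i * x (i + 1) + ∑ i, x i ^ 2 * (P i + t * (z - P i)) = q →
      120 * ∏ i, x i + ∑ i, x i ^ 5 * gmax (P i) ≤
        u + 1 / 200 * (t * ∑ i, x i ^ 2 * |z - P i|) := by
    intro z t t0 t1 z0 z1 h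
    have hr : ∀ i, 0 ≤ P i + t * (z - P i) ∧ P i + t * (z - P i) ≤ 1 := fun i => by
      obtain ⟨a, b⟩ := hP i
      constructor <;> nlinarith
    have h1 := hu _ ⟨x, _, fun i => ⟨xl i, xu i⟩, x1, hr, h, rfl⟩
    have h2 : ∑ i, x i ^ 5 * gmax (P i) ≤ ∑ i, (x i ^ 5 * gmax (P i + t * (z - P i)) +
        1 / 200 * (t * (x i ^ 2 * |z - P i|))) := by
      refine sum_le_sum fun i _ => ?_
      have l := lip (hP i).1 (hP i).2 (hr i).1 (hr i).2
      rw [sub_add_cancel_left, abs_neg, abs_mul, abs_of_nonneg t0] at l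
      have := mul_le_mul_of_nonneg_left l (pow_nonneg (x0 i) 5)
      have := mul_le_mul_of_nonneg_right (x5 i) (mul_nonneg t0 (abs_nonneg (z - P i)))
      linarith
    rw [sum_add_distrib, ← mul_sum, ← mul_sum] at h2
    linarith
  have T0 : 0 ≤ ∑ i, x i ^ 2 * P i := sum_nonneg fun i _ => mul_nonneg (sq_nonneg _) (hP i).1
  have ex : ∀ z t : ℝ, ∑ i, x i ^ 2 * (P i + t * (z - P i)) =
      ∑ i, x i ^ 2 * P i + t * (z * ∑ i, x i ^ 2 - ∑ i, x i ^ 2 * P i) := by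
    intro z t; simp only [Fin.sum_univ_five]; ring
  have e1 : ∑ i, x i ^ 2 * |1 - P i| = ∑ i, x i ^ 2 - ∑ i, x i ^ 2 * P i := by
    rw [← sum_sub_distrib]
    exact sum_congr rfl fun i _ => by rw [abs_of_nonneg (sub_nonneg.2 (hP i).2)]; ring
  have e0 : ∑ i, x i ^ 2 * |0 - P i| = ∑ i, x i ^ 2 * P i :=
    sum_congr rfl fun i _ => by rw [zero_sub, abs_neg, abs_of_nonneg (hP i).1]
  have l1 : ∑ _i : Fin 5, (19 / 100 : ℝ) * (19 / 100) ≤ ∑ i, x i * x (i + 1) :=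
    sum_le_sum fun i _ => mul_le_mul (xl _) (xl _) (by norm_num) (x0 _)
  have l2 : ∑ _i : Fin 5, (19 / 100 : ℝ) ^ 2 ≤ ∑ i, x i ^ 2 :=
    sum_le_sum fun i _ => pow_le_pow_left₀ (by norm_num) (xl _) 2
  have l3 : ∑ i, x i ^ 5 * gmax (P i) ≤ ∑ i, 1 / 200 * (x i ^ 2 * P i) := by
    refine sum_le_sum fun i _ => ?_
    have := mul_le_mul (x5 i) (gmax_lin (hP i).1 (hP i).2) (gmax_nn _) (by positivity)
    have := mul_nonneg (sq_nonneg (x i)) (hP i).1
    linarith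
  rw [← mul_sum] at l3
  simp only [ex] at mv
  simp only [sum_const, card_univ, Fintype.card_fin, nsmul_eq_mul, Nat.cast_ofNat] at l1 l2
  have am := amgm5 x0 x1
  have ub := RS_base q0 (by linarith) hu
  generalize ∑ i, x i * x (i + 1) = E at *
  generalize ∑ i, x i ^ 2 * P i = T at *
  generalize ∑ i, x i ^ 2 = S at *
  by_cases c1 : 2 * E + T ≤ q
  · have hp : 0 < S - T := by linarith
    have := mv 1 ((q - (2 * E + T)) / (S - T)) (div_nonneg (by linarith) hp.le)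
      ((div_le_one hp).2 (by linarith)) zero_le_one le_rfl (by field_simp; ring)
    rw [e1, div_mul_cancel₀ _ hp.ne'] at this
    rw [abs_of_nonpos (by linarith)]; linarith
  rw [abs_of_nonneg (by linarith)]
  by_cases c2 : 2 * E ≤ q
  · have hp : 0 < T := by linarith
    have := mv 0 ((2 * E + T - q) / T) (div_nonneg (by linarith) hp.le)
      ((div_le_one hp).2 (by linarith)) le_rfl zero_le_one (by field_simp; ring)
    rw [e0, div_mul_cancel₀ _ hp.ne'] at this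
    exact this
  · linarith

end Pool.Agent.Lib.MP_49b2f4_co.N7
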