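import Pool.Agent.Lib.MP_49b2f4_co.N7.Rot
import Pool.Agent.Lib.MP_49b2f4_co.N7.Cs
import Pool.Agent.Lib.MP_49b2f4_co.N7.Fam
import Mathlib.Algebra.Order.Chebyshev

/-! From the stability estimate to an upper bound by the recursive family. -/

namespace Pool.Agent.Lib.MP_49b2f4_co.N7

open Finset

theorem num5 (a b c d e : ℝ) : |a - (a + b + c + d + e) / 5| ≤
    40 * (a ^ 2 + b ^ 2 + c ^ 2 + d ^ 2 + e ^ 2 - (a + b + c + d + e) ^ 2 / 5) + 1 / 200 := by
  have h : 50 * (a - (a + b + c + d + e) / 5) ^ 2 ≤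
      40 * (a ^ 2 + b ^ 2 + c ^ 2 + d ^ 2 + e ^ 2 - (a + b + c + d + e) ^ 2 / 5) := by
    linarith [sq_nonneg (b - c), sq_nonneg (b - d), sq_nonneg (b - e), sq_nonneg (c - d),
      sq_nonneg (c - e), sq_nonneg (d - e)]
  rw [abs_le]
  generalize a - (a + b + c + d + e) / 5 = x at *
  constructor <;> linarith [sq_nonneg (x - 1 / 100), sq_nonneg (x + 1 / 100)]

theorem numz (z : Fin 5 → ℝ) (j : Fin 5) :
    |z j - (∑ i, z i) / 5| ≤ 40 * (∑ i, z i ^ 2 - (∑ i, z i) ^ 2 / 5) + 1 / 200 := by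
  rw [← Equiv.sum_comp (Equiv.addLeft j) z, ← Equiv.sum_comp (Equiv.addLeft j) fun i => z i ^ 2]
  simpa only [Fin.sum_univ_five, Equiv.coe_addLeft, add_zero] using
    num5 (z j) (z (j + 1)) (z (j + 2)) (z (j + 3)) (z (j + 4))

variable {V : Type} [Fintype V] {w : V → ℝ} {A : V → V → Bool}

theorem sum_X (c : V → Fin 5) (ω : V → Bool) (w : V → ℝ) :
    ∑ i, I w (X c ω i) = I w fun u => r (ω u) := by
  rw [← I_sum]
  refine I_congr fun u => ?_
  have : ∀ a : Fin 5, ∑ i, (a == i).toNat = 1 := by decide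
  simp only [X, ← mul_sum, r_nat]
  rw [← Nat.cast_sum, this]; simp

theorem obj_sum (hw : Pr w) (c : V → Fin 5) (ω : V → Bool) : I2 w (objR A ω c) =
    I w (fun u => r (!ω u)) + 25 * ∑ i, I w (X c ω i) ^ 2 - 5 * I w (fun u => r (ω u)) ^ 2 +
      25 * I2 w (dw A c ω) := by
  have e : ∀ f g, objR A ω c f g = r (!ω f) + 25 * ∑ i, X c ω i f * X c ω i g -
      5 * (r (ω f) * r (ω g)) + 25 * dw A c ω f g := fun f g => by
    have : ∀ a b : Fin 5, (a == b).toNat = ∑ i, (a == i).toNat * (b == i).toNat := by decide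
    have h : r (c f == c g) = ∑ i, r (c f == i) * r (c g == i) := by
      simp only [r_nat]; exact_mod_cast this _ _
    simp only [objR, X, dw, de, r_not, h, Fin.sum_univ_five]
    ring
  rw [show objR A ω c = _ from funext fun f => funext (e f)]
  simp only [I2, I_add, I_sub, I_mul, I_mulr, I_sum, hw.const, sq]

theorem exists_good (hw : Pr w) {ω0 : V → Bool} {c0 : V → Fin 5}
    (h : I2 w (objR A ω0 c0) ≤ 1 / 320) : ∃ (ω : V → Bool) (c : V → Fin 5),
    (∀ j, 19 / 100 ≤ I w (X c ω j)) ∧ (∀ j, I w (fun u => r (c u == j)) ≤ 21 / 100) ∧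
    I w (fun u => r (!ω u)) ≤ 1 / 320 ∧ I2 w (dw A c ω) ≤ 1 / 8000 ∧
    ∀ v, 1 / 25 < dg w A c ω v →
      ω v = false ∧ ∀ m, sm (tt w A c ω v) (c v) ≤ sm (tt w A c ω v) m := by
  obtain ⟨ω, hω⟩ : ∃ ω : V → Bool, ∀ u, ω u = true ↔ ω0 u = true ∧ dg w A c0 ω0 u ≤ 1 / 25 :=
    ⟨fun u => decide (ω0 u = true ∧ dg w A c0 ω0 u ≤ 1 / 25), fun u => decide_eq_true_iff⟩
  choose a _ ha using fun u => exists_min_image univ (sm (tt w A c0 ω u)) univ_nonempty
  obtain ⟨c, c1, c2⟩ : ∃ c : V → Fin 5, (∀ u, ω u = true → c u = c0 u) ∧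
      ∀ u, ω u = false → c u = a u :=
    ⟨fun u => bif ω u then c0 u else a u, fun u hu => by simp [hu], fun u hu => by simp [hu]⟩
  have eX : X c ω = X c0 ω := by
    funext j u
    unfold X
    cases hu : ω u
    · simp
    · rw [c1 u hu]
  have ed : ∀ s t, ω s = true → r (ω t) * de A c s t ≤ r (ω0 t) * de A c0 s t := fun s t hs => by
    cases ht : ω t
    · simpa using mul_nonneg (r_nn _) (de_nn _ _)
    · unfold de D; rw [c1 s hs, c1 t ht, ((hω t).1 ht).1]
  have g0 : ∀ u, 0 ≤ dg w A c0 ω0 u := fun u =>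
    I_nn hw.nn fun t => mul_nonneg (r_nn _) (de_nn _ _)
  have eF : I2 w (dw A c0 ω0) = I w fun u => r (ω0 u) * dg w A c0 ω0 u :=
    I_congr fun u => by unfold dg dw; simp only [mul_assoc, I_mul]
  have pt : ∀ u, r (ω0 u) ≤ r (ω u) + 25 * (r (ω0 u) * dg w A c0 ω0 u) := fun u => by
    have := g0 u
    cases h0 : ω0 u
    · simp [r_nn]
    · cases h1 : ω u
      · have : 1 / 25 < dg w A c0 ω0 u := not_le.1 fun h2 => by
          rw [(hω u).2 ⟨h0, h2⟩] at h1; exact absurd h1 (by simp)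
        simp only [r_true, r_false]; linarith
      · simp only [r_true]; linarith
  have F0 : 0 ≤ I2 w (dw A c0 ω0) := I2_nn hw.nn dw_nn
  have x0 : 0 ≤ I w fun u => r (!ω0 u) := I_nn hw.nn fun u => r_nn _
  have x1 : (I w fun u => r (ω0 u)) = 1 - I w fun u => r (!ω0 u) := by
    simp only [r_not, I_sub, hw.const]; ring
  have μ : (I w fun u => r (!ω u)) ≤
      I w fun u => r (!ω0 u) + 25 * (r (ω0 u) * dg w A c0 ω0 u) :=
    I_mono hw.nn fun u => by simp only [r_not]; linarith [pt u]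
  have lo : ∀ j, I w (X c0 ω0 j) ≤
      I w fun u => X c0 ω j u + 25 * (r (ω0 u) * dg w A c0 ω0 u) := fun j =>
    I_mono hw.nn fun u => by
      have := mul_nonneg (r_nn (ω0 u)) (g0 u)
      have := pt u
      unfold X
      cases c0 u == j <;> simp only [r_true, r_false] <;> linarith
  have hi : ∀ j, (I w fun u => r (c u == j)) ≤ I w fun u => X c0 ω0 j u + r (!ω u) := fun j =>
    I_mono hw.nn fun u => by
      unfold X
      cases hu : ω u
      · simpa using (r_le _).trans (le_add_of_nonneg_left (mul_nonneg (r_nn _) (r_nn _)))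
      · simp [c1 u hu, ((hω u).1 hu).1]
  simp only [I_add, I_mul, ← eF] at μ lo hi
  have z := numz fun i => I w (X c0 ω0 i)
  have S0 := sq_sum_le_card_mul_sum_sq (s := univ) (f := fun i => I w (X c0 ω0 i))
  rw [obj_sum hw] at h
  simp only [sum_X, card_univ, Fintype.card_fin, Nat.cast_ofNat] at z S0
  have hF : I2 w (dw A c ω) ≤ I2 w (dw A c0 ω0) := I2_mono hw.nn fun s t => by
    unfold dw
    cases hs : ω s
    · simpa [dw] using dw_nn (A := A) (c := c0) (ω := ω0) s t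
    · rw [((hω s).1 hs).1, mul_assoc, mul_assoc]
      exact mul_le_mul_of_nonneg_left (ed s t hs) (r_nn _)
  refine ⟨ω, c, fun j => ?_, fun j => ?_, by linarith, by linarith, fun v hv => ?_⟩
  · have := (abs_le.1 (z j)).1
    rw [eX]
    linarith [lo j]
  · have := (abs_le.1 (z j)).2
    linarith [hi j]
  · have hv0 : ω v = false := by
      by_contra hc
      have h1 : ω v = true := by simpa using hc
      have h2 : dg w A c ω v ≤ dg w A c0 ω0 v := I_mono hw.nn fun t => ed v t h1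
      linarith [((hω v).1 h1).2]
    have et : tt w A c ω v = tt w A c0 ω v := by
      funext j; unfold tt al; rw [eX]
    exact ⟨hv0, fun m => by rw [et, c2 v hv0]; exact ha v m (mem_univ _)⟩

theorem clean_le {q u : ℝ} (q0 : 2 / 5 ≤ q) (q1 : q ≤ 1 / 2) (hu : ∀ v ∈ RS q, v ≤ u)
    (hA : Gr A) (hw : Pr w) {c : V → Fin 5} (h : ∀ s t, D A c s t = false)
    (hl : ∀ j, 19 / 100 ≤ I w (fun u => r (c u == j)))
    (hx : ∀ j, I w (fun u => r (c u == j)) ≤ 21 / 100) :
    12 * NW w A ≤ u + 1 / 200 * |PW w A - q| := by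
  obtain ⟨x, ex⟩ : ∃ x : Fin 5 → ℝ, ∀ j, I w (fun u => r (c u == j)) = x j := ⟨_, fun _ => rfl⟩
  have x1 : ∑ i, x i = 1 := by
    have := sum_X c (fun _ => true) w
    simp only [r_true, hw.const] at this
    rw [← this]
    exact sum_congr rfl fun i _ => (ex i).symm.trans (I_congr fun u => (one_mul _).symm)
  have hN := NW_clean h w
  have hP := PW_clean h w
  simp only [ex] at hN hP hl hx
  have p : ∀ j, 0 < x j := fun j => lt_of_lt_of_le (by norm_num) (hl j)
  have pw : ∀ i, Pr fun u => (x i)⁻¹ * (w u * r (c u == i)) := fun i =>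
    ⟨fun u => mul_nonneg (inv_nonneg.2 (p i).le) (mul_nonneg (hw.nn u) (r_nn _)), by
      rw [← mul_sum]; exact (congrArg _ (ex i)).trans (inv_mul_cancel₀ (p i).ne')⟩
  have ew : ∀ i, (fun u => w u * r (c u == i)) =
      fun u => x i * ((x i)⁻¹ * (w u * r (c u == i))) := fun i => by
    funext u; rw [mul_inv_cancel_left₀ (p i).ne']
  have m := RS_move q0 q1 hu hl hx x1 (P := fun i => PW (fun u => (x i)⁻¹ * (w u * r (c u == i))) A)
    fun i => ⟨PW_nn (pw i).nn A, PW_le (pw i) A⟩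
  have e1 : ∑ i, PW (fun u => w u * r (c u == i)) A =
      ∑ i, x i ^ 2 * PW (fun u => (x i)⁻¹ * (w u * r (c u == i))) A :=
    sum_congr rfl fun i _ => by rw [← PW_sc, ← ew]
  have e2 : ∑ i, 12 * NW (fun u => w u * r (c u == i)) A ≤
      ∑ i, x i ^ 5 * gmax (PW (fun u => (x i)⁻¹ * (w u * r (c u == i))) A) :=
    sum_le_sum fun i _ => by
      have := mul_le_mul_of_nonneg_left (le_gmax hA (pw i).nn (pw i).one.le) (pow_pos (p i) 5).le
      rw [ew, NW_sc]; linarith
  rw [← e1, ← hP] at m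
  rw [← mul_sum] at e2
  linarith

theorem stab_le {q u : ℝ} (q0 : 2 / 5 ≤ q) (q1 : q ≤ 1 / 2) (hu : ∀ v ∈ RS q, v ≤ u)
    (hA : Gr A) (hw : Pr w) {ω0 : V → Bool} {c0 : V → Fin 5} (h : I2 w (objR A ω0 c0) ≤ 1 / 320) :
    12 * NW w A ≤ u + 1 / 200 * |PW w A - q| := by
  classical
  obtain ⟨ω, c, hl, hx, hμ, hF, hm⟩ := exists_good hw h
  have s := repair hA hw hl hx hμ hF hm
  have hD : ∀ s t, D (rep (fun _ => true) A c) c s t = false := fun s t => by simp [D_rep]
  have k := clean_le q0 q1 hu (hA.rep _ c) hw hD (fun j => (hl j).trans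
    (I_mono hw.nn fun u => mul_le_of_le_one_left (r_nn _) (r_le _))) hx
  have z : I2 w (de (rep (fun _ => true) A c) c) = 0 := by
    unfold I2 de; simp only [hD, r_false, I_zero]
  have pt : ∀ s t, |r (rep (fun _ => true) A c s t) - r (A s t)| ≤ de A c s t := fun s t => by
    unfold de
    cases e : D A c s t
    · rw [rep_clean _ e]; simp
    · cases rep (fun _ => true) A c s t <;> cases A s t <;> simp
  have d1 := I2_mono hw.nn fun s t => (abs_le.1 (pt s t)).2
  have d2 := I2_mono hw.nn fun s t => (abs_sub_le_iff.1 (pt s t)).2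
  rw [I2_sub] at d1 d2
  have d3 : |PW w (rep (fun _ => true) A c) - PW w A| ≤ I2 w (de A c) :=
    abs_sub_le_iff.2 ⟨d1, d2⟩
  have d4 := abs_sub_le (PW w (rep (fun _ => true) A c)) (PW w A) q
  unfold Psi at s
  linarith

end Pool.Agent.Lib.MP_49b2f4_co.N7
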