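import Pool.Agent.Lib.MP_49b2f4_co.N7.ET

namespace Pool.Agent.Lib.MP_49b2f4_co.N7

set_option maxRecDepth 100000

theorem Eb0_0 : allT (.lf (nat_lit 0) Ev0 (nat_lit 0) []) (chkA EL3 EL5 (ob1 Ey 41940418560)) = true := by decide +kernel
theorem Eb0_1 : allT (.lf (nat_lit 1108169199648) Ev1108169199648 (nat_lit 0) []) (chkA EL3 EL5 (ob1 Ey 41940418560)) = true := by decide +kernel
theorem Eb0_2 : allT (.lf (nat_lit 3320111966256) Ev3320111966256 (nat_lit 0) []) (chkA EL3 EL5 (ob1 Ey 41940418560)) = true := by decide +kernel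
theorem Eb0_3 : allT (.lf (nat_lit 3350343983136) Ev3350343983136 (nat_lit 0) []) (chkA EL3 EL5 (ob1 Ey 41940418560)) = true := by decide +kernel
theorem Eb0_4 : allT (.lf (nat_lit 3350411616546) Ev3350411616546 (nat_lit 0) []) (chkA EL3 EL5 (ob1 Ey 41940418560)) = true := by decide +kernel
theorem Eb0_5 : allT (.lf (nat_lit 4432676782080) Ev4432676782080 (nat_lit 0) []) (chkA EL3 EL5 (ob1 Ey 41940418560)) = true := by decide +kernel
theorem Eb0_6 : allT (.lf (nat_lit 6640357617664) Ev6640357617664 (nat_lit 0) []) (chkA EL3 EL5 (ob1 Ey 41940418560)) = true := by decide +kernel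
theorem Eb0_7 : allT (.lf (nat_lit 7726767290424) Ev7726767290424 (nat_lit 0) []) (chkA EL3 EL5 (ob1 Ey 41940418560)) = true := by decide +kernel
theorem Eb0_8 : allT (.lf (nat_lit 7744181122104) Ev7744181122104 (nat_lit 0) []) (chkA EL3 EL5 (ob1 Ey 41940418560)) = true := by decide +kernel
theorem Eb0_9 : allT (.lf (nat_lit 13246487592960) Ev13246487592960 (nat_lit 0) []) (chkA EL3 EL5 (ob1 Ey 41940418560)) = true := by decide +kernel
theorem Eb0_10 : allT (.lf (nat_lit 13246487593218) Ev13246487593218 (nat_lit 0) []) (chkA EL3 EL5 (ob1 Ey 41940418560)) = true := by decide +kernel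
theorem Eb0_11 : allT (.lf (nat_lit 14350327876656) Ev14350327876656 (nat_lit 0) []) (chkA EL3 EL5 (ob1 Ey 41940418560)) = true := by decide +kernel
theorem Eb0_12 : allT (.lf (nat_lit 14354589159456) Ev14354589159456 (nat_lit 0) []) (chkA EL3 EL5 (ob1 Ey 41940418560)) = true := by decide +kernel
theorem Ea0 : allT Et0 (chkA EL3 EL5 (ob1 Ey 41940418560)) = true := (allT_nd (allT_nd (allT_nd Eb0_0 (allT_nd Eb0_1 Eb0_2)) (allT_nd Eb0_3 (allT_nd Eb0_4 Eb0_5))) (allT_nd (allT_nd Eb0_6 (allT_nd Eb0_7 Eb0_8)) (allT_nd (allT_nd Eb0_9 Eb0_10) (allT_nd Eb0_11 Eb0_12))))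

end Pool.Agent.Lib.MP_49b2f4_co.N7
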