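import Pool.Agent.Lib.MP_49b2f4_co.N7.EA0

namespace Pool.Agent.Lib.MP_49b2f4_co.N7

set_option maxRecDepth 100000

theorem Eb1_0 : allT (.lf (nat_lit 14354589159714) Ev14354589159714 (nat_lit 0) []) (chkA EL3 EL5 (ob1 Ey 41940418560)) = true := by decide +kernel
theorem Eb1_1 : allT (.lf (nat_lit 14354606068776) Ev14354606068776 (nat_lit 0) []) (chkA EL3 EL5 (ob1 Ey 41940418560)) = true := by decide +kernel
theorem Eb1_2 : allT (.lf (nat_lit 15454100795392) Ev15454100795392 (nat_lit 0) []) (chkA EL3 EL5 (ob1 Ey 41940418560)) = true := by decide +kernel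
theorem Eb1_3 : allT (.lf (nat_lit 16553612423200) Ev16553612423200 (nat_lit 0) []) (chkA EL3 EL5 (ob1 Ey 41940418560)) = true := by decide +kernel
theorem Eb1_4 : allT (.lf (nat_lit 16557907390512) Ev16557907390512 (nat_lit 0) []) (chkA EL3 EL5 (ob1 Ey 41940418560)) = true := by decide +kernel
theorem Eb1_5 : allT (.lf (nat_lit 16557924299832) Ev16557924299832 (nat_lit 0) []) (chkA EL3 EL5 (ob1 Ey 41940418560)) = true := by decide +kernel
theorem Eb1_6 : allT (.lf (nat_lit 16557957921852) Ev16557957921852 (nat_lit 0) []) (chkA EL3 EL5 (ob1 Ey 41940418560)) = true := by decide +kernel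
theorem Eb1_7 : allT (.lf (nat_lit 16557975023664) Ev16557975023664 (nat_lit 0) []) (chkA EL3 EL5 (ob1 Ey 41940418560)) = true := by decide +kernel
theorem Eb1_8 : allT (.lf (nat_lit 17729624997888) Ev17729624997888 (nat_lit 0) []) (chkA EL3 EL5 (ob1 Ey 41940418560)) = true := by decide +kernel
theorem Eb1_9 : allT (.lf (nat_lit 21079968981024) Ev21079968981024 (nat_lit 0) []) (chkA EL3 EL5 (ob1 Ey 41940418560)) = true := by decide +kernel
theorem Eb1_10 : allT (.lf (nat_lit 21079985890344) Ev21079985890344 (nat_lit 0) []) (chkA EL3 EL5 (ob1 Ey 41940418560)) = true := by decide +kernel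
theorem Eb1_11 : allT (.lf (nat_lit 21080036614434) Ev21080036614434 (nat_lit 0) []) (chkA EL3 EL5 (ob1 Ey 41940418560)) = true := by decide +kernel
theorem Eb1_12 : allT (.lf (nat_lit 22162301779968) Ev22162301779968 (nat_lit 0) []) (chkA EL3 EL5 (ob1 Ey 41940418560)) = true := by decide +kernel
theorem Ea1 : allT Et1 (chkA EL3 EL5 (ob1 Ey 41940418560)) = true := (allT_nd (allT_nd (allT_nd Eb1_0 (allT_nd Eb1_1 Eb1_2)) (allT_nd Eb1_3 (allT_nd Eb1_4 Eb1_5))) (allT_nd (allT_nd Eb1_6 (allT_nd Eb1_7 Eb1_8)) (allT_nd (allT_nd Eb1_9 Eb1_10) (allT_nd Eb1_11 Eb1_12))))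

end Pool.Agent.Lib.MP_49b2f4_co.N7
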