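import Pool.Agent.Lib.MP_49b2f4_co.N7.EA9

namespace Pool.Agent.Lib.MP_49b2f4_co.N7

set_option maxRecDepth 100000

theorem Eb10_0 : allT (.lf (nat_lit 34274647482658) Ev34274647482658 (nat_lit 0) []) (chkA EL3 EL5 (ob1 Ey 41940418560)) = true := by decide +kernel
theorem Eb10_1 : allT (.lf (nat_lit 34274664391720) Ev34274664391720 (nat_lit 0) []) (chkA EL3 EL5 (ob1 Ey 41940418560)) = true := by decide +kernel
theorem Eb10_2 : allT (.lf (nat_lit 34274715115552) Ev34274715115552 (nat_lit 0) []) (chkA EL3 EL5 (ob1 Ey 41940418560)) = true := by decide +kernel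
theorem Eb10_3 : allT (.lf (nat_lit 34274715115810) Ev34274715115810 (nat_lit 0) []) (chkA EL3 EL5 (ob1 Ey 41940418560)) = true := by decide +kernel
theorem Eb10_4 : allT (.lf (nat_lit 34278976138288) Ev34278976138288 (nat_lit 0) []) (chkA EL3 EL5 (ob1 Ey 41940418560)) = true := by decide +kernel
theorem Eb10_5 : allT (.lf (nat_lit 34279043639344) Ev34279043639344 (nat_lit 0) []) (chkA EL3 EL5 (ob1 Ey 41940418560)) = true := by decide +kernel
theorem Eb10_6 : allT (.lf (nat_lit 34279043639602) Ev34279043639602 (nat_lit 0) []) (chkA EL3 EL5 (ob1 Ey 41940418560)) = true := by decide +kernel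
theorem Eb10_7 : allT (.lf (nat_lit 34283237421088) Ev34283237421088 (nat_lit 0) []) (chkA EL3 EL5 (ob1 Ey 41940418560)) = true := by decide +kernel
theorem Eb10_8 : allT (.lf (nat_lit 34283254198312) Ev34283254198312 (nat_lit 0) []) (chkA EL3 EL5 (ob1 Ey 41940418560)) = true := by decide +kernel
theorem Eb10_9 : allT (.lf (nat_lit 34283305054240) Ev34283305054240 (nat_lit 0) []) (chkA EL3 EL5 (ob1 Ey 41940418560)) = true := by decide +kernel
theorem Eb10_10 : allT (.lf (nat_lit 34283305054498) Ev34283305054498 (nat_lit 0) []) (chkA EL3 EL5 (ob1 Ey 41940418560)) = true := by decide +kernel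
theorem Eb10_11 : allT (.lf (nat_lit 34283338610720) Ev34283338610720 (nat_lit 0) []) (chkA EL3 EL5 (ob1 Ey 41940418560)) = true := by decide +kernel
theorem Eb10_12 : allT (.lf (nat_lit 34283338676260) Ev34283338676260 (nat_lit 0) []) (chkA EL3 EL5 (ob1 Ey 41940418560)) = true := by decide +kernel
theorem Ea10 : allT Et10 (chkA EL3 EL5 (ob1 Ey 41940418560)) = true := (allT_nd (allT_nd (allT_nd Eb10_0 (allT_nd Eb10_1 Eb10_2)) (allT_nd Eb10_3 (allT_nd Eb10_4 Eb10_5))) (allT_nd (allT_nd Eb10_6 (allT_nd Eb10_7 Eb10_8)) (allT_nd (allT_nd Eb10_9 Eb10_10) (allT_nd Eb10_11 Eb10_12))))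

end Pool.Agent.Lib.MP_49b2f4_co.N7
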