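import Pool.Agent.Lib.MP_49b2f4_co.N7.EA10

namespace Pool.Agent.Lib.MP_49b2f4_co.N7

set_option maxRecDepth 100000

theorem Eb11_0 : allT (.lf (nat_lit 34283338676518) Ev34283338676518 (nat_lit 0) []) (chkA EL3 EL5 (ob1 Ey 41940418560)) = true := by decide +kernel
theorem Eb11_1 : allT (.lf (nat_lit 34283338742816) Ev34283338742816 (nat_lit 0) []) (chkA EL3 EL5 (ob1 Ey 41940418560)) = true := by decide +kernel
theorem Eb11_2 : allT (.lf (nat_lit 34287532388400) Ev34287532388400 (nat_lit 0) []) (chkA EL3 EL5 (ob1 Ey 41940418560)) = true := by decide +kernel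
theorem Eb11_3 : allT (.lf (nat_lit 34287549297720) Ev34287549297720 (nat_lit 0) []) (chkA EL3 EL5 (ob1 Ey 41940418560)) = true := by decide +kernel
theorem Eb11_4 : allT (.lf (nat_lit 34287582919740) Ev34287582919740 (nat_lit 0) []) (chkA EL3 EL5 (ob1 Ey 41940418560)) = true := by decide +kernel
theorem Eb11_5 : allT (.lf (nat_lit 34287600021552) Ev34287600021552 (nat_lit 0) []) (chkA EL3 EL5 (ob1 Ey 41940418560)) = true := by decide +kernel
theorem Eb11_6 : allT (.lf (nat_lit 34287616930872) Ev34287616930872 (nat_lit 0) []) (chkA EL3 EL5 (ob1 Ey 41940418560)) = true := by decide +kernel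
theorem Eb11_7 : allT (.lf (nat_lit 34287633578032) Ev34287633578032 (nat_lit 0) []) (chkA EL3 EL5 (ob1 Ey 41940418560)) = true := by decide +kernel
theorem Eb11_8 : allT (.lf (nat_lit 34287633710128) Ev34287633710128 (nat_lit 0) []) (chkA EL3 EL5 (ob1 Ey 41940418560)) = true := by decide +kernel
theorem Eb11_9 : allT (.lf (nat_lit 34287650355256) Ev34287650355256 (nat_lit 0) []) (chkA EL3 EL5 (ob1 Ey 41940418560)) = true := by decide +kernel
theorem Eb11_10 : allT (.lf (nat_lit 34287650487352) Ev34287650487352 (nat_lit 0) []) (chkA EL3 EL5 (ob1 Ey 41940418560)) = true := by decide +kernel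
theorem Eb11_11 : allT (.lf (nat_lit 34287650552892) Ev34287650552892 (nat_lit 0) []) (chkA EL3 EL5 (ob1 Ey 41940418560)) = true := by decide +kernel
theorem Eb11_12 : allT (.lf (nat_lit 34287650553150) Ev34287650553150 (nat_lit 0) []) (chkA EL3 EL5 (ob1 Ey 41940418560)) = true := by decide +kernel
theorem Ea11 : allT Et11 (chkA EL3 EL5 (ob1 Ey 41940418560)) = true := (allT_nd (allT_nd (allT_nd Eb11_0 (allT_nd Eb11_1 Eb11_2)) (allT_nd Eb11_3 (allT_nd Eb11_4 Eb11_5))) (allT_nd (allT_nd Eb11_6 (allT_nd Eb11_7 Eb11_8)) (allT_nd (allT_nd Eb11_9 Eb11_10) (allT_nd Eb11_11 Eb11_12))))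

end Pool.Agent.Lib.MP_49b2f4_co.N7
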