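import Pool.Agent.Lib.MP_49b2f4_co.N7.EA1

namespace Pool.Agent.Lib.MP_49b2f4_co.N7

set_option maxRecDepth 100000

theorem Eb2_0 : allT (.lf (nat_lit 22162301780226) Ev22162301780226 (nat_lit 0) []) (chkA EL3 EL5 (ob1 Ey 41940418560)) = true := by decide +kernel
theorem Eb2_1 : allT (.lf (nat_lit 22162318689288) Ev22162318689288 (nat_lit 0) []) (chkA EL3 EL5 (ob1 Ey 41940418560)) = true := by decide +kernel
theorem Eb2_2 : allT (.lf (nat_lit 23270470979616) Ev23270470979616 (nat_lit 0) []) (chkA EL3 EL5 (ob1 Ey 41940418560)) = true := by decide +kernel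
theorem Eb2_3 : allT (.lf (nat_lit 24361341820936) Ev24361341820936 (nat_lit 0) []) (chkA EL3 EL5 (ob1 Ey 41940418560)) = true := by decide +kernel
theorem Eb2_4 : allT (.lf (nat_lit 25478067922984) Ev25478067922984 (nat_lit 0) []) (chkA EL3 EL5 (ob1 Ey 41940418560)) = true := by decide +kernel
theorem Eb2_5 : allT (.lf (nat_lit 26526254891008) Ev26526254891008 (nat_lit 0) []) (chkA EL3 EL5 (ob1 Ey 41940418560)) = true := by decide +kernel
theorem Eb2_6 : allT (.lf (nat_lit 26526255023104) Ev26526255023104 (nat_lit 0) []) (chkA EL3 EL5 (ob1 Ey 41940418560)) = true := by decide +kernel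
theorem Eb2_7 : allT (.lf (nat_lit 26534912462848) Ev26534912462848 (nat_lit 0) []) (chkA EL3 EL5 (ob1 Ey 41940418560)) = true := by decide +kernel
theorem Eb2_8 : allT (.lf (nat_lit 26560883064832) Ev26560883064832 (nat_lit 0) []) (chkA EL3 EL5 (ob1 Ey 41940418560)) = true := by decide +kernel
theorem Eb2_9 : allT (.lf (nat_lit 26560883196928) Ev26560883196928 (nat_lit 0) []) (chkA EL3 EL5 (ob1 Ey 41940418560)) = true := by decide +kernel
theorem Eb2_10 : allT (.lf (nat_lit 26560883262468) Ev26560883262468 (nat_lit 0) []) (chkA EL3 EL5 (ob1 Ey 41940418560)) = true := by decide +kernel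
theorem Eb2_11 : allT (.lf (nat_lit 27634424222752) Ev27634424222752 (nat_lit 0) []) (chkA EL3 EL5 (ob1 Ey 41940418560)) = true := by decide +kernel
theorem Eb2_12 : allT (.lf (nat_lit 27651638564896) Ev27651638564896 (nat_lit 0) []) (chkA EL3 EL5 (ob1 Ey 41940418560)) = true := by decide +kernel
theorem Ea2 : allT Et2 (chkA EL3 EL5 (ob1 Ey 41940418560)) = true := (allT_nd (allT_nd (allT_nd Eb2_0 (allT_nd Eb2_1 Eb2_2)) (allT_nd Eb2_3 (allT_nd Eb2_4 Eb2_5))) (allT_nd (allT_nd Eb2_6 (allT_nd Eb2_7 Eb2_8)) (allT_nd (allT_nd Eb2_9 Eb2_10) (allT_nd Eb2_11 Eb2_12))))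

end Pool.Agent.Lib.MP_49b2f4_co.N7
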