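import Pool.Agent.Lib.MP_49b2f4_co.N7.EA2

namespace Pool.Agent.Lib.MP_49b2f4_co.N7

set_option maxRecDepth 100000

theorem Eb3_0 : allT (.lf (nat_lit 27669052264480) Ev27669052264480 (nat_lit 0) []) (chkA EL3 EL5 (ob1 Ey 41940418560)) = true := by decide +kernel
theorem Eb3_1 : allT (.lf (nat_lit 28742526705664) Ev28742526705664 (nat_lit 0) []) (chkA EL3 EL5 (ob1 Ey 41940418560)) = true := by decide +kernel
theorem Eb3_2 : allT (.lf (nat_lit 28777087246336) Ev28777087246336 (nat_lit 0) []) (chkA EL3 EL5 (ob1 Ey 41940418560)) = true := by decide +kernel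
theorem Eb3_3 : allT (.lf (nat_lit 28777087312134) Ev28777087312134 (nat_lit 0) []) (chkA EL3 EL5 (ob1 Ey 41940418560)) = true := by decide +kernel
theorem Eb3_4 : allT (.lf (nat_lit 28777087378432) Ev28777087378432 (nat_lit 0) []) (chkA EL3 EL5 (ob1 Ey 41940418560)) = true := by decide +kernel
theorem Eb3_5 : allT (.lf (nat_lit 28777104155656) Ev28777104155656 (nat_lit 0) []) (chkA EL3 EL5 (ob1 Ey 41940418560)) = true := by decide +kernel
theorem Eb3_6 : allT (.lf (nat_lit 29842038333472) Ev29842038333472 (nat_lit 0) []) (chkA EL3 EL5 (ob1 Ey 41940418560)) = true := by decide +kernel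
theorem Eb3_7 : allT (.lf (nat_lit 29876666507296) Ev29876666507296 (nat_lit 0) []) (chkA EL3 EL5 (ob1 Ey 41940418560)) = true := by decide +kernel
theorem Eb3_8 : allT (.lf (nat_lit 29876666639392) Ev29876666639392 (nat_lit 0) []) (chkA EL3 EL5 (ob1 Ey 41940418560)) = true := by decide +kernel
theorem Eb3_9 : allT (.lf (nat_lit 29880995031088) Ev29880995031088 (nat_lit 0) []) (chkA EL3 EL5 (ob1 Ey 41940418560)) = true := by decide +kernel
theorem Eb3_10 : allT (.lf (nat_lit 30924303499264) Ev30924303499264 (nat_lit 0) []) (chkA EL3 EL5 (ob1 Ey 41940418560)) = true := by decide +kernel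
theorem Eb3_11 : allT (.lf (nat_lit 30924303499522) Ev30924303499522 (nat_lit 0) []) (chkA EL3 EL5 (ob1 Ey 41940418560)) = true := by decide +kernel
theorem Eb3_12 : allT (.lf (nat_lit 30928632023056) Ev30928632023056 (nat_lit 0) []) (chkA EL3 EL5 (ob1 Ey 41940418560)) = true := by decide +kernel
theorem Ea3 : allT Et3 (chkA EL3 EL5 (ob1 Ey 41940418560)) = true := (allT_nd (allT_nd (allT_nd Eb3_0 (allT_nd Eb3_1 Eb3_2)) (allT_nd Eb3_3 (allT_nd Eb3_4 Eb3_5))) (allT_nd (allT_nd Eb3_6 (allT_nd Eb3_7 Eb3_8)) (allT_nd (allT_nd Eb3_9 Eb3_10) (allT_nd Eb3_11 Eb3_12))))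

end Pool.Agent.Lib.MP_49b2f4_co.N7
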