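import Pool.Agent.Lib.MP_49b2f4_co.N7.EA3

namespace Pool.Agent.Lib.MP_49b2f4_co.N7

set_option maxRecDepth 100000

theorem Eb4_0 : allT (.lf (nat_lit 30932893437952) Ev30932893437952 (nat_lit 0) []) (chkA EL3 EL5 (ob1 Ey 41940418560)) = true := by decide +kernel
theorem Eb4_1 : allT (.lf (nat_lit 30932927059972) Ev30932927059972 (nat_lit 0) []) (chkA EL3 EL5 (ob1 Ey 41940418560)) = true := by decide +kernel
theorem Eb4_2 : allT (.lf (nat_lit 30937256038416) Ev30937256038416 (nat_lit 0) []) (chkA EL3 EL5 (ob1 Ey 41940418560)) = true := by decide +kernel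
theorem Eb4_3 : allT (.lf (nat_lit 30950124689416) Ev30950124689416 (nat_lit 0) []) (chkA EL3 EL5 (ob1 Ey 41940418560)) = true := by decide +kernel
theorem Eb4_4 : allT (.lf (nat_lit 30958931673088) Ev30958931673088 (nat_lit 0) []) (chkA EL3 EL5 (ob1 Ey 41940418560)) = true := by decide +kernel
theorem Eb4_5 : allT (.lf (nat_lit 30958931673346) Ev30958931673346 (nat_lit 0) []) (chkA EL3 EL5 (ob1 Ey 41940418560)) = true := by decide +kernel
theorem Eb4_6 : allT (.lf (nat_lit 30958931805184) Ev30958931805184 (nat_lit 0) []) (chkA EL3 EL5 (ob1 Ey 41940418560)) = true := by decide +kernel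
theorem Eb4_7 : allT (.lf (nat_lit 30958931805442) Ev30958931805442 (nat_lit 0) []) (chkA EL3 EL5 (ob1 Ey 41940418560)) = true := by decide +kernel
theorem Eb4_8 : allT (.lf (nat_lit 30963260394516) Ev30963260394516 (nat_lit 0) []) (chkA EL3 EL5 (ob1 Ey 41940418560)) = true := by decide +kernel
theorem Eb4_9 : allT (.lf (nat_lit 30967521677316) Ev30967521677316 (nat_lit 0) []) (chkA EL3 EL5 (ob1 Ey 41940418560)) = true := by decide +kernel
theorem Eb4_10 : allT (.lf (nat_lit 30976112590848) Ev30976112590848 (nat_lit 0) []) (chkA EL3 EL5 (ob1 Ey 41940418560)) = true := by decide +kernel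
theorem Eb4_11 : allT (.lf (nat_lit 30976112591106) Ev30976112591106 (nat_lit 0) []) (chkA EL3 EL5 (ob1 Ey 41940418560)) = true := by decide +kernel
theorem Eb4_12 : allT (.lf (nat_lit 30976129500168) Ev30976129500168 (nat_lit 0) []) (chkA EL3 EL5 (ob1 Ey 41940418560)) = true := by decide +kernel
theorem Ea4 : allT Et4 (chkA EL3 EL5 (ob1 Ey 41940418560)) = true := (allT_nd (allT_nd (allT_nd Eb4_0 (allT_nd Eb4_1 Eb4_2)) (allT_nd Eb4_3 (allT_nd Eb4_4 Eb4_5))) (allT_nd (allT_nd Eb4_6 (allT_nd Eb4_7 Eb4_8)) (allT_nd (allT_nd Eb4_9 Eb4_10) (allT_nd Eb4_11 Eb4_12))))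

end Pool.Agent.Lib.MP_49b2f4_co.N7
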