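import Pool.Agent.Lib.MP_49b2f4_co.N7.EA4

namespace Pool.Agent.Lib.MP_49b2f4_co.N7

set_option maxRecDepth 100000

theorem Eb5_0 : allT (.lf (nat_lit 30976129500426) Ev30976129500426 (nat_lit 0) []) (chkA EL3 EL5 (ob1 Ey 41940418560)) = true := by decide +kernel
theorem Eb5_1 : allT (.lf (nat_lit 30976146147328) Ev30976146147328 (nat_lit 0) []) (chkA EL3 EL5 (ob1 Ey 41940418560)) = true := by decide +kernel
theorem Eb5_2 : allT (.lf (nat_lit 30976146147586) Ev30976146147586 (nat_lit 0) []) (chkA EL3 EL5 (ob1 Ey 41940418560)) = true := by decide +kernel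
theorem Eb5_3 : allT (.lf (nat_lit 30976146279424) Ev30976146279424 (nat_lit 0) []) (chkA EL3 EL5 (ob1 Ey 41940418560)) = true := by decide +kernel
theorem Eb5_4 : allT (.lf (nat_lit 30976146279682) Ev30976146279682 (nat_lit 0) []) (chkA EL3 EL5 (ob1 Ey 41940418560)) = true := by decide +kernel
theorem Eb5_5 : allT (.lf (nat_lit 30976180224000) Ev30976180224000 (nat_lit 0) []) (chkA EL3 EL5 (ob1 Ey 41940418560)) = true := by decide +kernel
theorem Eb5_6 : allT (.lf (nat_lit 30976180224258) Ev30976180224258 (nat_lit 0) []) (chkA EL3 EL5 (ob1 Ey 41940418560)) = true := by decide +kernel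
theorem Eb5_7 : allT (.lf (nat_lit 32067033371680) Ev32067033371680 (nat_lit 0) []) (chkA EL3 EL5 (ob1 Ey 41940418560)) = true := by decide +kernel
theorem Eb5_8 : allT (.lf (nat_lit 32067066993700) Ev32067066993700 (nat_lit 0) []) (chkA EL3 EL5 (ob1 Ey 41940418560)) = true := by decide +kernel
theorem Eb5_9 : allT (.lf (nat_lit 32075657907232) Ev32075657907232 (nat_lit 0) []) (chkA EL3 EL5 (ob1 Ey 41940418560)) = true := by decide +kernel
theorem Eb5_10 : allT (.lf (nat_lit 32075657907490) Ev32075657907490 (nat_lit 0) []) (chkA EL3 EL5 (ob1 Ey 41940418560)) = true := by decide +kernel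
theorem Eb5_11 : allT (.lf (nat_lit 32080020507696) Ev32080020507696 (nat_lit 0) []) (chkA EL3 EL5 (ob1 Ey 41940418560)) = true := by decide +kernel
theorem Eb5_12 : allT (.lf (nat_lit 32080020507954) Ev32080020507954 (nat_lit 0) []) (chkA EL3 EL5 (ob1 Ey 41940418560)) = true := by decide +kernel
theorem Ea5 : allT Et5 (chkA EL3 EL5 (ob1 Ey 41940418560)) = true := (allT_nd (allT_nd (allT_nd Eb5_0 (allT_nd Eb5_1 Eb5_2)) (allT_nd Eb5_3 (allT_nd Eb5_4 Eb5_5))) (allT_nd (allT_nd Eb5_6 (allT_nd Eb5_7 Eb5_8)) (allT_nd (allT_nd Eb5_9 Eb5_10) (allT_nd Eb5_11 Eb5_12))))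

end Pool.Agent.Lib.MP_49b2f4_co.N7
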