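import Pool.Agent.Lib.MP_49b2f4_co.N7.ET

namespace Pool.Agent.Lib.MP_49b2f4_co.N7

set_option maxRecDepth 100000

theorem Eb6_0 : allT (.lf (nat_lit 32084214157344) Ev32084214157344 (nat_lit 0) []) (chkA EL3 EL5 (ob1 Ey 41940418560)) = true := by decide +kernel
theorem Eb6_1 : allT (.lf (nat_lit 32084214157602) Ev32084214157602 (nat_lit 0) []) (chkA EL3 EL5 (ob1 Ey 41940418560)) = true := by decide +kernel
theorem Eb6_2 : allT (.lf (nat_lit 32084231066664) Ev32084231066664 (nat_lit 0) []) (chkA EL3 EL5 (ob1 Ey 41940418560)) = true := by decide +kernel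
theorem Eb6_3 : allT (.lf (nat_lit 32084231066922) Ev32084231066922 (nat_lit 0) []) (chkA EL3 EL5 (ob1 Ey 41940418560)) = true := by decide +kernel
theorem Eb6_4 : allT (.lf (nat_lit 32084264688684) Ev32084264688684 (nat_lit 0) []) (chkA EL3 EL5 (ob1 Ey 41940418560)) = true := by decide +kernel
theorem Eb6_5 : allT (.lf (nat_lit 32084281790496) Ev32084281790496 (nat_lit 0) []) (chkA EL3 EL5 (ob1 Ey 41940418560)) = true := by decide +kernel
theorem Eb6_6 : allT (.lf (nat_lit 32084281790754) Ev32084281790754 (nat_lit 0) []) (chkA EL3 EL5 (ob1 Ey 41940418560)) = true := by decide +kernel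
theorem Eb6_7 : allT (.lf (nat_lit 33123326763008) Ev33123326763008 (nat_lit 0) []) (chkA EL3 EL5 (ob1 Ey 41940418560)) = true := by decide +kernel
theorem Eb6_8 : allT (.lf (nat_lit 33127621730320) Ev33127621730320 (nat_lit 0) []) (chkA EL3 EL5 (ob1 Ey 41940418560)) = true := by decide +kernel
theorem Eb6_9 : allT (.lf (nat_lit 33131984334848) Ev33131984334848 (nat_lit 0) []) (chkA EL3 EL5 (ob1 Ey 41940418560)) = true := by decide +kernel
theorem Eb6_10 : allT (.lf (nat_lit 33136296079384) Ev33136296079384 (nat_lit 0) []) (chkA EL3 EL5 (ob1 Ey 41940418560)) = true := by decide +kernel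
theorem Eb6_11 : allT (.lf (nat_lit 33149198809088) Ev33149198809088 (nat_lit 0) []) (chkA EL3 EL5 (ob1 Ey 41940418560)) = true := by decide +kernel
theorem Eb6_12 : allT (.lf (nat_lit 33153510553624) Ev33153510553624 (nat_lit 0) []) (chkA EL3 EL5 (ob1 Ey 41940418560)) = true := by decide +kernel
theorem Ea6 : allT Et6 (chkA EL3 EL5 (ob1 Ey 41940418560)) = true := (allT_nd (allT_nd (allT_nd Eb6_0 (allT_nd Eb6_1 Eb6_2)) (allT_nd Eb6_3 (allT_nd Eb6_4 Eb6_5))) (allT_nd (allT_nd Eb6_6 (allT_nd Eb6_7 Eb6_8)) (allT_nd (allT_nd Eb6_9 Eb6_10) (allT_nd Eb6_11 Eb6_12))))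

end Pool.Agent.Lib.MP_49b2f4_co.N7
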