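import Pool.Agent.Lib.MP_49b2f4_co.N7.EA6

namespace Pool.Agent.Lib.MP_49b2f4_co.N7

set_option maxRecDepth 100000

theorem Eb7_0 : allT (.lf (nat_lit 33157954936832) Ev33157954936832 (nat_lit 0) []) (chkA EL3 EL5 (ob1 Ey 41940418560)) = true := by decide +kernel
theorem Eb7_1 : allT (.lf (nat_lit 33157955002372) Ev33157955002372 (nat_lit 0) []) (chkA EL3 EL5 (ob1 Ey 41940418560)) = true := by decide +kernel
theorem Eb7_2 : allT (.lf (nat_lit 33157955002630) Ev33157955002630 (nat_lit 0) []) (chkA EL3 EL5 (ob1 Ey 41940418560)) = true := by decide +kernel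
theorem Eb7_3 : allT (.lf (nat_lit 33162249904144) Ev33162249904144 (nat_lit 0) []) (chkA EL3 EL5 (ob1 Ey 41940418560)) = true := by decide +kernel
theorem Eb7_4 : allT (.lf (nat_lit 33162250036240) Ev33162250036240 (nat_lit 0) []) (chkA EL3 EL5 (ob1 Ey 41940418560)) = true := by decide +kernel
theorem Eb7_5 : allT (.lf (nat_lit 33162266813464) Ev33162266813464 (nat_lit 0) []) (chkA EL3 EL5 (ob1 Ey 41940418560)) = true := by decide +kernel
theorem Eb7_6 : allT (.lf (nat_lit 33166612508672) Ev33166612508672 (nat_lit 0) []) (chkA EL3 EL5 (ob1 Ey 41940418560)) = true := by decide +kernel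
theorem Eb7_7 : allT (.lf (nat_lit 33166612574470) Ev33166612574470 (nat_lit 0) []) (chkA EL3 EL5 (ob1 Ey 41940418560)) = true := by decide +kernel
theorem Eb7_8 : allT (.lf (nat_lit 33170907541524) Ev33170907541524 (nat_lit 0) []) (chkA EL3 EL5 (ob1 Ey 41940418560)) = true := by decide +kernel
theorem Eb7_9 : allT (.lf (nat_lit 33170924385304) Ev33170924385304 (nat_lit 0) []) (chkA EL3 EL5 (ob1 Ey 41940418560)) = true := by decide +kernel
theorem Eb7_10 : allT (.lf (nat_lit 33175135854592) Ev33175135854592 (nat_lit 0) []) (chkA EL3 EL5 (ob1 Ey 41940418560)) = true := by decide +kernel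
theorem Eb7_11 : allT (.lf (nat_lit 33175135854850) Ev33175135854850 (nat_lit 0) []) (chkA EL3 EL5 (ob1 Ey 41940418560)) = true := by decide +kernel
theorem Eb7_12 : allT (.lf (nat_lit 33175152631816) Ev33175152631816 (nat_lit 0) []) (chkA EL3 EL5 (ob1 Ey 41940418560)) = true := by decide +kernel
theorem Ea7 : allT Et7 (chkA EL3 EL5 (ob1 Ey 41940418560)) = true := (allT_nd (allT_nd (allT_nd Eb7_0 (allT_nd Eb7_1 Eb7_2)) (allT_nd Eb7_3 (allT_nd Eb7_4 Eb7_5))) (allT_nd (allT_nd Eb7_6 (allT_nd Eb7_7 Eb7_8)) (allT_nd (allT_nd Eb7_9 Eb7_10) (allT_nd Eb7_11 Eb7_12))))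

end Pool.Agent.Lib.MP_49b2f4_co.N7
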