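import Pool.Agent.Lib.MP_49b2f4_co.N7.EA7

namespace Pool.Agent.Lib.MP_49b2f4_co.N7

set_option maxRecDepth 100000

theorem Eb8_0 : allT (.lf (nat_lit 33175152632074) Ev33175152632074 (nat_lit 0) []) (chkA EL3 EL5 (ob1 Ey 41940418560)) = true := by decide +kernel
theorem Eb8_1 : allT (.lf (nat_lit 33175169476612) Ev33175169476612 (nat_lit 0) []) (chkA EL3 EL5 (ob1 Ey 41940418560)) = true := by decide +kernel
theorem Eb8_2 : allT (.lf (nat_lit 33175203487744) Ev33175203487744 (nat_lit 0) []) (chkA EL3 EL5 (ob1 Ey 41940418560)) = true := by decide +kernel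
theorem Eb8_3 : allT (.lf (nat_lit 33175203488002) Ev33175203488002 (nat_lit 0) []) (chkA EL3 EL5 (ob1 Ey 41940418560)) = true := by decide +kernel
theorem Eb8_4 : allT (.lf (nat_lit 33179464378384) Ev33179464378384 (nat_lit 0) []) (chkA EL3 EL5 (ob1 Ey 41940418560)) = true := by decide +kernel
theorem Eb8_5 : allT (.lf (nat_lit 33179464510480) Ev33179464510480 (nat_lit 0) []) (chkA EL3 EL5 (ob1 Ey 41940418560)) = true := by decide +kernel
theorem Eb8_6 : allT (.lf (nat_lit 33183725793280) Ev33183725793280 (nat_lit 0) []) (chkA EL3 EL5 (ob1 Ey 41940418560)) = true := by decide +kernel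
theorem Eb8_7 : allT (.lf (nat_lit 33183742570504) Ev33183742570504 (nat_lit 0) []) (chkA EL3 EL5 (ob1 Ey 41940418560)) = true := by decide +kernel
theorem Eb8_8 : allT (.lf (nat_lit 33183742636044) Ev33183742636044 (nat_lit 0) []) (chkA EL3 EL5 (ob1 Ey 41940418560)) = true := by decide +kernel
theorem Eb8_9 : allT (.lf (nat_lit 33183742636302) Ev33183742636302 (nat_lit 0) []) (chkA EL3 EL5 (ob1 Ey 41940418560)) = true := by decide +kernel
theorem Eb8_10 : allT (.lf (nat_lit 33183793426432) Ev33183793426432 (nat_lit 0) []) (chkA EL3 EL5 (ob1 Ey 41940418560)) = true := by decide +kernel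
theorem Eb8_11 : allT (.lf (nat_lit 33183793426690) Ev33183793426690 (nat_lit 0) []) (chkA EL3 EL5 (ob1 Ey 41940418560)) = true := by decide +kernel
theorem Eb8_12 : allT (.lf (nat_lit 33183810203656) Ev33183810203656 (nat_lit 0) []) (chkA EL3 EL5 (ob1 Ey 41940418560)) = true := by decide +kernel
theorem Ea8 : allT Et8 (chkA EL3 EL5 (ob1 Ey 41940418560)) = true := (allT_nd (allT_nd (allT_nd Eb8_0 (allT_nd Eb8_1 Eb8_2)) (allT_nd Eb8_3 (allT_nd Eb8_4 Eb8_5))) (allT_nd (allT_nd Eb8_6 (allT_nd Eb8_7 Eb8_8)) (allT_nd (allT_nd Eb8_9 Eb8_10) (allT_nd Eb8_11 Eb8_12))))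

end Pool.Agent.Lib.MP_49b2f4_co.N7
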