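import Pool.Agent.Lib.MP_49b2f4_co.N7.EA8

namespace Pool.Agent.Lib.MP_49b2f4_co.N7

set_option maxRecDepth 100000

theorem Eb9_0 : allT (.lf (nat_lit 33183810203914) Ev33183810203914 (nat_lit 0) []) (chkA EL3 EL5 (ob1 Ey 41940418560)) = true := by decide +kernel
theorem Eb9_1 : allT (.lf (nat_lit 33183826982912) Ev33183826982912 (nat_lit 0) []) (chkA EL3 EL5 (ob1 Ey 41940418560)) = true := by decide +kernel
theorem Eb9_2 : allT (.lf (nat_lit 33183827048452) Ev33183827048452 (nat_lit 0) []) (chkA EL3 EL5 (ob1 Ey 41940418560)) = true := by decide +kernel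
theorem Eb9_3 : allT (.lf (nat_lit 33183827048710) Ev33183827048710 (nat_lit 0) []) (chkA EL3 EL5 (ob1 Ey 41940418560)) = true := by decide +kernel
theorem Eb9_4 : allT (.lf (nat_lit 33183827115008) Ev33183827115008 (nat_lit 0) []) (chkA EL3 EL5 (ob1 Ey 41940418560)) = true := by decide +kernel
theorem Eb9_5 : allT (.lf (nat_lit 34222838390816) Ev34222838390816 (nat_lit 0) []) (chkA EL3 EL5 (ob1 Ey 41940418560)) = true := by decide +kernel
theorem Eb9_6 : allT (.lf (nat_lit 34231495962656) Ev34231495962656 (nat_lit 0) []) (chkA EL3 EL5 (ob1 Ey 41940418560)) = true := by decide +kernel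
theorem Eb9_7 : allT (.lf (nat_lit 34235807839288) Ev34235807839288 (nat_lit 0) []) (chkA EL3 EL5 (ob1 Ey 41940418560)) = true := by decide +kernel
theorem Eb9_8 : allT (.lf (nat_lit 34248710436896) Ev34248710436896 (nat_lit 0) []) (chkA EL3 EL5 (ob1 Ey 41940418560)) = true := by decide +kernel
theorem Eb9_9 : allT (.lf (nat_lit 34253022181432) Ev34253022181432 (nat_lit 0) []) (chkA EL3 EL5 (ob1 Ey 41940418560)) = true := by decide +kernel
theorem Eb9_10 : allT (.lf (nat_lit 34257466564640) Ev34257466564640 (nat_lit 0) []) (chkA EL3 EL5 (ob1 Ey 41940418560)) = true := by decide +kernel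
theorem Eb9_11 : allT (.lf (nat_lit 34266124136480) Ev34266124136480 (nat_lit 0) []) (chkA EL3 EL5 (ob1 Ey 41940418560)) = true := by decide +kernel
theorem Eb9_12 : allT (.lf (nat_lit 34274647482400) Ev34274647482400 (nat_lit 0) []) (chkA EL3 EL5 (ob1 Ey 41940418560)) = true := by decide +kernel
theorem Ea9 : allT Et9 (chkA EL3 EL5 (ob1 Ey 41940418560)) = true := (allT_nd (allT_nd (allT_nd Eb9_0 (allT_nd Eb9_1 Eb9_2)) (allT_nd Eb9_3 (allT_nd Eb9_4 Eb9_5))) (allT_nd (allT_nd Eb9_6 (allT_nd Eb9_7 Eb9_8)) (allT_nd (allT_nd Eb9_9 Eb9_10) (allT_nd Eb9_11 Eb9_12))))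

end Pool.Agent.Lib.MP_49b2f4_co.N7
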