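import Pool.Agent.Lib.MP_49b2f4_co.N7.EA5
import Pool.Agent.Lib.MP_49b2f4_co.N7.EA11
import Pool.Agent.Lib.MP_49b2f4_co.D.H

namespace Pool.Agent.Lib.MP_49b2f4_co.N7

set_option maxRecDepth 100000

theorem EhA : allT Et (chkA EL3 EL5 (ob1 Ey 41940418560)) = true := (allT_nd (allT_nd (allT_nd Ea0 (allT_nd Ea1 Ea2)) (allT_nd Ea3 (allT_nd Ea4 Ea5))) (allT_nd (allT_nd Ea6 (allT_nd Ea7 Ea8)) (allT_nd Ea9 (allT_nd Ea10 Ea11))))
theorem EhB : allT D.t7 (chkB Et 11647854112827) = true := by decide +kernel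
theorem Ecert : ∀ g, Good g → 0 ≤ Sym (cc EL3 EL5 (oc1 Ey 41940418560 97193925)) 7 g :=
  cov_zero (cov_step (inv7 _) (by norm_num) D.k0 (cov_step (inv7 _) (by norm_num) D.k1
    (cov_step (inv7 _) (by norm_num) D.k2 (cov_step (inv7 _) (by norm_num) D.k3
    (cov_step (inv7 _) (by norm_num) D.k4 (cov_step (inv7 _) (by norm_num) D.k5
    (cov_step (inv7 _) (by norm_num) D.k6 (main_chk Eh3 Eh5 (ob1_bnd Ey 41940418560) (ob1_val Ey (by norm_num) (by norm_num)) EhA EhB))))))))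

end Pool.Agent.Lib.MP_49b2f4_co.N7
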