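import Pool.Agent.Lib.MP_49b2f4_co.N7.Obj

namespace Pool.Agent.Lib.MP_49b2f4_co.N7

set_option maxRecDepth 100000

noncomputable def Ey : Tr := (.nd (nat_lit 21577074704) (.nd (nat_lit 8657769734) (.nd (nat_lit 16909320) (.nd (nat_lit 197894) (.nd (nat_lit 258) (.lf (nat_lit 0) (nat_lit 34361898233) (nat_lit 0) []) (.lf (nat_lit 258) (nat_lit 34387480319) (nat_lit 0) [])) (.nd (nat_lit 16843022) (.lf (nat_lit 197894) (nat_lit 34266315112) (nat_lit 0) []) (.lf (nat_lit 16843022) (nat_lit 34411587762) (nat_lit 0) []))) (.nd (nat_lit 84542472) (.nd (nat_lit 50531340) (.lf (nat_lit 16909320) (nat_lit 34359222841) (nat_lit 0) []) (.lf (nat_lit 50531340) (nat_lit 34424657413) (nat_lit 0) [])) (.nd (nat_lit 4311876890) (.lf (nat_lit 84542472) (nat_lit 34158355668) (nat_lit 0) []) (.lf (nat_lit 4311876890) (nat_lit 34939361812) (nat_lit 0) [])))) (.nd (nat_lit 12969448472) (.nd (nat_lit 12935437340) (.nd (nat_lit 12935239962) (.lf (nat_lit 8657769734) (nat_lit 34286482960) (nat_lit 0)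 []) (.lf (nat_lit 12935239962) (nat_lit 34620186733) (nat_lit 0) [])) (.nd (nat_lit 12969382174) (.lf (nat_lit 12935437340) (nat_lit 34415705454) (nat_lit 0) []) (.lf (nat_lit 12969382174) (nat_lit 34409178354) (nat_lit 0) []))) (.nd (nat_lit 12969514270) (.nd (nat_lit 12969448730) (.lf (nat_lit 12969448472) (nat_lit 34506213924) (nat_lit 0) []) (.lf (nat_lit 12969448730) (nat_lit 34941555023) (nat_lit 0) [])) (.nd (nat_lit 17248550912) (.lf (nat_lit 12969514270) (nat_lit 35262155195) (nat_lit 0) []) (.nd (nat_lit 21560361246) (.lf (nat_lit 17248550912) (nat_lit 34355185766) (nat_lit 0) []) (.lf (nat_lit 21560361246) (nat_lit 34726844504) (nat_lit 0) [])))))) (.nd (nat_lit 47563611422) (.nd (nat_lit 34729495552) (.nd (nat_lit 30167145488) (.nd (nat_lit 25872111620) (.lf (nat_lit 21577074704) (nat_lit 32074645081) (nat_lit 0) []) (.lf (nat_lit 25872111620) (nat_lit 35188139782) (nat_lit 0) [])) (.nd (nat_lit 30183988510) (.lf (nat_lit 30167145488) (nat_lit 34760747552) (nat_lit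 0) []) (.lf (nat_lit 30183988510) (nat_lit 34385717634) (nat_lit 0) []))) (.nd (nat_lit 38923339030) (.nd (nat_lit 34746338574) (.lf (nat_lit 34729495552) (nat_lit 34678843013) (nat_lit 0) []) (.lf (nat_lit 34746338574) (nat_lit 34784597799) (nat_lit 0) [])) (.nd (nat_lit 47563611164) (.lf (nat_lit 38923339030) (nat_lit 35293127086) (nat_lit 0) []) (.lf (nat_lit 47563611164) (nat_lit 34433243145) (nat_lit 0) [])))) (.nd (nat_lit 64693997584) (.nd (nat_lit 51876724994) (.nd (nat_lit 51809091842) (.lf (nat_lit 47563611422) (nat_lit 34313499514) (nat_lit 0) []) (.lf (nat_lit 51809091842) (nat_lit 34108852374) (nat_lit 0) [])) (.nd (nat_lit 60500352000) (.lf (nat_lit 51876724994) (nat_lit 34314081910) (nat_lit 0) []) (.lf (nat_lit 60500352000) (nat_lit 34462911876) (nat_lit 0) []))) (.nd (nat_lit 64744528924) (.nd (nat_lit 64693997842) (.lf (nat_lit 64693997584) (nat_lit 34382824925) (nat_lit 0) []) (.lf (nat_lit 64693997842) (nat_lit 34494296824) (nat_lit 0) [])) (.nd (nat_lit 64811964440)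 (.lf (nat_lit 64744528924) (nat_lit 34446686388) (nat_lit 0) []) (.nd (nat_lit 64812162334) (.lf (nat_lit 64811964440) (nat_lit 34406313361) (nat_lit 0) []) (.lf (nat_lit 64812162334) (nat_lit 34358568266) (nat_lit 0) [])))))))

end Pool.Agent.Lib.MP_49b2f4_co.N7
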