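import Pool.Agent.Lib.MP_49b2f4_co.N7.W
import Pool.Agent.Lib.MP_49b2f4_co.Main

/-! Weighted graphs and the function `gmax`. -/

namespace Pool.Agent.Lib.MP_49b2f4_co.N7

open Finset Filter Topology

section
variable {V T : Type} [Fintype V] [Fintype T]

def Push (u : T → ℝ) (φ : T → V) (w : V → ℝ) : Prop :=
  ∀ f : V → ℝ, I u (fun t => f (φ t)) = I w f

theorem Push.PW {u : T → ℝ} {φ : T → V} {w : V → ℝ} (h : Push u φ w) (A : V → V → Bool) :
    PW u (fun s t => A (φ s) (φ t)) = PW w A :=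
  (I_congr fun s => h fun b => r (A (φ s) b)).trans (h fun a => I w fun b => r (A a b))

theorem Push.NW {u : T → ℝ} {φ : T → V} {w : V → ℝ} (h : Push u φ w) (A : V → V → Bool) :
    NW u (fun s t => A (φ s) (φ t)) = NW w A :=
  (I_congr fun a => (I_congr fun b => (I_congr fun c => (I_congr fun d =>
    h fun e => pi A (φ a) (φ b) (φ c) (φ d) e).trans
    (h fun d => I w fun e => pi A (φ a) (φ b) (φ c) d e)).trans
    (h fun c => I w fun d => I w fun e => pi A (φ a) (φ b) c d e)).trans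
    (h fun b => I w fun c => I w fun d => I w fun e => pi A (φ a) b c d e)).trans
    (h fun a => I4 w (pi A a))

theorem PW_sc (k : ℝ) (w : V → ℝ) (A : V → V → Bool) :
    PW (fun v => k * w v) A = k ^ 2 * PW w A := by
  simp only [PW, I2, I_sc, I_mul]; ring

theorem NW_sc (k : ℝ) (w : V → ℝ) (A : V → V → Bool) :
    NW (fun v => k * w v) A = k ^ 5 * NW w A := by
  simp only [NW, I4, I_sc, I_mul]; ring

theorem MM_PW (A : V → V → Bool) : MM A = PW (fun _ => 1) A := by
  simp only [MM, PW, I2, I, one_mul]; rfl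

theorem N5_NW (A : V → V → Bool) : N5 A = NW (fun _ => 1) A := by
  simp only [N5, NW, I4, I, one_mul]; rfl

def Ao (A : V → V → Bool) : Option V → Option V → Bool
  | some u, some v => A u v
  | _, _ => false

omit [Fintype V] in
theorem Gr.opt {A : V → V → Bool} (h : Gr A) : Gr (Ao A) :=
  ⟨fun u v => by cases u <;> cases v <;> first | rfl | exact h.symm _ _,
   fun u => by cases u <;> first | rfl | exact h.irr _⟩

theorem I_opt (w : Option V → ℝ) {f : Option V → ℝ} (h : f none = 0) :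
    I w f = I (fun v => w (some v)) (fun v => f (some v)) := by
  simp [I, Fintype.sum_option, h]

theorem PW_opt (w : Option V → ℝ) (A : V → V → Bool) :
    PW w (Ao A) = PW (fun v => w (some v)) A := by
  unfold PW I2
  rw [I_opt w (by simp [Ao, I_zero])]
  exact I_congr fun a => I_opt w rfl

theorem NW_opt (w : Option V → ℝ) (A : V → V → Bool) :
    NW w (Ao A) = NW (fun v => w (some v)) A := by
  unfold NW I4
  rw [I_opt w (by simp [Ao, I_zero, pi, pat])]
  refine I_congr fun a => ?_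
  rw [I_opt w (by simp [Ao, I_zero, pi, pat])]
  refine I_congr fun b => ?_
  rw [I_opt w (by simp [Ao, I_zero, pi, pat])]
  refine I_congr fun c => ?_
  rw [I_opt w (by simp [Ao, I_zero, pi, pat])]
  refine I_congr fun d => ?_
  rw [I_opt w (by simp [Ao, pi, pat])]
  rfl

theorem tendsto_I {w f : ℕ → V → ℝ} {w0 f0 : V → ℝ} (hw : ∀ v, Tendsto (w · v) atTop (𝓝 (w0 v)))
    (hf : ∀ v, Tendsto (f · v) atTop (𝓝 (f0 v))) :
    Tendsto (fun k => I (w k) (f k)) atTop (𝓝 (I w0 f0)) :=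
  tendsto_finsetSum _ fun v _ => (hw v).mul (hf v)

theorem exists_graph {A : V → V → Bool} (hA : Gr A) (m : V → ℕ) {k : ℕ} (hk : ∑ v, m v = k) :
    ∃ G : SimpleGraph (Fin k), MM (Aof G) = PW (fun v => (m v : ℝ)) A ∧
      N5 (Aof G) = NW (fun v => (m v : ℝ)) A := by
  have hc : Fintype.card (Σ v : V, Fin (m v)) = k := by simp [hk]
  let e := (Fintype.equivFinOfCardEq hc).symm
  have hp : Push (fun _ => 1) (fun t => (e t).1) (fun v => (m v : ℝ)) := by
    intro f
    simp only [I, one_mul]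
    rw [e.sum_comp (fun s => f s.1), Fintype.sum_sigma]
    simp
  refine ⟨⟨fun s t => A (e s).1 (e t).1 = true, ⟨fun s t h => by rwa [hA.symm]⟩,
    ⟨fun s => by simp [hA.irr]⟩⟩, ?_, ?_⟩
  · rw [MM_PW, ← hp.PW]; congr 1; funext s t; simp [Aof]
  · rw [N5_NW, ← hp.NW]; congr 1; funext s t; simp [Aof]

theorem SS_bdd (p : ℝ) : BddAbove (SS p) := ⟨_, fun _ h => SS_le h⟩

theorem le_gmax {A : V → V → Bool} (hA : Gr A) {w : V → ℝ} (hw : ∀ v, 0 ≤ w v)
    (h1 : ∑ v, w v ≤ 1) : 12 * NW w A ≤ gmax (PW w A) := by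
  have hs : ∀ k : ℕ, ∑ v, ⌊w v * k⌋₊ ≤ k := by
    intro k
    have h2 : ∑ v, (⌊w v * k⌋₊ : ℝ) ≤ ∑ v, w v * k :=
      sum_le_sum fun v _ => Nat.floor_le (mul_nonneg (hw v) (by positivity))
    rw [← sum_mul] at h2
    have h3 : (0 : ℝ) ≤ k := by positivity
    have : ∑ v, (⌊w v * k⌋₊ : ℝ) ≤ k := by nlinarith
    exact_mod_cast this
  have hG := fun k : ℕ => exists_graph hA.opt
    (fun o => Option.casesOn o (k - ∑ v, ⌊w v * k⌋₊) fun v => ⌊w v * k⌋₊) (k := k) (by
      rw [Fintype.sum_option]; exact Nat.sub_add_cancel (hs k))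
  choose G h2 h5 using hG
  simp only [PW_opt, NW_opt] at h2 h5
  have ts : ∀ v, Tendsto (fun k : ℕ => (k : ℝ)⁻¹ * (⌊w v * k⌋₊ : ℝ)) atTop (𝓝 (w v)) := fun v => by
    have := (tendsto_nat_floor_mul_div_atTop (hw v)).comp tendsto_natCast_atTop_atTop
    refine this.congr fun k => ?_
    simp only [Function.comp]; ring
  have tP : Tendsto (fun k : ℕ => PW (fun v => (k : ℝ)⁻¹ * (⌊w v * k⌋₊ : ℝ)) A) atTop (𝓝 (PW w A)) :=
    tendsto_I ts fun _ => tendsto_I ts fun _ => tendsto_const_nhds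
  have tN : Tendsto (fun k : ℕ => NW (fun v => (k : ℝ)⁻¹ * (⌊w v * k⌋₊ : ℝ)) A) atTop (𝓝 (NW w A)) :=
    tendsto_I ts fun _ => tendsto_I ts fun _ => tendsto_I ts fun _ => tendsto_I ts fun _ =>
      tendsto_I ts fun _ => tendsto_const_nhds
  simp only [PW_sc, NW_sc] at tP tN
  refine le_csSup (SS_bdd _) ⟨id, G, tendsto_id, ?_, ?_⟩
  · have t := tP.div r2 one_ne_zero
    rw [div_one] at t
    refine t.congr' ?_
    filter_upwards [eventually_ge_atTop 5] with k hk
    have h4 : (0 : ℝ) < k.choose 2 := by exact_mod_cast Nat.choose_pos (by omega)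
    have h6 : (0 : ℝ) < k := by exact_mod_cast (by omega : 0 < k)
    have := MM_dens hk (G k)
    rw [h2] at this
    simp only [Pi.div_apply]
    rw [div_eq_iff (by positivity)]
    refine Eq.trans ?_ this
    field_simp
  · symm
    apply Tendsto.limsup_eq
    rw [mul_comm]
    refine (tN.mul r5).congr' ?_
    filter_upwards [eventually_ge_atTop 5] with k hk
    refine Eq.trans ?_ (N5_dens hk (G k)).symm
    rw [h5]
    congr 1
    field_simp

end

theorem gmax_nn (p : ℝ) : 0 ≤ gmax p := by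
  rcases (SS p).eq_empty_or_nonempty with h | ⟨L, n, G, hn, hp, rfl⟩
  · have : gmax p = sSup (SS p) := rfl
    rw [this, h, Real.sSup_empty]
  · refine le_trans ?_ (le_csSup (SS_bdd p) ⟨n, G, hn, hp, rfl⟩)
    refine le_limsup_of_frequently_le (Frequently.of_forall fun k => by unfold c5Dens; positivity) ?_
    refine ⟨1, eventually_map.2 (Eventually.of_forall fun k => ?_)⟩
    unfold c5Dens
    refine div_le_one_of_le₀ ?_ (by positivity)
    have h1 : Set.ncard {S : Finset (Fin (n k)) | S.card = 5 ∧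
        Nonempty ((G k).induce (S : Set (Fin (n k))) ≃g SimpleGraph.cycleGraph 5)} ≤
        Set.ncard ((powersetCard 5 (univ : Finset (Fin (n k))) : Finset _) : Set (Finset (Fin (n k)))) :=
      Set.ncard_le_ncard (fun S hS => by simpa using hS.1)
    rw [Set.ncard_coe_finset, card_powersetCard, card_univ, Fintype.card_fin] at h1
    exact_mod_cast h1

theorem approx {p ε : ℝ} (h0 : 0 ≤ p) (h1 : p ≤ 1) (hε : 0 < ε) :
    ∃ (V : Type) (_ : Fintype V) (A : V → V → Bool) (w : V → ℝ), Gr A ∧ Pr w ∧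
      |PW w A - p| ≤ ε ∧ gmax p - ε ≤ 12 * NW w A := by
  rcases (SS p).eq_empty_or_nonempty with h | h
  · have hg : gmax p = 0 := by
      have : gmax p = sSup (SS p) := rfl
      rw [this, h, Real.sSup_empty]
    obtain ⟨m, hm⟩ := exists_nat_gt (1 / ε)
    have hm0 : (0 : ℝ) < m := lt_trans (by positivity) hm
    have ht : √p ≤ 1 := Real.sqrt_le_one.2 h1
    have hw : Pr (fun o : Option (Fin m) => Option.casesOn o (1 - √p) fun _ => √p / m) := by
      refine ⟨fun o => ?_, ?_⟩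
      · cases o
        · exact sub_nonneg.2 ht
        · show 0 ≤ √p / m; positivity
      · rw [Fintype.sum_option]; simp; field_simp; ring
    refine ⟨Option (Fin m), inferInstance, Ao (fun u v => u != v), _,
      Gr.opt ⟨fun u v => bne_comm, fun u => by simp⟩, hw, ?_, ?_⟩
    · rw [PW_opt]
      have e : ∀ u v : Fin m, r (u != v) = 1 - r (decide (v = u)) * 1 := by
        intro u v; by_cases c : u = v
        · simp [c]
        · simp [Ne.symm c, show (u != v) = true by simpa using c]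
      simp only [PW, I2, e, I_sub, I_at]
      simp only [I, sum_const, card_univ, Fintype.card_fin, nsmul_eq_mul, mul_one]
      have e2 : (m : ℝ) * (√p / m * (m * (√p / m))) - m * (√p / m * (√p / m)) - p = -(p / m) := by
        have := Real.mul_self_sqrt h0
        field_simp; nlinarith
      rw [e2, abs_neg, abs_of_nonneg (by positivity), div_le_iff₀ hm0]
      rw [div_lt_iff₀ hε] at hm
      nlinarith
    · have := NW_nn hw.nn (Ao (fun u v : Fin m => u != v))
      linarith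
  · obtain ⟨L, ⟨n, G, hn, hp, rfl⟩, hL⟩ :=
      exists_lt_of_lt_csSup h (show gmax p - ε / 3 < sSup (SS p) from sub_lt_self _ (by positivity))
    have f1 : ∃ᶠ k in atTop, gmax p - ε / 3 < c5Dens (G k) :=
      frequently_lt_of_lt_limsup (isCoboundedUnder_le_of_le atTop (x := 0) fun k => by
        unfold c5Dens; positivity) hL
    have t1 := hp.mul (r2.comp hn)
    rw [mul_one] at t1
    have f2 := (Metric.tendsto_nhds.1 t1) ε hε
    have f3 := (Metric.tendsto_nhds.1 (r5.comp hn)) (ε / 3) (by positivity)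
    obtain ⟨k, k1, k2, k3, k4⟩ := (f1.and_eventually (f2.and (f3.and (hn.eventually_ge_atTop 5)))).exists
    have hk : (0 : ℝ) < n k := by exact_mod_cast (by omega : 0 < n k)
    have hw : Pr (fun _ : Fin (n k) => (n k : ℝ)⁻¹ * 1) :=
      ⟨fun _ => by positivity, by simp; field_simp⟩
    simp only [Function.comp, Real.dist_eq] at k2 k3
    refine ⟨Fin (n k), inferInstance, Aof (G k), _, ⟨Aof_symm _, Aof_irr _⟩, hw, ?_, ?_⟩
    · rw [PW_sc, ← MM_PW, inv_pow, inv_mul_eq_div, MM_dens k4]; exact k2.le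
    · have n1 : NW _ (Aof (G k)) ≤ 1 := hw.le fun _ => hw.le fun _ => hw.le fun _ => hw.le fun _ =>
        hw.le fun _ => by unfold pi; split_ifs <;> norm_num
      have n0 := NW_nn hw.nn (Aof (G k))
      rw [NW_sc, ← N5_NW, inv_pow, inv_mul_eq_div] at n1 n0 ⊢
      rw [N5_dens k4] at k1
      have := (abs_lt.1 k3).2
      nlinarith

theorem gmax_le {p F L : ℝ} (h0 : 0 ≤ p) (h1 : p ≤ 1) (hL : 0 ≤ L)
    (h : ∀ (V : Type) [Fintype V] (A : V → V → Bool) (w : V → ℝ), Gr A → Pr w →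
      |PW w A - p| ≤ 1 / 100 → 12 * NW w A ≤ F + L * |PW w A - p|) : gmax p ≤ F := by
  refine le_of_forall_pos_le_add fun δ hδ => ?_
  obtain ⟨V, _, A, w, hA, hw, a1, a2⟩ := approx h0 h1
    (show 0 < min (1 / 100) (δ / (1 + L)) by positivity)
  have b1 := h V A w hA hw (a1.trans (min_le_left _ _))
  have b2 : min (1 / 100) (δ / (1 + L)) * (1 + L) ≤ δ :=
    (le_div_iff₀ (by positivity)).1 (min_le_right _ _)
  have := mul_le_mul_of_nonneg_left a1 hL
  linarith

theorem gmax_symm (p : ℝ) : gmax (1 - p) = gmax p := congrArg sSup (SS_eq p)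

theorem gmax_lin {p : ℝ} (h0 : 0 ≤ p) (h1 : p ≤ 1) : gmax p ≤ 21 / 100 * p := by
  refine (gmax_main p h0 h1).1.trans ?_
  have q0 : 0 ≤ min p (1 - p) := le_min h0 (by linarith)
  have q1 := min_le_left p (1 - p)
  have q2 := min_le_right p (1 - p)
  generalize min p (1 - p) = q at *
  have e : q ^ (5 / 2 : ℝ) ≤ q ^ 2 := by
    rw [← Real.rpow_two]
    exact Real.rpow_le_rpow_of_exponent_ge' q0 (by linarith) (by norm_num) (by norm_num)
  have s5 : √5 ≤ 9 / 4 := Real.sqrt_le_iff.2 ⟨by norm_num, by norm_num⟩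
  have e0 : 0 ≤ q ^ (5 / 2 : ℝ) := by positivity
  nlinarith

theorem scaleW {V : Type} [Fintype V] {A : V → V → Bool} (hA : Gr A) {w : V → ℝ} (hw : Pr w)
    {t : ℝ} (t0 : 0 ≤ t) (t1 : t ≤ 1) : t ^ 5 * (12 * NW w A) ≤ gmax (t ^ 2 * PW w A) := by
  have := le_gmax hA (w := fun v => t * w v) (fun v => mul_nonneg t0 (hw.nn v))
    (by rw [← mul_sum, hw.one]; linarith)
  rw [NW_sc, PW_sc] at this
  linarith

theorem lip_down {p q : ℝ} (h0 : 0 ≤ q) (h : q ≤ p) (h1 : p ≤ 1) :
    gmax p ≤ gmax q + 21 / 40 * (p - q) := by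
  rcases h.eq_or_lt with rfl | h
  · simp
  refine le_of_forall_pos_le_add fun δ hδ => ?_
  obtain ⟨V, _, A, w, hA, hw, a1, a2⟩ := approx (h0.trans h.le) h1
    (show 0 < min ((p - q) / 2) (δ / 2) from lt_min (by linarith) (by linarith))
  have m1 := min_le_left ((p - q) / 2) (δ / 2)
  have m2 := min_le_right ((p - q) / 2) (δ / 2)
  obtain ⟨b1, b2⟩ := abs_le.1 a1
  have c1 := (le_gmax hA hw.nn hw.one.le).trans (gmax_lin (PW_nn hw.nn A) (PW_le hw A))
  have c0 := NW_nn hw.nn A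
  have hP : 0 < PW w A := by linarith
  obtain ⟨t, t0, ht⟩ : ∃ t : ℝ, 0 ≤ t ∧ t ^ 2 * PW w A = q :=
    ⟨√(q / PW w A), by positivity, by rw [Real.sq_sqrt (by positivity)]; field_simp⟩
  have t1 : t ≤ 1 := by
    by_contra hc
    have : 1 < t ^ 2 := by nlinarith
    nlinarith
  have c2 := scaleW hA hw t0 t1
  rw [ht] at c2
  have c3 : 1 - 5 / 2 * (1 - t ^ 2) ≤ t ^ 5 := by
    have : 0 ≤ (1 - t) ^ 2 * (2 * t ^ 3 + 4 * t ^ 2 + 6 * t + 3) := by positivity
    nlinarith
  have c4 : 0 ≤ 1 - t ^ 2 := by nlinarith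
  have c5 := mul_le_mul_of_nonneg_right c3 (show 0 ≤ 12 * NW w A by linarith)
  have c6 := mul_le_mul_of_nonneg_left c1 c4
  nlinarith

theorem lip {p q : ℝ} (p0 : 0 ≤ p) (p1 : p ≤ 1) (q0 : 0 ≤ q) (q1 : q ≤ 1) :
    gmax p ≤ gmax q + 21 / 40 * |p - q| := by
  rcases le_total q p with h | h
  · rw [abs_of_nonneg (by linarith)]; exact lip_down q0 h p1
  · have := lip_down (p := 1 - p) (q := 1 - q) (by linarith) (by linarith) (by linarith)
    rw [gmax_symm, gmax_symm] at this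
    rw [abs_of_nonpos (by linarith)]; linarith

theorem scale {p t : ℝ} (p0 : 0 ≤ p) (p1 : p ≤ 1) (t0 : 0 ≤ t) (t1 : t ≤ 1) :
    t ^ 5 * gmax p ≤ gmax (t ^ 2 * p) := by
  refine le_of_forall_pos_le_add fun δ hδ => ?_
  obtain ⟨V, _, A, w, hA, hw, a1, a2⟩ := approx p0 p1 (show 0 < δ / 2 by positivity)
  have c2 := scaleW hA hw t0 t1
  have u2 : t ^ 2 ≤ 1 := pow_le_one₀ t0 t1
  have u5 : t ^ 5 ≤ 1 := pow_le_one₀ t0 t1
  have c3 := lip (p := t ^ 2 * PW w A) (q := t ^ 2 * p) (mul_nonneg (by positivity) (PW_nn hw.nn A))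
    (mul_le_one₀ u2 (PW_nn hw.nn A) (PW_le hw A)) (by positivity) (mul_le_one₀ u2 p0 p1)
  rw [← mul_sub, abs_mul, abs_of_nonneg (by positivity : 0 ≤ t ^ 2)] at c3
  have c4 := mul_le_mul_of_nonneg_left a2 (by positivity : 0 ≤ t ^ 5)
  have c5 := mul_le_mul u2 a1 (abs_nonneg _) zero_le_one
  nlinarith

end Pool.Agent.Lib.MP_49b2f4_co.N7
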