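import Mathlib.Data.Real.Basic
import Mathlib.Tactic.Linarith
import Mathlib.Tactic.Ring
import Mathlib.Tactic.Positivity
import Mathlib.Tactic.FieldSimp

/-! Polynomial inequalities for one vertex. -/

namespace Pool.Agent.Lib.MP_49b2f4_co.N7

noncomputable def Mn (a0 b0 a1 b1 a2 b2 a3 b3 a4 b4 : ℝ) : ℝ :=
  (a1 + b1) * (a2 + b2) * (a3 + b3) * (a4 + b4) - a1 * b2 * b3 * a4
    - (a0 * a2 * b3 * b4 + b0 * a1 * a3 * b4 + b0 * b1 * a2 * a4 + a0 * b1 * b2 * a3)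
    - (a1 ^ 2 * b1 ^ 2 + a2 ^ 2 * b2 ^ 2 + a3 ^ 2 * b3 ^ 2 + a4 ^ 2 * b4 ^ 2) / 2

theorem lo3 {x y z : ℝ} (hx : 19 / 100 ≤ x) (hy : 19 / 100 ≤ y) (hz : 19 / 100 ≤ z) :
    6859 / 1000000 ≤ x * y * z := by
  have h1 : 19 / 100 * (19 / 100) ≤ x * y := mul_le_mul hx hy (by norm_num) (by linarith)
  have h2 := mul_le_mul h1 hz (by norm_num) (by linarith)
  linarith

theorem hi2 {x y : ℝ} (_ : 0 ≤ x) (y0 : 0 ≤ y) (hx : x ≤ 21 / 100) (hy : y ≤ 21 / 100) :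
    x * y ≤ 441 / 10000 := by
  have h1 := mul_le_mul hx hy y0 (by norm_num)
  linarith

theorem quad {a b c d : ℝ} (ha : 0 ≤ a) (hb : 0 ≤ b) (hc : 0 ≤ c) (hd : 0 ≤ d) :
    a * b + c * d ≤ (a + b + c + d) ^ 2 / 4 := by
  nlinarith [sq_nonneg (a - b), sq_nonneg (c - d), mul_nonneg (add_nonneg ha hb) (add_nonneg hc hd)]

theorem Mn_small {a0 b0 a1 b1 a2 b2 a3 b3 a4 b4 : ℝ} (p0 : 0 ≤ a0) (q0 : 0 ≤ b0) (p1 : 0 ≤ a1)
    (q1 : 0 ≤ b1) (p2 : 0 ≤ a2) (q2 : 0 ≤ b2) (p3 : 0 ≤ a3) (q3 : 0 ≤ b3) (p4 : 0 ≤ a4)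
    (q4 : 0 ≤ b4) (u0 : a0 + b0 ≤ 21 / 100) (l1 : 19 / 100 ≤ a1 + b1) (u1 : a1 + b1 ≤ 21 / 100)
    (l2 : 19 / 100 ≤ a2 + b2) (u2 : a2 + b2 ≤ 21 / 100) (l3 : 19 / 100 ≤ a3 + b3)
    (u3 : a3 + b3 ≤ 21 / 100) (l4 : 19 / 100 ≤ a4 + b4) (u4 : a4 + b4 ≤ 21 / 100) :
    6859 / 1000000 * (b1 + a2 + a3 + b4) - 1323 / 40000 * (b1 + a2 + a3 + b4) ^ 2 ≤
      Mn a0 b0 a1 b1 a2 b2 a3 b3 a4 b4 := by
  have t1 := mul_le_mul_of_nonneg_left (lo3 l2 l3 l4) q1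
  have t2 := mul_le_mul_of_nonneg_left (lo3 l1 l3 l4) p2
  have t3 := mul_le_mul_of_nonneg_left (lo3 l1 l2 l4) p3
  have t4 := mul_le_mul_of_nonneg_left (lo3 l1 l2 l3) q4
  have w1 := add_nonneg p1 q1
  have w2 := add_nonneg p2 q2
  have w3 := add_nonneg p3 q3
  have w4 := add_nonneg p4 q4
  have s12 := mul_le_mul_of_nonneg_left (hi2 w3 w4 u3 u4) (mul_nonneg q1 p2)
  have s13 := mul_le_mul_of_nonneg_left (hi2 w2 w4 u2 u4) (mul_nonneg q1 p3)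
  have s14 := mul_le_mul_of_nonneg_left (hi2 w2 w3 u2 u3) (mul_nonneg q1 q4)
  have s23 := mul_le_mul_of_nonneg_left (hi2 w1 w4 u1 u4) (mul_nonneg p2 p3)
  have s24 := mul_le_mul_of_nonneg_left (hi2 w1 w3 u1 u3) (mul_nonneg p2 q4)
  have s34 := mul_le_mul_of_nonneg_left (hi2 w1 w2 u1 u2) (mul_nonneg p3 q4)
  have r1 : 0 ≤ a2 * a3 * b4 * (a1 + b1) := by positivity
  have r2 : 0 ≤ b1 * a3 * b4 * (a2 + b2) := by positivity
  have r3 : 0 ≤ b1 * a2 * b4 * (a3 + b3) := by positivity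
  have r4 : 0 ≤ b1 * a2 * a3 * a4 := by positivity
  have v1 := mul_le_mul_of_nonneg_left (show b3 ≤ 21 / 100 by linarith)
    (show 0 ≤ a0 * a2 * b4 by positivity)
  have v2 := mul_le_mul_of_nonneg_left (show a1 ≤ 21 / 100 by linarith)
    (show 0 ≤ b0 * a3 * b4 by positivity)
  have v3 := mul_le_mul_of_nonneg_left (show a4 ≤ 21 / 100 by linarith)
    (show 0 ≤ b0 * b1 * a2 by positivity)
  have v4 := mul_le_mul_of_nonneg_left (show b2 ≤ 21 / 100 by linarith)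
    (show 0 ≤ a0 * b1 * a3 by positivity)
  have m1 := mul_le_mul_of_nonneg_left (quad p2 q4 q1 p3) p0
  have m2 := mul_le_mul_of_nonneg_left (quad p3 q4 q1 p2) q0
  have m3 := mul_le_mul_of_nonneg_right u0 (sq_nonneg (b1 + a2 + a3 + b4))
  have z1 := mul_le_mul_of_nonneg_left (hi2 p1 p1 (by linarith) (by linarith)) (sq_nonneg b1)
  have z2 := mul_le_mul_of_nonneg_left (hi2 q2 q2 (by linarith) (by linarith)) (sq_nonneg a2)
  have z3 := mul_le_mul_of_nonneg_left (hi2 q3 q3 (by linarith) (by linarith)) (sq_nonneg a3)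
  have z4 := mul_le_mul_of_nonneg_left (hi2 p4 p4 (by linarith) (by linarith)) (sq_nonneg b4)
  unfold Mn
  linarith

theorem am4 {a b c d : ℝ} (ha : 0 ≤ a) (hb : 0 ≤ b) (hc : 0 ≤ c) (hd : 0 ≤ d)
    (h : a + b + c + d ≤ 5 / 2) : a * b * c * d ≤ 125 / 2048 * (a + b + c + d) := by
  have h1 : a * b ≤ (a + b) ^ 2 / 4 := by nlinarith [sq_nonneg (a - b)]
  have h2 : c * d ≤ (c + d) ^ 2 / 4 := by nlinarith [sq_nonneg (c - d)]
  have h3 : (a + b) * (c + d) ≤ (a + b + c + d) ^ 2 / 4 := by nlinarith [sq_nonneg (a + b - c - d)]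
  have h4 := mul_le_mul h1 h2 (mul_nonneg hc hd) (by positivity)
  have h5 := pow_le_pow_left₀ (by positivity) h3 2
  have h6 := mul_le_mul_of_nonneg_right (pow_le_pow_left₀ (by positivity) h 3)
    (show 0 ≤ a + b + c + d by positivity)
  linarith

theorem two {a b c d : ℝ} (ha : 0 ≤ a) (hb : 0 ≤ b) (hc : 0 ≤ c) (hd : 0 ≤ d) (_ : a ≤ 1)
    (_ : b ≤ 1) (c1 : c ≤ 1) (d1 : d ≤ 1) (h1 : 6 / 7 ≤ a + b + c + d)
    (h2 : a + b + c + d ≤ 3 / 2) :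
    (1 - a) * (1 - b) * ((1 - c) * (1 - d)) + 21 / 19 * (a * b + c * d) ≤ 6843 / 10000 := by
  obtain ⟨P, hP⟩ : ∃ P, a + b = 2 * P := ⟨(a + b) / 2, by ring⟩
  obtain ⟨Q, hQ⟩ : ∃ Q, c + d = 2 * Q := ⟨(c + d) / 2, by ring⟩
  have e1 : a * b ≤ P ^ 2 := by nlinarith [sq_nonneg (a - b)]
  have e2 : c * d ≤ Q ^ 2 := by nlinarith [sq_nonneg (c - d)]
  have e3 : (1 - a) * (1 - b) ≤ (1 - P) ^ 2 := by nlinarith
  have e4 : (1 - c) * (1 - d) ≤ (1 - Q) ^ 2 := by nlinarith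
  have e5 := mul_le_mul e3 e4 (mul_nonneg (by linarith) (by linarith)) (sq_nonneg _)
  have P0 : 0 ≤ P := by linarith
  have Q0 : 0 ≤ Q := by linarith
  have m0 := mul_nonneg P0 Q0
  have m1 : P * Q ≤ P + Q := by nlinarith
  have e6 := mul_nonneg m0 (show 0 ≤ 2 * (21 / 19) - 2 * (1 - (P + Q)) - P * Q by linarith)
  have e7 := mul_nonneg (show 0 ≤ P + Q - 3 / 7 by linarith) (show 0 ≤ 3 / 4 - (P + Q) by linarith)
  nlinarith

theorem Mn_bad {w0 w1 w2 w3 w4 t0 t1 t2 t3 t4 : ℝ} (l0 : 19 / 100 ≤ w0) (u0 : w0 ≤ 21 / 100)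
    (l1 : 19 / 100 ≤ w1) (u1 : w1 ≤ 21 / 100) (l2 : 19 / 100 ≤ w2) (u2 : w2 ≤ 21 / 100)
    (l3 : 19 / 100 ≤ w3) (u3 : w3 ≤ 21 / 100) (l4 : 19 / 100 ≤ w4) (u4 : w4 ≤ 21 / 100)
    (p0 : 0 ≤ t0) (q0 : t0 ≤ 1) (p1 : 0 ≤ t1) (q1 : t1 ≤ 1) (p2 : 0 ≤ t2) (q2 : t2 ≤ 1)
    (p3 : 0 ≤ t3) (q3 : t3 ≤ 1) (p4 : 0 ≤ t4) (q4 : t4 ≤ 1)
    (s1 : 1 - t1 + t2 + t3 + (1 - t4) ≤ 1 - t2 + t3 + t4 + (1 - t0))
    (s2 : 1 - t1 + t2 + t3 + (1 - t4) ≤ 1 - t3 + t4 + t0 + (1 - t1))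
    (s3 : 1 - t1 + t2 + t3 + (1 - t4) ≤ 1 - t4 + t0 + t1 + (1 - t2))
    (s4 : 1 - t1 + t2 + t3 + (1 - t4) ≤ 1 - t0 + t1 + t2 + (1 - t3))
    (hd : 1 / 25 ≤ w1 * (1 - t1) + w2 * t2 + w3 * t3 + w4 * (1 - t4)) :
    138 / 1000000 + (w1 * (1 - t1) + w2 * t2 + w3 * t3 + w4 * (1 - t4)) / 12000 ≤
      Mn (w0 * t0) (w0 * (1 - t0)) (w1 * t1) (w1 * (1 - t1)) (w2 * t2) (w2 * (1 - t2))
        (w3 * t3) (w3 * (1 - t3)) (w4 * t4) (w4 * (1 - t4)) := by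
  have k0 : 0 ≤ w0 := by linarith
  have k1 : 0 ≤ w1 := by linarith
  have k2 : 0 ≤ w2 := by linarith
  have k3 : 0 ≤ w3 := by linarith
  have k4 : 0 ≤ w4 := by linarith
  have n0 := sub_nonneg.2 q0
  have n1 := sub_nonneg.2 q1
  have n2 := sub_nonneg.2 q2
  have n3 := sub_nonneg.2 q3
  have n4 := sub_nonneg.2 q4
  by_cases c : w1 * (1 - t1) + w2 * t2 + w3 * t3 + w4 * (1 - t4) ≤ 9 / 50
  · refine le_trans ?_ (Mn_small (by positivity) (by positivity) (by positivity) (by positivity)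
      (by positivity) (by positivity) (by positivity) (by positivity) (by positivity)
      (by positivity) (by linarith) (by linarith) (by linarith) (by linarith) (by linarith)
      (by linarith) (by linarith) (by linarith) (by linarith))
    generalize w1 * (1 - t1) + w2 * t2 + w3 * t3 + w4 * (1 - t4) = d at *
    nlinarith [mul_nonneg (sub_nonneg.2 hd) (sub_nonneg.2 c)]
  have d1 := mul_le_mul_of_nonneg_right u1 n1
  have d2 := mul_le_mul_of_nonneg_right u2 p2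
  have d3 := mul_le_mul_of_nonneg_right u3 p3
  have d4 := mul_le_mul_of_nonneg_right u4 n4
  have hX : 130321 / 100000000 ≤ w1 * w2 * w3 * w4 := by
    have := mul_le_mul (lo3 l1 l2 l3) l4 (by norm_num) (by positivity)
    linarith
  have x1 := mul_le_mul_of_nonneg_right (show w0 ≤ 21 / 19 * w1 by linarith)
    (show 0 ≤ w2 * w3 * w4 * (t0 * t2 * (1 - t3) * (1 - t4)) by positivity)
  have x2 := mul_le_mul_of_nonneg_right (show w0 ≤ 21 / 19 * w2 by linarith)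
    (show 0 ≤ w1 * w3 * w4 * ((1 - t0) * t1 * t3 * (1 - t4)) by positivity)
  have x3 := mul_le_mul_of_nonneg_right (show w0 ≤ 21 / 19 * w3 by linarith)
    (show 0 ≤ w1 * w2 * w4 * ((1 - t0) * (1 - t1) * t2 * t4) by positivity)
  have x4 := mul_le_mul_of_nonneg_right (show w0 ≤ 21 / 19 * w4 by linarith)
    (show 0 ≤ w1 * w2 * w3 * (t0 * (1 - t1) * (1 - t2) * t3) by positivity)
  have pz : ∀ w t : ℝ, 0 ≤ w → w ≤ 21 / 100 → 0 ≤ t → t ≤ 1 →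
      (w * t) ^ 2 * (w * (1 - t)) ^ 2 ≤ 194481 / 1600000000 := by
    intro w t a b c d
    have h1 : t * (1 - t) ≤ 1 / 4 := by nlinarith [sq_nonneg (2 * t - 1)]
    have h2 := mul_le_mul (hi2 a a b b) h1 (mul_nonneg c (by linarith)) (by norm_num)
    have h3 := pow_le_pow_left₀ (mul_nonneg (mul_nonneg a a) (mul_nonneg c (by linarith))) h2 2
    linarith
  have z1 := pz w1 t1 k1 u1 p1 q1
  have z2 := pz w2 t2 k2 u2 p2 q2
  have z3 := pz w3 t3 k3 u3 p3 q3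
  have z4 := pz w4 t4 k4 u4 p4 q4
  have fin : ∀ K : ℝ, K ≤ 1 → t1 * (1 - t2) * (1 - t3) * t4 + 21 / 19 *
      (t0 * t2 * (1 - t3) * (1 - t4) + (1 - t0) * t1 * t3 * (1 - t4) +
        (1 - t0) * (1 - t1) * t2 * t4 + t0 * (1 - t1) * (1 - t2) * t3) ≤ K →
      130321 / 100000000 * (1 - K) - 194481 / 800000000 ≤
      Mn (w0 * t0) (w0 * (1 - t0)) (w1 * t1) (w1 * (1 - t1)) (w2 * t2) (w2 * (1 - t2))
        (w3 * t3) (w3 * (1 - t3)) (w4 * t4) (w4 * (1 - t4)) := by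
    intro K hK h
    have y1 := mul_le_mul_of_nonneg_left h (show 0 ≤ w1 * w2 * w3 * w4 by positivity)
    have y2 := mul_le_mul_of_nonneg_right hX (sub_nonneg.2 hK)
    unfold Mn
    linarith
  by_cases c2 : 1 - t1 + t2 + t3 + (1 - t4) ≤ 3 / 2
  · refine le_trans (by linarith) (fin (6843 / 10000) (by norm_num) ?_)
    have g1 := mul_le_mul_of_nonneg_left (two p2 n4 n1 p3 q2 (by linarith) (by linarith) q3
      (by linarith) (by linarith)) p0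
    have g2 := mul_le_mul_of_nonneg_left (two p3 n4 n1 p2 q3 (by linarith) (by linarith) q2
      (by linarith) (by linarith)) n0
    have g3 : 0 ≤ t0 * t2 * t3 * (1 - t4) := by positivity
    have g4 : 0 ≤ (1 - t0) * (1 - t1) * t3 * (1 - t4) := by positivity
    have g5 : 0 ≤ (1 - t0) * (1 - t1) * t2 * (1 - t4) := by positivity
    have g6 : 0 ≤ t0 * (1 - t1) * t2 * t3 := by positivity
    linarith
  · refine le_trans (by linarith) (fin (6747 / 10000) (by norm_num) ?_)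
    have g0 := am4 p1 n2 n3 p4 (by linarith)
    have g1 := am4 p0 p2 n3 n4 (by linarith)
    have g2 := am4 n0 p1 p3 n4 (by linarith)
    have g3 := am4 n0 n1 p2 p4 (by linarith)
    have g4 := am4 p0 n1 n2 p3 (by linarith)
    have g5 : 0 ≤ t1 * (1 - t2) * (1 - t3) * t4 := by positivity
    linarith

end Pool.Agent.Lib.MP_49b2f4_co.N7
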