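import Pool.Agent.Lib.MP_49b2f4_co.N7.Rep

/-! Pointwise bounds for the five-cycles gained and lost when one vertex is repaired. -/

namespace Pool.Agent.Lib.MP_49b2f4_co.N7

open Finset

def tb (N : ℕ) (a b : Fin 5) : Fin 5 := Fin.ofNat 5 (N / 5 ^ (5 * a.1 + b.1))

section
variable {V : Type} (A : V → V → Bool) (c : V → Fin 5) (ω : V → Bool) (v : V)

def nb (u : V) : ℝ := r (A v u)
def nc (u : V) : ℝ := r (!A v u)
def ee (s t : V) : ℝ := r (A s t)
def ec (s t : V) : ℝ := r (!A s t)
def de (s t : V) : ℝ := r (D A c s t)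
def X (j : Fin 5) (u : V) : ℝ := r (ω u) * r (c u == j)
def al (j : Fin 5) (u : V) : ℝ := X c ω j u * nb A v u
def be (j : Fin 5) (u : V) : ℝ := X c ω j u * nc A v u
def dw (s t : V) : ℝ := r (ω s) * r (ω t) * de A c s t
def S1 (a b d e : V) : ℝ := X c ω 1 a * X c ω 2 b * X c ω 3 d * X c ω 4 e
def S6 (a b d e : V) : ℝ :=
  de A c a b + de A c a d + de A c a e + de A c b d + de A c b e + de A c d e
def Lo (a b d e : V) : ℝ := X c ω 1 a * X c ω 2 b * X c ω 3 d * X c ω 4 e -
  al A c ω v 1 a * be A c ω v 2 b * be A c ω v 3 d * al A c ω v 4 e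
def Gs (a b d e : V) : ℝ :=
    al A c ω v 2 a * be A c ω v 3 b * be A c ω v 4 d * al A c ω v 0 e +
    al A c ω v 0 a * be A c ω v 4 b * be A c ω v 3 d * al A c ω v 2 e +
    al A c ω v 3 a * be A c ω v 4 b * be A c ω v 0 d * al A c ω v 1 e +
    al A c ω v 1 a * be A c ω v 0 b * be A c ω v 4 d * al A c ω v 3 e +
    al A c ω v 4 a * be A c ω v 0 b * be A c ω v 1 d * al A c ω v 2 e +
    al A c ω v 2 a * be A c ω v 1 b * be A c ω v 0 d * al A c ω v 4 e +
    al A c ω v 0 a * be A c ω v 1 b * be A c ω v 2 d * al A c ω v 3 e +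
    al A c ω v 3 a * be A c ω v 2 b * be A c ω v 1 d * al A c ω v 0 e +
    al A c ω v 1 a * be A c ω v 1 b * be A c ω v 1 d * al A c ω v 1 e +
    al A c ω v 2 a * be A c ω v 2 b * be A c ω v 2 d * al A c ω v 2 e +
    al A c ω v 3 a * be A c ω v 3 b * be A c ω v 3 d * al A c ω v 3 e +
    al A c ω v 4 a * be A c ω v 4 b * be A c ω v 4 d * al A c ω v 4 e
def q12 (s t : V) : ℝ := nb A v s * nc A v t * ee A s t
def q13 (s t : V) : ℝ := nb A v s * nc A v t * ec A s t
def q14 (s t : V) : ℝ := nb A v s * nb A v t * ec A s t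
def q21 (s t : V) : ℝ := nc A v s * nb A v t * ee A s t
def q23 (s t : V) : ℝ := nc A v s * nc A v t * ee A s t
def q24 (s t : V) : ℝ := nc A v s * nb A v t * ec A s t
def q34 (s t : V) : ℝ := nc A v s * nb A v t * ee A s t
def xd (i j : Fin 5) (s t : V) : ℝ := X c ω i s * X c ω j t * de A c s t
def E1 (a b d e : V) : ℝ :=
    xd A c ω 1 2 a b * X c ω 3 d * X c ω 4 e +
    xd A c ω 1 3 a d * X c ω 2 b * X c ω 4 e +
    xd A c ω 1 4 a e * X c ω 2 b * X c ω 3 d +
    xd A c ω 2 3 b d * X c ω 1 a * X c ω 4 e +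
    xd A c ω 2 4 b e * X c ω 1 a * X c ω 3 d +
    xd A c ω 3 4 d e * X c ω 1 a * X c ω 2 b
def E2 (a b d e : V) : ℝ :=
    dw A c ω a b * q12 A v a b * nc A v d * nb A v e +
    dw A c ω a d * q13 A v a d * nc A v b * nb A v e +
    dw A c ω a e * q14 A v a e * ee A a b * ec A a d +
    dw A c ω b d * q23 A v b d * ee A b a * ec A b e +
    dw A c ω b e * q24 A v b e * nb A v a * nc A v d +
    dw A c ω d e * q34 A v d e * nb A v a * nc A v b
def E3 (a b d e : V) : ℝ :=
    r (!ω a) * nb A v a * (nc A v b * ee A a b) * (nc A v d * ec A a d) * (nb A v e * ec A a e) +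
    r (!ω b) * nc A v b * (nb A v a * ee A b a) * (nc A v d * ee A b d) * (nb A v e * ec A b e) +
    r (!ω d) * nc A v d * (nb A v a * ec A d a) * (nc A v b * ee A d b) * (nb A v e * ee A d e) +
    r (!ω e) * nb A v e * (nb A v a * ec A e a) * (nc A v b * ec A e b) * (nc A v d * ee A e d)
def G1 (a b d e : V) : ℝ :=
    de A c v a * xd A c ω 1 2 a b * X c ω 3 d * X c ω 4 e +
    de A c v a * xd A c ω 1 3 a d * X c ω 2 b * X c ω 4 e +
    de A c v a * xd A c ω 1 4 a e * X c ω 2 b * X c ω 3 d +
    de A c v b * xd A c ω 2 1 b a * X c ω 3 d * X c ω 4 e +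
    de A c v b * xd A c ω 2 3 b d * X c ω 1 a * X c ω 4 e +
    de A c v b * xd A c ω 2 4 b e * X c ω 1 a * X c ω 3 d +
    de A c v d * xd A c ω 3 1 d a * X c ω 2 b * X c ω 4 e +
    de A c v d * xd A c ω 3 2 d b * X c ω 1 a * X c ω 4 e +
    de A c v d * xd A c ω 3 4 d e * X c ω 1 a * X c ω 2 b +
    de A c v e * xd A c ω 4 1 e a * X c ω 2 b * X c ω 3 d +
    de A c v e * xd A c ω 4 2 e b * X c ω 1 a * X c ω 3 d +
    de A c v e * xd A c ω 4 3 e d * X c ω 1 a * X c ω 2 b +
    de A c v a * X c ω 1 a * xd A c ω 2 3 b d * X c ω 4 e +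
    de A c v a * X c ω 1 a * xd A c ω 2 4 b e * X c ω 3 d +
    de A c v a * X c ω 1 a * xd A c ω 3 4 d e * X c ω 2 b +
    de A c v b * X c ω 2 b * xd A c ω 1 3 a d * X c ω 4 e +
    de A c v b * X c ω 2 b * xd A c ω 1 4 a e * X c ω 3 d +
    de A c v b * X c ω 2 b * xd A c ω 3 4 d e * X c ω 1 a +
    de A c v d * X c ω 3 d * xd A c ω 1 2 a b * X c ω 4 e +
    de A c v d * X c ω 3 d * xd A c ω 1 4 a e * X c ω 2 b +
    de A c v d * X c ω 3 d * xd A c ω 2 4 b e * X c ω 1 a +
    de A c v e * X c ω 4 e * xd A c ω 1 2 a b * X c ω 3 d +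
    de A c v e * X c ω 4 e * xd A c ω 1 3 a d * X c ω 2 b +
    de A c v e * X c ω 4 e * xd A c ω 2 3 b d * X c ω 1 a
def G2 (a b d e : V) : ℝ :=
    de A c v a * de A c a b * q12 A v a b * r (c d == tb 0 (c a) (c b)) * r (c e == tb 24414062500 (c a) (c b)) +
    de A c v a * de A c a d * q13 A v a d * r (c b == tb 2291259765625 (c a) (c d)) * r (c e == tb 767822265625 (c a) (c d)) +
    de A c v a * de A c a e * q14 A v a e * r (c b == tb 38150781250000 (c a) (c e)) * r (c d == tb 57222998046875 (c a) (c e)) +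
    de A c v b * de A c b a * q21 A v b a * r (c d == tb 1430511478515625 (c b) (c a)) * r (c e == tb 1907348635156250 (c b) (c a)) +
    de A c v b * de A c b d * q23 A v b d * r (c a == tb 9536743166406250 (c b) (c d)) * r (c e == tb 2384185800390625 (c b) (c d)) +
    de A c v b * de A c b e * q24 A v b e * r (c a == tb 0 (c b) (c e)) * r (c d == tb 35762786865390625 (c b) (c e)) +
    de A c v a * nb A v a * (de A c b d * q23 A v b d) * 1 +
    de A c v a * nb A v a * (de A c b e * q24 A v b e) * 1 +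
    de A c v a * nb A v a * (de A c d e * q34 A v d e) * 1 +
    de A c v b * nc A v b * (de A c a d * q13 A v a d) * 1 +
    de A c v b * nc A v b * (de A c a e * q14 A v a e) * 1 +
    de A c v b * nc A v b * (de A c d e * q34 A v d e) * 1

end

theorem factB : ∀ (a b d e : Fin 5) (o1 o2 o3 o4 : Bool),
    (dd 0 a true || dd 0 b false || dd 0 d false || dd 0 e true) = true → 1 ≤
    (o1.toNat * (a == 2).toNat) * (o2.toNat * (b == 3).toNat) * (o3.toNat * (d == 4).toNat) * (o4.toNat * (e == 0).toNat) +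
    (o1.toNat * (a == 0).toNat) * (o2.toNat * (b == 4).toNat) * (o3.toNat * (d == 3).toNat) * (o4.toNat * (e == 2).toNat) +
    (o1.toNat * (a == 3).toNat) * (o2.toNat * (b == 4).toNat) * (o3.toNat * (d == 0).toNat) * (o4.toNat * (e == 1).toNat) +
    (o1.toNat * (a == 1).toNat) * (o2.toNat * (b == 0).toNat) * (o3.toNat * (d == 4).toNat) * (o4.toNat * (e == 3).toNat) +
    (o1.toNat * (a == 4).toNat) * (o2.toNat * (b == 0).toNat) * (o3.toNat * (d == 1).toNat) * (o4.toNat * (e == 2).toNat) +
    (o1.toNat * (a == 2).toNat) * (o2.toNat * (b == 1).toNat) * (o3.toNat * (d == 0).toNat) * (o4.toNat * (e == 4).toNat) +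
    (o1.toNat * (a == 0).toNat) * (o2.toNat * (b == 1).toNat) * (o3.toNat * (d == 2).toNat) * (o4.toNat * (e == 3).toNat) +
    (o1.toNat * (a == 3).toNat) * (o2.toNat * (b == 2).toNat) * (o3.toNat * (d == 1).toNat) * (o4.toNat * (e == 0).toNat) +
    (o1.toNat * (a == 1).toNat) * (o2.toNat * (b == 1).toNat) * (o3.toNat * (d == 1).toNat) * (o4.toNat * (e == 1).toNat) +
    (o1.toNat * (a == 2).toNat) * (o2.toNat * (b == 2).toNat) * (o3.toNat * (d == 2).toNat) * (o4.toNat * (e == 2).toNat) +
    (o1.toNat * (a == 3).toNat) * (o2.toNat * (b == 3).toNat) * (o3.toNat * (d == 3).toNat) * (o4.toNat * (e == 3).toNat) +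
    (o1.toNat * (a == 4).toNat) * (o2.toNat * (b == 4).toNat) * (o3.toNat * (d == 4).toNat) * (o4.toNat * (e == 4).toNat) +
    (o1.toNat * o2.toNat * (dd a b true).toNat +
    o1.toNat * o3.toNat * (dd a d false).toNat +
    o1.toNat * o4.toNat * (dd a e false).toNat +
    o2.toNat * o3.toNat * (dd b d true).toNat +
    o2.toNat * o4.toNat * (dd b e false).toNat +
    o3.toNat * o4.toNat * (dd d e true).toNat) +
    ((!o1).toNat + (!o2).toNat + (!o3).toNat + (!o4).toNat) := by
  decide +kernel

theorem factG : ∀ a b d e : Fin 5,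
    (dd 0 a true || dd 0 b false || dd 0 d false || dd 0 e true) = true → 1 ≤
    (a == 2).toNat * (b == 3).toNat * (d == 4).toNat * (e == 0).toNat +
    (a == 0).toNat * (b == 4).toNat * (d == 3).toNat * (e == 2).toNat +
    (a == 3).toNat * (b == 4).toNat * (d == 0).toNat * (e == 1).toNat +
    (a == 1).toNat * (b == 0).toNat * (d == 4).toNat * (e == 3).toNat +
    (a == 4).toNat * (b == 0).toNat * (d == 1).toNat * (e == 2).toNat +
    (a == 2).toNat * (b == 1).toNat * (d == 0).toNat * (e == 4).toNat +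
    (a == 0).toNat * (b == 1).toNat * (d == 2).toNat * (e == 3).toNat +
    (a == 3).toNat * (b == 2).toNat * (d == 1).toNat * (e == 0).toNat +
    (a == 1).toNat * (b == 1).toNat * (d == 1).toNat * (e == 1).toNat +
    (a == 2).toNat * (b == 2).toNat * (d == 2).toNat * (e == 2).toNat +
    (a == 3).toNat * (b == 3).toNat * (d == 3).toNat * (e == 3).toNat +
    (a == 4).toNat * (b == 4).toNat * (d == 4).toNat * (e == 4).toNat +
    ((dd 0 a true).toNat * (dd a b true).toNat * (d == tb 0 a b).toNat * (e == tb 24414062500 a b).toNat +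
    (dd 0 a true).toNat * (dd a d false).toNat * (b == tb 2291259765625 a d).toNat * (e == tb 767822265625 a d).toNat +
    (dd 0 a true).toNat * (dd a e false).toNat * (b == tb 38150781250000 a e).toNat * (d == tb 57222998046875 a e).toNat +
    (dd 0 b false).toNat * (dd b a true).toNat * (d == tb 1430511478515625 b a).toNat * (e == tb 1907348635156250 b a).toNat +
    (dd 0 b false).toNat * (dd b d true).toNat * (a == tb 9536743166406250 b d).toNat * (e == tb 2384185800390625 b d).toNat +
    (dd 0 b false).toNat * (dd b e false).toNat * (a == tb 0 b e).toNat * (d == tb 35762786865390625 b e).toNat +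
    (dd 0 a true).toNat * (dd b d true).toNat +
    (dd 0 a true).toNat * (dd b e false).toNat +
    (dd 0 a true).toNat * (dd d e true).toNat +
    (dd 0 b false).toNat * (dd a d false).toNat +
    (dd 0 b false).toNat * (dd a e false).toNat +
    (dd 0 b false).toNat * (dd d e true).toNat) +
    ((dd 0 e true).toNat * (dd e d true).toNat * (b == tb 0 e d).toNat * (a == tb 24414062500 e d).toNat +
    (dd 0 e true).toNat * (dd e b false).toNat * (d == tb 2291259765625 e b).toNat * (a == tb 767822265625 e b).toNat +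
    (dd 0 e true).toNat * (dd e a false).toNat * (d == tb 38150781250000 e a).toNat * (b == tb 57222998046875 e a).toNat +
    (dd 0 d false).toNat * (dd d e true).toNat * (b == tb 1430511478515625 d e).toNat * (a == tb 1907348635156250 d e).toNat +
    (dd 0 d false).toNat * (dd d b true).toNat * (e == tb 9536743166406250 d b).toNat * (a == tb 2384185800390625 d b).toNat +
    (dd 0 d false).toNat * (dd d a false).toNat * (e == tb 0 d a).toNat * (b == tb 35762786865390625 d a).toNat +
    (dd 0 e true).toNat * (dd d b true).toNat +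
    (dd 0 e true).toNat * (dd d a false).toNat +
    (dd 0 e true).toNat * (dd b a true).toNat +
    (dd 0 d false).toNat * (dd e b false).toNat +
    (dd 0 d false).toNat * (dd e a false).toNat +
    (dd 0 d false).toNat * (dd b a true).toNat) := by
  decide +kernel

theorem factS : ∀ (a b d e : Fin 5) (o1 o2 o3 o4 : Bool),
    o1.toNat * (a == 1).toNat * (o2.toNat * (b == 2).toNat) * (o3.toNat * (d == 3).toNat) *
      (o4.toNat * (e == 4).toNat) +
    o4.toNat * (e == 1).toNat * (o3.toNat * (d == 2).toNat) * (o2.toNat * (b == 3).toNat) *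
      (o1.toNat * (a == 4).toNat) ≤ stN 0 a b d e := by decide +kernel

theorem factL : ∀ (a : Fin 5) (n : Bool), dd 0 a n = false →
    (a == 1).toNat * n.toNat = (a == 1).toNat ∧ (a == 2).toNat * (!n).toNat = (a == 2).toNat ∧
    (a == 3).toNat * (!n).toNat = (a == 3).toNat ∧ (a == 4).toNat * n.toNat = (a == 4).toNat := by
  decide

section
variable {V : Type} {A : V → V → Bool} {c : V → Fin 5} (ω : V → Bool) {v : V}

theorem X_nn (j : Fin 5) (u : V) : 0 ≤ X c ω j u := mul_nonneg (r_nn _) (r_nn _)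
theorem al_nn (j : Fin 5) (u : V) : 0 ≤ al A c ω v j u := mul_nonneg (X_nn _ _ _) (r_nn _)
theorem be_nn (j : Fin 5) (u : V) : 0 ≤ be A c ω v j u := mul_nonneg (X_nn _ _ _) (r_nn _)
theorem al_be (j : Fin 5) (u : V) : X c ω j u = al A c ω v j u + be A c ω v j u := by
  unfold al be nb nc; rw [r_not]; ring

theorem Lo_le (a b d e : V) : Lo A c ω v a b d e ≤ S1 c ω a b d e :=
  sub_le_self _ (mul_nonneg (mul_nonneg (mul_nonneg (al_nn _ _ _) (be_nn _ _ _)) (be_nn _ _ _))
    (al_nn _ _ _))

theorem Lo_zero (hv : c v = 0) {a b d e : V} (ha : D A c v a = false) (hb : D A c v b = false)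
    (hd : D A c v d = false) (he : D A c v e = false) : Lo A c ω v a b d e = 0 := by
  unfold D at ha hb hd he
  rw [hv] at ha hb hd he
  have h1 : r (c a == 1) * r (A v a) = r (c a == 1) := by
    simp only [r_nat]; exact_mod_cast (factL _ _ ha).1
  have h2 : r (c b == 2) * r (!A v b) = r (c b == 2) := by
    simp only [r_nat]; exact_mod_cast (factL _ _ hb).2.1
  have h3 : r (c d == 3) * r (!A v d) = r (c d == 3) := by
    simp only [r_nat]; exact_mod_cast (factL _ _ hd).2.2.1
  have h4 : r (c e == 4) * r (A v e) = r (c e == 4) := by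
    simp only [r_nat]; exact_mod_cast (factL _ _ he).2.2.2
  simp only [Lo, al, be, X, nb, nc, mul_assoc, h1, h2, h3, h4, sub_self]

theorem S1_nn (a b d e : V) : 0 ≤ S1 c ω a b d e := by
  simp only [S1, X, r_nat]; positivity
theorem S6_nn (a b d e : V) : 0 ≤ S6 A c a b d e := by
  simp only [S6, de, r_nat]; positivity
theorem Gs_nn (a b d e : V) : 0 ≤ Gs A c ω v a b d e := by
  simp only [Gs, al, be, X, nb, nc, r_nat]; positivity
theorem E2_nn (a b d e : V) : 0 ≤ E2 A c ω v a b d e := by
  simp only [E2, dw, de, q12, q13, q14, q23, q24, q34, nb, nc, ee, ec, r_nat]; positivity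
theorem E3_nn (a b d e : V) : 0 ≤ E3 A ω v a b d e := by
  simp only [E3, nb, nc, ee, ec, r_nat]; positivity
theorem G2_nn (a b d e : V) : 0 ≤ G2 A c v a b d e := by
  simp only [G2, de, q12, q13, q14, q21, q23, q24, q34, nb, nc, ee, ec, r_nat]; positivity

theorem S6_rev (hA : Gr A) (a b d e : V) : S6 A c e d b a = S6 A c a b d e := by
  simp only [S6, de, D_symm hA c e, D_symm hA c d b, D_symm hA c d a, D_symm hA c b a]; ring

theorem E1_eq (a b d e : V) : E1 A c ω a b d e = S1 c ω a b d e * S6 A c a b d e := by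
  simp only [E1, S1, S6, xd]; ring

theorem G1_eq (hA : Gr A) (a b d e : V) : G1 A c ω v a b d e = S1 c ω a b d e * S6 A c a b d e *
    (de A c v a + de A c v b + de A c v d + de A c v e) := by
  simp only [G1, S1, S6, xd, de, D_symm hA c e, D_symm hA c d b, D_symm hA c d a, D_symm hA c b a]
  ring

theorem gainB (hA : Gr A) (hv : c v = 0) {a b d e : V}
    (h : (D A c v a || D A c v b || D A c v d || D A c v e) = true) :
    pi A v a b d e ≤ Gs A c ω v a b d e + E2 A c ω v a b d e + E3 A ω v a b d e := by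
  unfold pi
  split_ifs with hp
  · obtain ⟨p1, p2, p3, p4, p5, p6, p7, p8, p9, p10⟩ := hp
    rw [hA.symm] at p5
    simp only [D, hv, p1, p5, p6, p7] at h
    simp only [Gs, E2, E3, al, be, X, dw, de, D, q12, q13, q14, q23, q24, q34, nb, nc, ee, ec, p1,
      p2, p3, p4, p5, p6, p7, p8, p9, p10, hA.symm b a, hA.symm d a, hA.symm e a, hA.symm d b,
      hA.symm e b, hA.symm e d, Bool.not_false, r_true, mul_one]
    simp only [r_nat]
    exact_mod_cast factB _ _ _ _ (ω a) (ω b) (ω d) (ω e) h
  · have := Gs_nn (A := A) (c := c) ω (v := v) a b d e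
    have := E2_nn (A := A) (c := c) ω (v := v) a b d e
    have := E3_nn (A := A) ω (v := v) a b d e
    linarith

theorem gainG (hA : Gr A) (hv : c v = 0) {a b d e : V}
    (h : (D A c v a || D A c v b || D A c v d || D A c v e) = true) :
    pi A v a b d e ≤ Gs A c (fun _ => true) v a b d e + G2 A c v a b d e + G2 A c v e d b a := by
  unfold pi
  split_ifs with hp
  · obtain ⟨p1, p2, p3, p4, p5, p6, p7, p8, p9, p10⟩ := hp
    rw [hA.symm] at p5
    simp only [D, hv, p1, p5, p6, p7] at h
    simp only [Gs, G2, al, be, X, de, D, hv, q12, q13, q14, q21, q23, q24, q34, nb, nc, ee, ec, p1,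
      p2, p3, p4, p5, p6, p7, p8, p9, p10, hA.symm b a, hA.symm d a, hA.symm e a, hA.symm d b,
      hA.symm e b, hA.symm e d, Bool.not_false, r_true, mul_one, one_mul]
    simp only [r_nat]
    exact_mod_cast factG _ _ _ _ h
  · have := Gs_nn (A := A) (c := c) (fun _ => true) (v := v) a b d e
    have := G2_nn (A := A) (c := c) (v := v) a b d e
    have := G2_nn (A := A) (c := c) (v := v) e d b a
    linarith

variable [DecidableEq V]

theorem D_sing (s t : V) (h : D A c s t = false ∨ s = v ∨ t = v) :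
    D (rep (sing v) A c) c s t = false := by
  rw [D_rep]
  rcases h with h | h | h <;> simp [h, sing]

theorem lossA (hA : Gr A) {a b d e : V} (ha : D A c v a = false) (hb : D A c v b = false)
    (hd : D A c v d = false) (he : D A c v e = false) :
    pi (rep (sing v) A c) v a b d e = pi A v a b d e := by
  have key : ∀ s t, D A c v s = false → D A c v t = false → rep (sing v) A c s t = A s t := by
    intro s t hs ht
    by_cases c1 : s = v
    · subst c1; exact rep_clean _ ht
    by_cases c2 : t = v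
    · subst c2; exact rep_clean _ (by rw [D_symm hA]; exact hs)
    · exact rep_off (by simp [sing, c1]) (by simp [sing, c2])
  have h0 : D A c v v = false := D_self v
  exact if_congr (by
    unfold pat
    rw [key _ _ h0 ha, key _ _ ha hb, key _ _ hb hd, key _ _ hd he, key _ _ he h0, key _ _ h0 hb,
      key _ _ h0 hd, key _ _ ha hd, key _ _ ha he, key _ _ hb he]) rfl rfl

theorem lossB (hv : c v = 0) (a b d e : V) :
    (S1 c ω a b d e + S1 c ω e d b a) * (1 - S6 A c a b d e) ≤ pi (rep (sing v) A c) v a b d e := by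
  by_cases h : D A c a b = false ∧ D A c a d = false ∧ D A c a e = false ∧ D A c b d = false ∧
      D A c b e = false ∧ D A c d e = false
  · obtain ⟨h1, h2, h3, h4, h5, h6⟩ := h
    rw [pi_clean (c := c) (D_sing _ _ (by simp)) (D_sing _ _ (Or.inl h1)) (D_sing _ _ (Or.inl h4))
      (D_sing _ _ (Or.inl h6)) (D_sing _ _ (by simp)) (D_sing _ _ (by simp)) (D_sing _ _ (by simp))
      (D_sing _ _ (Or.inl h2)) (D_sing _ _ (Or.inl h3)) (D_sing _ _ (Or.inl h5)), hv]
    have e1 : S6 A c a b d e = 0 := by simp [S6, de, h1, h2, h3, h4, h5, h6]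
    have e2 : S1 c ω a b d e + S1 c ω e d b a ≤ stN 0 (c a) (c b) (c d) (c e) := by
      simp only [S1, X, r_nat]
      exact_mod_cast factS _ _ _ _ (ω a) (ω b) (ω d) (ω e)
    have := mul_nonneg (Nat.cast_nonneg (α := ℝ) (csN 0 (c a) (c b) (c d) (c e)))
      (pi_nn (rep (sing v) A c) v a b d e)
    rw [e1]; linarith
  · refine le_trans (mul_nonpos_of_nonneg_of_nonpos (add_nonneg (S1_nn _ _ _ _ _) (S1_nn _ _ _ _ _))
      ?_) (pi_nn _ _ _ _ _ _)
    have : ∀ x1 x2 x3 x4 x5 x6 : Bool, ¬ (x1 = false ∧ x2 = false ∧ x3 = false ∧ x4 = false ∧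
      x5 = false ∧ x6 = false) →
      1 ≤ x1.toNat + x2.toNat + x3.toNat + x4.toNat + x5.toNat + x6.toNat := by decide
    have h2 := this _ _ _ _ _ _ h
    simp only [S6, de, r_nat, sub_nonpos]
    exact_mod_cast h2

theorem ptB (hA : Gr A) (hv : c v = 0) (a b d e : V) :
    Lo A c ω v a b d e + Lo A c ω v e d b a - Gs A c ω v a b d e - E1 A c ω a b d e -
      E1 A c ω e d b a - E2 A c ω v a b d e - E3 A ω v a b d e ≤
      pi (rep (sing v) A c) v a b d e - pi A v a b d e := by
  rw [E1_eq, E1_eq, S6_rev hA a b d e]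
  cases h : (D A c v a || D A c v b || D A c v d || D A c v e)
  · simp only [Bool.or_eq_false_iff] at h
    obtain ⟨⟨⟨ha, hb⟩, hd⟩, he⟩ := h
    rw [lossA hA ha hb hd he, Lo_zero ω hv ha hb hd he, Lo_zero ω hv he hd hb ha]
    have := Gs_nn (A := A) (c := c) ω (v := v) a b d e
    have := E2_nn (A := A) (c := c) ω (v := v) a b d e
    have := E3_nn (A := A) ω (v := v) a b d e
    have := mul_nonneg (S1_nn (c := c) ω a b d e) (S6_nn (A := A) (c := c) a b d e)
    have := mul_nonneg (S1_nn (c := c) ω e d b a) (S6_nn (A := A) (c := c) a b d e)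
    linarith
  · have := gainB ω hA hv h
    have := lossB (A := A) ω hv a b d e
    have := Lo_le (A := A) (c := c) ω (v := v) a b d e
    have := Lo_le (A := A) (c := c) ω (v := v) e d b a
    linarith

theorem ptG (hA : Gr A) (hv : c v = 0) (a b d e : V) :
    Lo A c (fun _ => true) v a b d e + Lo A c (fun _ => true) v e d b a -
      Gs A c (fun _ => true) v a b d e - G1 A c (fun _ => true) v a b d e -
      G1 A c (fun _ => true) v e d b a - G2 A c v a b d e - G2 A c v e d b a ≤
      pi (rep (sing v) A c) v a b d e - pi A v a b d e := by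
  rw [G1_eq _ hA, G1_eq _ hA, S6_rev hA a b d e]
  have s1 := mul_nonneg (S1_nn (c := c) (fun _ => true) a b d e) (S6_nn (A := A) (c := c) a b d e)
  have s2 := mul_nonneg (S1_nn (c := c) (fun _ => true) e d b a) (S6_nn (A := A) (c := c) a b d e)
  cases h : (D A c v a || D A c v b || D A c v d || D A c v e)
  · simp only [Bool.or_eq_false_iff] at h
    obtain ⟨⟨⟨ha, hb⟩, hd⟩, he⟩ := h
    rw [lossA hA ha hb hd he, Lo_zero _ hv ha hb hd he, Lo_zero _ hv he hd hb ha]
    have := Gs_nn (A := A) (c := c) (fun _ => true) (v := v) a b d e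
    have := G2_nn (A := A) (c := c) (v := v) a b d e
    have := G2_nn (A := A) (c := c) (v := v) e d b a
    simp only [de, ha, hb, hd, he, r_false]
    linarith
  · have := gainG hA hv h
    have := lossB (A := A) (fun _ => true) hv a b d e
    have := Lo_le (A := A) (c := c) (fun _ => true) (v := v) a b d e
    have := Lo_le (A := A) (c := c) (fun _ => true) (v := v) e d b a
    have z : 1 ≤ de A c v a + de A c v b + de A c v d + de A c v e := by
      have : ∀ x1 x2 x3 x4 : Bool, (x1 || x2 || x3 || x4) = true →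
        1 ≤ x1.toNat + x2.toNat + x3.toNat + x4.toNat := by decide
      simp only [de, r_nat]
      exact_mod_cast this _ _ _ _ h
    have := mul_le_mul_of_nonneg_left z s1
    have := mul_le_mul_of_nonneg_left z s2
    linarith

end

end Pool.Agent.Lib.MP_49b2f4_co.N7
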