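import Pool.Agent.Lib.MP_49b2f4_co.N7.W

/-! Repairing the pairs at a set of vertices. -/

namespace Pool.Agent.Lib.MP_49b2f4_co.N7

open Finset

section
variable {V : Type} [Fintype V] {w : V → ℝ}

theorem K2_12 (hw : ∀ v, 0 ≤ w v) (g : V → V → ℝ) (h k : V → V → V → ℝ) {K : ℝ}
    (hg : ∀ a b, 0 ≤ g a b) (hK : ∀ a b, I w (h a b) * I w (k a b) ≤ K) :
    I4 w (fun a b c d => g a b * h a b c * k a b d) ≤ K * I2 w g :=
  (p0123 w (fun a b c d => g a b * h a b c * k a b d)).trans_le (K2 hw hg hK)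

theorem K2_13 (hw : ∀ v, 0 ≤ w v) (g : V → V → ℝ) (h k : V → V → V → ℝ) {K : ℝ}
    (hg : ∀ a b, 0 ≤ g a b) (hK : ∀ a b, I w (h a b) * I w (k a b) ≤ K) :
    I4 w (fun a b c d => g a c * h a c b * k a c d) ≤ K * I2 w g :=
  (p0213 w (fun a b c d => g a b * h a b c * k a b d)).trans_le (K2 hw hg hK)

theorem K2_14 (hw : ∀ v, 0 ≤ w v) (g : V → V → ℝ) (h k : V → V → V → ℝ) {K : ℝ}
    (hg : ∀ a b, 0 ≤ g a b) (hK : ∀ a b, I w (h a b) * I w (k a b) ≤ K) :
    I4 w (fun a b c d => g a d * h a d b * k a d c) ≤ K * I2 w g :=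
  (p0312 w (fun a b c d => g a b * h a b c * k a b d)).trans_le (K2 hw hg hK)

theorem K2_21 (hw : ∀ v, 0 ≤ w v) (g : V → V → ℝ) (h k : V → V → V → ℝ) {K : ℝ}
    (hg : ∀ a b, 0 ≤ g a b) (hK : ∀ a b, I w (h a b) * I w (k a b) ≤ K) :
    I4 w (fun a b c d => g b a * h b a c * k b a d) ≤ K * I2 w g :=
  (p1023 w (fun a b c d => g a b * h a b c * k a b d)).trans_le (K2 hw hg hK)

theorem K2_23 (hw : ∀ v, 0 ≤ w v) (g : V → V → ℝ) (h k : V → V → V → ℝ) {K : ℝ}
    (hg : ∀ a b, 0 ≤ g a b) (hK : ∀ a b, I w (h a b) * I w (k a b) ≤ K) :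
    I4 w (fun a b c d => g b c * h b c a * k b c d) ≤ K * I2 w g :=
  (p1203 w (fun a b c d => g a b * h a b c * k a b d)).trans_le (K2 hw hg hK)

theorem K2_24 (hw : ∀ v, 0 ≤ w v) (g : V → V → ℝ) (h k : V → V → V → ℝ) {K : ℝ}
    (hg : ∀ a b, 0 ≤ g a b) (hK : ∀ a b, I w (h a b) * I w (k a b) ≤ K) :
    I4 w (fun a b c d => g b d * h b d a * k b d c) ≤ K * I2 w g :=
  (p1302 w (fun a b c d => g a b * h a b c * k a b d)).trans_le (K2 hw hg hK)

theorem K2_31 (hw : ∀ v, 0 ≤ w v) (g : V → V → ℝ) (h k : V → V → V → ℝ) {K : ℝ}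
    (hg : ∀ a b, 0 ≤ g a b) (hK : ∀ a b, I w (h a b) * I w (k a b) ≤ K) :
    I4 w (fun a b c d => g c a * h c a b * k c a d) ≤ K * I2 w g :=
  (p2013 w (fun a b c d => g a b * h a b c * k a b d)).trans_le (K2 hw hg hK)

theorem K2_32 (hw : ∀ v, 0 ≤ w v) (g : V → V → ℝ) (h k : V → V → V → ℝ) {K : ℝ}
    (hg : ∀ a b, 0 ≤ g a b) (hK : ∀ a b, I w (h a b) * I w (k a b) ≤ K) :
    I4 w (fun a b c d => g c b * h c b a * k c b d) ≤ K * I2 w g :=
  (p2103 w (fun a b c d => g a b * h a b c * k a b d)).trans_le (K2 hw hg hK)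

theorem K2_34 (hw : ∀ v, 0 ≤ w v) (g : V → V → ℝ) (h k : V → V → V → ℝ) {K : ℝ}
    (hg : ∀ a b, 0 ≤ g a b) (hK : ∀ a b, I w (h a b) * I w (k a b) ≤ K) :
    I4 w (fun a b c d => g c d * h c d a * k c d b) ≤ K * I2 w g :=
  (p2301 w (fun a b c d => g a b * h a b c * k a b d)).trans_le (K2 hw hg hK)

theorem K2_41 (hw : ∀ v, 0 ≤ w v) (g : V → V → ℝ) (h k : V → V → V → ℝ) {K : ℝ}
    (hg : ∀ a b, 0 ≤ g a b) (hK : ∀ a b, I w (h a b) * I w (k a b) ≤ K) :
    I4 w (fun a b c d => g d a * h d a b * k d a c) ≤ K * I2 w g :=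
  (p3012 w (fun a b c d => g a b * h a b c * k a b d)).trans_le (K2 hw hg hK)

theorem K2_42 (hw : ∀ v, 0 ≤ w v) (g : V → V → ℝ) (h k : V → V → V → ℝ) {K : ℝ}
    (hg : ∀ a b, 0 ≤ g a b) (hK : ∀ a b, I w (h a b) * I w (k a b) ≤ K) :
    I4 w (fun a b c d => g d b * h d b a * k d b c) ≤ K * I2 w g :=
  (p3102 w (fun a b c d => g a b * h a b c * k a b d)).trans_le (K2 hw hg hK)

theorem K2_43 (hw : ∀ v, 0 ≤ w v) (g : V → V → ℝ) (h k : V → V → V → ℝ) {K : ℝ}
    (hg : ∀ a b, 0 ≤ g a b) (hK : ∀ a b, I w (h a b) * I w (k a b) ≤ K) :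
    I4 w (fun a b c d => g d c * h d c a * k d c b) ≤ K * I2 w g :=
  (p3201 w (fun a b c d => g a b * h a b c * k a b d)).trans_le (K2 hw hg hK)

theorem K1_1 (hw : ∀ v, 0 ≤ w v) (g : V → ℝ) (h k l : V → V → ℝ) {K : ℝ}
    (hg : ∀ a, 0 ≤ g a) (hK : ∀ a, I w (h a) * I w (k a) * I w (l a) ≤ K) :
    I4 w (fun a b c d => g a * h a b * k a c * l a d) ≤ K * I w g :=
  (p0123 w (fun a b c d => g a * h a b * k a c * l a d)).trans_le (K1 hw hg hK)

theorem K3_123 (w : V → ℝ) (g k : V → ℝ) (h : V → V → ℝ) :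
    I4 w (fun a b c d => g a * h b c * k d) = I w g * I2 w h * I w k :=
  (p0123 w (fun a b c d => g a * h b c * k d)).trans (K3 g k h)

theorem K3_124 (w : V → ℝ) (g k : V → ℝ) (h : V → V → ℝ) :
    I4 w (fun a b c d => g a * h b d * k c) = I w g * I2 w h * I w k :=
  (p0132 w (fun a b c d => g a * h b c * k d)).trans (K3 g k h)

theorem K3_134 (w : V → ℝ) (g k : V → ℝ) (h : V → V → ℝ) :
    I4 w (fun a b c d => g a * h c d * k b) = I w g * I2 w h * I w k :=
  (p0231 w (fun a b c d => g a * h b c * k d)).trans (K3 g k h)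

theorem K1_2 (hw : ∀ v, 0 ≤ w v) (g : V → ℝ) (h k l : V → V → ℝ) {K : ℝ}
    (hg : ∀ a, 0 ≤ g a) (hK : ∀ a, I w (h a) * I w (k a) * I w (l a) ≤ K) :
    I4 w (fun a b c d => g b * h b a * k b c * l b d) ≤ K * I w g :=
  (p1023 w (fun a b c d => g a * h a b * k a c * l a d)).trans_le (K1 hw hg hK)

theorem K3_213 (w : V → ℝ) (g k : V → ℝ) (h : V → V → ℝ) :
    I4 w (fun a b c d => g b * h a c * k d) = I w g * I2 w h * I w k :=
  (p1023 w (fun a b c d => g a * h b c * k d)).trans (K3 g k h)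

theorem K3_214 (w : V → ℝ) (g k : V → ℝ) (h : V → V → ℝ) :
    I4 w (fun a b c d => g b * h a d * k c) = I w g * I2 w h * I w k :=
  (p1032 w (fun a b c d => g a * h b c * k d)).trans (K3 g k h)

theorem K3_234 (w : V → ℝ) (g k : V → ℝ) (h : V → V → ℝ) :
    I4 w (fun a b c d => g b * h c d * k a) = I w g * I2 w h * I w k :=
  (p1230 w (fun a b c d => g a * h b c * k d)).trans (K3 g k h)

theorem K1_3 (hw : ∀ v, 0 ≤ w v) (g : V → ℝ) (h k l : V → V → ℝ) {K : ℝ}
    (hg : ∀ a, 0 ≤ g a) (hK : ∀ a, I w (h a) * I w (k a) * I w (l a) ≤ K) :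
    I4 w (fun a b c d => g c * h c a * k c b * l c d) ≤ K * I w g :=
  (p2013 w (fun a b c d => g a * h a b * k a c * l a d)).trans_le (K1 hw hg hK)

theorem K3_312 (w : V → ℝ) (g k : V → ℝ) (h : V → V → ℝ) :
    I4 w (fun a b c d => g c * h a b * k d) = I w g * I2 w h * I w k :=
  (p2013 w (fun a b c d => g a * h b c * k d)).trans (K3 g k h)

theorem K3_314 (w : V → ℝ) (g k : V → ℝ) (h : V → V → ℝ) :
    I4 w (fun a b c d => g c * h a d * k b) = I w g * I2 w h * I w k :=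
  (p2031 w (fun a b c d => g a * h b c * k d)).trans (K3 g k h)

theorem K3_324 (w : V → ℝ) (g k : V → ℝ) (h : V → V → ℝ) :
    I4 w (fun a b c d => g c * h b d * k a) = I w g * I2 w h * I w k :=
  (p2130 w (fun a b c d => g a * h b c * k d)).trans (K3 g k h)

theorem K1_4 (hw : ∀ v, 0 ≤ w v) (g : V → ℝ) (h k l : V → V → ℝ) {K : ℝ}
    (hg : ∀ a, 0 ≤ g a) (hK : ∀ a, I w (h a) * I w (k a) * I w (l a) ≤ K) :
    I4 w (fun a b c d => g d * h d a * k d b * l d c) ≤ K * I w g :=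
  (p3012 w (fun a b c d => g a * h a b * k a c * l a d)).trans_le (K1 hw hg hK)

theorem K3_412 (w : V → ℝ) (g k : V → ℝ) (h : V → V → ℝ) :
    I4 w (fun a b c d => g d * h a b * k c) = I w g * I2 w h * I w k :=
  (p3012 w (fun a b c d => g a * h b c * k d)).trans (K3 g k h)

theorem K3_413 (w : V → ℝ) (g k : V → ℝ) (h : V → V → ℝ) :
    I4 w (fun a b c d => g d * h a c * k b) = I w g * I2 w h * I w k :=
  (p3021 w (fun a b c d => g a * h b c * k d)).trans (K3 g k h)

theorem K3_423 (w : V → ℝ) (g k : V → ℝ) (h : V → V → ℝ) :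
    I4 w (fun a b c d => g d * h b c * k a) = I w g * I2 w h * I w k :=
  (p3120 w (fun a b c d => g a * h b c * k d)).trans (K3 g k h)

end

def stN (a b c d e : Fin 5) : ℕ := ∑ i : Fin 5,
  ((a == i).toNat * ((b == i + 1).toNat * (c == i + 2).toNat * (d == i + 3).toNat * (e == i + 4).toNat) +
   (a == i).toNat * ((b == i + 4).toNat * (c == i + 3).toNat * (d == i + 2).toNat * (e == i + 1).toNat))

def csN (a b c d e : Fin 5) : ℕ := ∑ i : Fin 5,
  (a == i).toNat * ((b == i).toNat * ((c == i).toNat * ((d == i).toNat * (e == i).toNat)))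

theorem clean1 : ∀ a b c d e : Fin 5, dd a b true = false → dd b c true = false →
    dd c d true = false → dd d e true = false → dd e a true = false → dd a c false = false →
    dd a d false = false → dd b d false = false → dd b e false = false → dd c e false = false →
    stN a b c d e + csN a b c d e = 1 := by decide +kernel

theorem clean2 : ∀ a b c d e : Fin 5, stN a b c d e = 0 ∨
    ((a ≠ b ∧ b ≠ c ∧ c ≠ d ∧ d ≠ e ∧ e ≠ a ∧ a ≠ c ∧ a ≠ d ∧ b ≠ d ∧ b ≠ e ∧ c ≠ e) ∧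
      pat CC a b c d e) := by decide +kernel

section
variable {V : Type} {A : V → V → Bool} {c : V → Fin 5}

theorem pi_clean {a b d e f : V} (h1 : D A c a b = false) (h2 : D A c b d = false)
    (h3 : D A c d e = false) (h4 : D A c e f = false) (h5 : D A c f a = false)
    (h6 : D A c a d = false) (h7 : D A c a e = false) (h8 : D A c b e = false)
    (h9 : D A c b f = false) (h10 : D A c d f = false) :
    pi A a b d e f = stN (c a) (c b) (c d) (c e) (c f) +
      csN (c a) (c b) (c d) (c e) (c f) * pi A a b d e f := by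
  unfold pi
  split_ifs with hp
  · obtain ⟨p1, p2, p3, p4, p5, p6, p7, p8, p9, p10⟩ := hp
    have := clean1 (c a) (c b) (c d) (c e) (c f) (p1 ▸ h1) (p2 ▸ h2) (p3 ▸ h3)
      (p4 ▸ h4) (p5 ▸ h5) (p6 ▸ h6) (p7 ▸ h7) (p8 ▸ h8) (p9 ▸ h9) (p10 ▸ h10)
    rw [mul_one]; exact_mod_cast this.symm
  · rcases clean2 (c a) (c b) (c d) (c e) (c f) with h0 | ⟨⟨n1, n2, n3, n4, n5, n6, n7, n8, n9, n10⟩,
      p1, p2, p3, p4, p5, p6, p7, p8, p9, p10⟩
    · simp [h0]
    · exact absurd ⟨(dd_false h1 n1).trans p1, (dd_false h2 n2).trans p2,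
        (dd_false h3 n3).trans p3, (dd_false h4 n4).trans p4,
        (dd_false h5 n5).trans p5, (dd_false h6 n6).trans p6,
        (dd_false h7 n7).trans p7, (dd_false h8 n8).trans p8,
        (dd_false h9 n9).trans p9, (dd_false h10 n10).trans p10⟩ hp

theorem CC_symm : ∀ i j, CC i j = CC j i := by decide

def rep (S : V → Bool) (A : V → V → Bool) (c : V → Fin 5) (a b : V) : Bool :=
  bif (S a || S b) && (c a != c b) then CC (c a) (c b) else A a b

theorem Gr.rep (h : Gr A) (S : V → Bool) (c : V → Fin 5) : Gr (rep S A c) :=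
  ⟨fun a b => by
    unfold N7.rep
    rw [Bool.or_comm, bne_comm, CC_symm, h.symm],
   fun a => by simp [N7.rep, h.irr]⟩

theorem D_rep (S : V → Bool) (a b : V) :
    D (rep S A c) c a b = (D A c a b && !S a && !S b) := by
  have : ∀ (i j : Fin 5) (x y e : Bool), dd i j (bif (x || y) && (i != j) then CC i j else e) =
    (dd i j e && !x && !y) := by decide
  exact this _ _ _ _ _

theorem rep_clean (S : V → Bool) {a b : V} (h : D A c a b = false) : rep S A c a b = A a b := by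
  have : ∀ (i j : Fin 5) (x y e : Bool), dd i j e = false →
    (bif (x || y) && (i != j) then CC i j else e) = e := by decide
  exact this _ _ _ _ _ h

theorem rep_off {S : V → Bool} {a b : V} (ha : S a = false) (hb : S b = false) :
    rep S A c a b = A a b := by simp [rep, ha, hb]

theorem rep_rep (S T : V → Bool) : rep S (rep T A c) c = rep (fun a => S a || T a) A c := by
  funext a b
  have : ∀ (x y x' y' z f e : Bool), (bif (x || y) && z then f else bif (x' || y') && z then f else e) =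
    bif ((x || x') || (y || y')) && z then f else e := by decide
  exact this _ _ _ _ _ _ _

theorem D_self (a : V) : D A c a a = false := by simp [D, dd]

theorem pat_ne (h : Gr A) {a b d e f : V} (hp : pat A a b d e f) :
    a ≠ b ∧ a ≠ d ∧ a ≠ e ∧ a ≠ f ∧ b ≠ d ∧ b ≠ e ∧ b ≠ f ∧ d ≠ e ∧ d ≠ f ∧ e ≠ f := by
  obtain ⟨p1, p2, p3, p4, p5, p6, p7, p8, p9, p10⟩ := hp
  refine ⟨?_, ?_, ?_, ?_, ?_, ?_, ?_, ?_, ?_, ?_⟩ <;> rintro rfl
  · rw [h.irr] at p1; exact absurd p1 (by simp)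
  · rw [p3] at p7; exact absurd p7 (by simp)
  · rw [h.symm, p8] at p1; exact absurd p1 (by simp)
  · rw [h.irr] at p5; exact absurd p5 (by simp)
  · rw [h.irr] at p2; exact absurd p2 (by simp)
  · rw [p4] at p9; exact absurd p9 (by simp)
  · rw [h.symm, p2] at p10; exact absurd p10 (by simp)
  · rw [h.irr] at p3; exact absurd p3 (by simp)
  · rw [h.symm, p6] at p5; exact absurd p5 (by simp)
  · rw [h.irr] at p4; exact absurd p4 (by simp)

theorem pi_rot (h : Gr A) (a b d e f : V) : pi A a b d e f = pi A b d e f a := by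
  exact if_congr (by unfold pat; rw [h.symm d a, h.symm e a]; tauto) rfl rfl

variable [DecidableEq V]

def sing (v a : V) : Bool := decide (a = v)

theorem delta_split {B : V → V → Bool} (hA : Gr A) (hB : Gr B) {v : V}
    (h : ∀ a b, a ≠ v → b ≠ v → B a b = A a b) (a b d e f : V) :
    pi B a b d e f - pi A a b d e f =
      r (decide (a = v)) * (pi B a b d e f - pi A a b d e f) +
      r (decide (b = v)) * (pi B a b d e f - pi A a b d e f) +
      r (decide (d = v)) * (pi B a b d e f - pi A a b d e f) +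
      r (decide (e = v)) * (pi B a b d e f - pi A a b d e f) +
      r (decide (f = v)) * (pi B a b d e f - pi A a b d e f) := by
  by_cases hp : pat B a b d e f ∨ pat A a b d e f
  · obtain ⟨n1, n2, n3, n4, n5, n6, n7, n8, n9, n10⟩ := hp.elim (pat_ne hB) (pat_ne hA)
    by_cases c1 : a = v
    · subst c1; simp [n1.symm, n2.symm, n3.symm, n4.symm]
    by_cases c2 : b = v
    · subst c2; simp [c1, n5.symm, n6.symm, n7.symm]
    by_cases c3 : d = v
    · subst c3; simp [c1, c2, n8.symm, n9.symm]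
    by_cases c4 : e = v
    · subst c4; simp [c1, c2, c3, n10.symm]
    by_cases c5 : f = v
    · subst c5; simp [c1, c2, c3, c4]
    have : pi B a b d e f = pi A a b d e f := if_congr (by
      unfold pat
      rw [h _ _ c1 c2, h _ _ c2 c3, h _ _ c3 c4, h _ _ c4 c5, h _ _ c5 c1, h _ _ c1 c3,
        h _ _ c1 c4, h _ _ c2 c4, h _ _ c2 c5, h _ _ c3 c5]) rfl rfl
    rw [this]; ring
  · rw [not_or] at hp
    simp [pi, hp.1, hp.2]

theorem NW_step [Fintype V] {B : V → V → Bool} (hA : Gr A) (hB : Gr B) {v : V}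
    (h : ∀ a b, a ≠ v → b ≠ v → B a b = A a b) (w : V → ℝ) :
    NW w B - NW w A = 5 * w v * I4 w fun a b d e => pi B v a b d e - pi A v a b d e := by
  have e0 : NW w B - NW w A = I w fun a => I4 w fun b d e f => pi B a b d e f - pi A a b d e f := by
    simp only [NW, I4, I_sub]
  rw [e0, I_congr fun a => I4_congr fun b d e f => delta_split hA hB h a b d e f]
  simp only [I4, I_add, I_mul, I_at]
  have e1 := p1230 w fun a b d e => pi B v a b d e - pi A v a b d e
  have e2 := p2301 w fun a b d e => pi B v a b d e - pi A v a b d e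
  have e3 := p3012 w fun a b d e => pi B v a b d e - pi A v a b d e
  simp only [I4] at e1 e2 e3
  have r1 : ∀ X, Gr X → ∀ a b d e, pi X a v b d e = pi X v b d e a := fun X h a b d e =>
    pi_rot h _ _ _ _ _
  have r2 : ∀ X, Gr X → ∀ a b d e, pi X a b v d e = pi X v d e a b := fun X h a b d e =>
    (pi_rot h _ _ _ _ _).trans (r1 X h _ _ _ _)
  have r3 : ∀ X, Gr X → ∀ a b d e, pi X a b d v e = pi X v e a b d := fun X h a b d e =>
    (pi_rot h _ _ _ _ _).trans (r2 X h _ _ _ _)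
  have r4 : ∀ X, Gr X → ∀ a b d e, pi X a b d e v = pi X v a b d e := fun X h a b d e =>
    (pi_rot h _ _ _ _ _).trans (r3 X h _ _ _ _)
  simp only [r1 A hA, r1 B hB, r2 A hA, r2 B hB, r3 A hA, r3 B hB, r4 A hA, r4 B hB]
  rw [e1, e2, e3]; ring

end

end Pool.Agent.Lib.MP_49b2f4_co.N7
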