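import Pool.Agent.Lib.MP_49b2f4_co.N7.Step

/-! Repairing all vertices, first the bad ones and then the others. -/

namespace Pool.Agent.Lib.MP_49b2f4_co.N7

open Finset

variable {V : Type} {A : V → V → Bool} {c : V → Fin 5} {ω : V → Bool} {v : V}

def sh (c : V → Fin 5) (k : Fin 5) (u : V) : Fin 5 := c u - k

theorem D_sh (k : Fin 5) : D A (sh c k) = D A c := by
  have : ∀ (i j k : Fin 5) (e : Bool), dd (i - k) (j - k) e = dd i j e := by decide +kernel
  funext a b; exact this _ _ _ _

theorem de_sh (k : Fin 5) : de A (sh c k) = de A c := by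
  funext a b; unfold de; rw [D_sh]

theorem rep_sh (S : V → Bool) (k : Fin 5) : rep S A (sh c k) = rep S A c := by
  have : ∀ (i j k : Fin 5) (x e : Bool), (bif x && (i - k != j - k) then CC (i - k) (j - k) else e) =
    bif x && (i != j) then CC i j else e := by decide +kernel
  funext a b; exact this _ _ _ _ _

theorem eq_sh (k j : Fin 5) (u : V) : (sh c k u == j) = (c u == j + k) := by
  have : ∀ i j k : Fin 5, (i - k == j) = (i == j + k) := by decide +kernel
  exact this _ _ _

theorem X_sh (k j : Fin 5) : X (sh c k) ω j = X c ω (j + k) := by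
  funext u; unfold X; rw [eq_sh]

theorem de_rep (S : V → Bool) (s t : V) : de (rep S A c) c s t ≤ de A c s t := by
  unfold de; rw [D_rep]
  cases D A c s t <;> cases S s <;> cases S t <;> simp

theorem rep_none : rep (fun _ => false) A c = A := by
  funext a b; exact rep_off rfl rfl

def sm (t : Fin 5 → ℝ) (m : Fin 5) : ℝ := 1 - t (m + 1) + t (m + 2) + t (m + 3) + (1 - t (m + 4))

variable [Fintype V] {w : V → ℝ}

theorem Psi_sh (k : Fin 5) : Psi w (sh c k) A = Psi w c A := by unfold Psi; rw [de_sh]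

noncomputable def tt (w : V → ℝ) (A : V → V → Bool) (c : V → Fin 5) (ω : V → Bool) (v : V)
    (j : Fin 5) : ℝ := I w (al A c ω v j) / I w (X c ω j)

noncomputable def dg (w : V → ℝ) (A : V → V → Bool) (c : V → Fin 5) (ω : V → Bool) (v : V) : ℝ :=
  I w fun t => r (ω t) * de A c v t

variable [DecidableEq V]

theorem good_any (hA : Gr A) (hw : Pr w) (v : V)
    (hl : ∀ j, 19 / 100 ≤ I w (fun u => r (c u == j))) (hx : ∀ j, I w (fun u => r (c u == j)) ≤ 21 / 100)
    (hτ : ∀ s, I w (de A c s) ≤ 69 / 1600) (hf : I2 w (de A c) ≤ 1 / 2500) :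
    Psi w c A ≤ Psi w c (rep (sing v) A c) := by
  have := good_step (c := sh c (c v)) (v := v) hA hw (sub_self _)
    (fun j => by simp only [eq_sh]; exact hl _) (fun j => by simp only [eq_sh]; exact hx _)
    (by rw [de_sh]; exact hτ) (by rw [de_sh]; exact hf)
  rwa [Psi_sh, Psi_sh, rep_sh] at this

theorem bad_zero (hA : Gr A) (hw : Pr w) (hv : c v = 0) (hl : ∀ j, 19 / 100 ≤ I w (X c ω j))
    (hx : ∀ j, I w (X c ω j) ≤ 21 / 100) (hμ : I w (fun u => r (!ω u)) ≤ 1 / 320)
    (hF : I2 w (dw A c ω) ≤ 1 / 8000) (hm : ∀ m, sm (tt w A c ω v) 0 ≤ sm (tt w A c ω v) m)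
    (hd : 1 / 25 ≤ dg w A c ω v) : Psi w c A ≤ Psi w c (rep (sing v) A c) := by
  have hX : ∀ j, I w (X c ω j) = I w (al A c ω v j) + I w (be A c ω v j) := fun j => by
    rw [← I_add]; exact I_congr (al_be ω j)
  have p : ∀ j, 0 < I w (X c ω j) := fun j => lt_of_lt_of_le (by norm_num) (hl j)
  have a0 := fun j => I_nn hw.nn (al_nn (A := A) (c := c) ω (v := v) j)
  have b0 := fun j => I_nn hw.nn (be_nn (A := A) (c := c) ω (v := v) j)
  have ea : ∀ j, I w (al A c ω v j) = I w (X c ω j) * tt w A c ω v j := fun j =>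
    (mul_div_cancel₀ _ (p j).ne').symm
  have eb : ∀ j, I w (be A c ω v j) = I w (X c ω j) * (1 - tt w A c ω v j) := fun j => by
    rw [mul_sub, ← ea, hX]; ring
  have t0 : ∀ j, 0 ≤ tt w A c ω v j := fun j => div_nonneg (a0 j) (p j).le
  have t1 : ∀ j, tt w A c ω v j ≤ 1 := fun j => (div_le_one (p j)).2 (by linarith [hX j, b0 j])
  have d : dg w A c ω v = _ := I_congr (om_de (A := A) (ω := ω) hv)
  simp only [I_add, ea, eb] at d
  refine bad_step hA hw hv hx hμ hF ?_
  change _ + dg w A c ω v / _ ≤ _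
  simp only [ea, eb]
  rw [d] at hd ⊢
  exact Mn_bad (hl 0) (hx 0) (hl 1) (hx 1) (hl 2) (hx 2) (hl 3) (hx 3) (hl 4) (hx 4) (t0 0) (t1 0)
    (t0 1) (t1 1) (t0 2) (t1 2) (t0 3) (t1 3) (t0 4) (t1 4) (hm 1) (hm 2) (hm 3) (hm 4) hd

theorem bad_any (hA : Gr A) (hw : Pr w) (hl : ∀ j, 19 / 100 ≤ I w (X c ω j))
    (hx : ∀ j, I w (X c ω j) ≤ 21 / 100) (hμ : I w (fun u => r (!ω u)) ≤ 1 / 320)
    (hF : I2 w (dw A c ω) ≤ 1 / 8000) (hm : ∀ m, sm (tt w A c ω v) (c v) ≤ sm (tt w A c ω v) m)
    (hd : 1 / 25 ≤ dg w A c ω v) : Psi w c A ≤ Psi w c (rep (sing v) A c) := by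
  have et : ∀ m, sm (tt w A (sh c (c v)) ω v) m = sm (tt w A c ω v) (m + c v) := fun m => by
    unfold sm tt al
    simp only [X_sh, add_right_comm m]
  have := bad_zero (c := sh c (c v)) (ω := ω) (v := v) hA hw (sub_self _)
    (fun j => by rw [X_sh]; exact hl _) (fun j => by rw [X_sh]; exact hx _) hμ
    (by unfold dw; rw [de_sh]; exact hF) (fun m => by rw [et, et, zero_add]; exact hm _)
    (by unfold dg; rw [de_sh]; exact hd)
  rwa [Psi_sh, Psi_sh, rep_sh] at this

theorem chain (P : V → Bool) (step : ∀ (S : V → Bool) (v : V), (∀ u, S u = true → P u = true) →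
    S v = false → P v = true → Psi w c (rep S A c) ≤ Psi w c (rep (sing v) (rep S A c) c)) :
    Psi w c A ≤ Psi w c (rep P A c) := by
  have key : ∀ T : Finset V, (∀ u ∈ T, P u = true) →
      Psi w c A ≤ Psi w c (rep (fun u => decide (u ∈ T)) A c) := by
    intro T
    induction T using Finset.induction_on with
    | empty => intro _; simp only [notMem_empty, decide_false, rep_none, le_refl]
    | insert v T hv ih =>
      intro h
      refine (ih fun u hu => h u (mem_insert_of_mem hu)).trans ?_
      have := step (fun u => decide (u ∈ T)) v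
        (fun u hu => h u (mem_insert_of_mem (of_decide_eq_true hu))) (decide_eq_false hv)
        (h v (mem_insert_self _ _))
      rw [rep_rep] at this
      simpa only [sing, mem_insert, Bool.decide_or] using this
  have := key (univ.filter fun u => P u = true) fun u hu => (mem_filter.1 hu).2
  simpa only [mem_filter, mem_univ, true_and, Bool.decide_eq_true] using this

theorem repair (hA : Gr A) (hw : Pr w) (hl : ∀ j, 19 / 100 ≤ I w (X c ω j))
    (hx : ∀ j, I w (fun u => r (c u == j)) ≤ 21 / 100) (hμ : I w (fun u => r (!ω u)) ≤ 1 / 320)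
    (hF : I2 w (dw A c ω) ≤ 1 / 8000) (hm : ∀ v, 1 / 25 < dg w A c ω v →
      ω v = false ∧ ∀ m, sm (tt w A c ω v) (c v) ≤ sm (tt w A c ω v) m) :
    Psi w c A ≤ Psi w c (rep (fun _ => true) A c) := by
  have hX : ∀ j, I w (X c ω j) ≤ I w (fun u => r (c u == j)) := fun j =>
    I_mono hw.nn fun u => mul_le_of_le_one_left (r_nn _) (r_le _)
  obtain ⟨B, hB⟩ : ∃ B : V → Bool, ∀ v, B v = true ↔ 1 / 25 < dg w A c ω v :=
    ⟨fun v => decide (1 / 25 < dg w A c ω v), fun v => decide_eq_true_iff⟩
  have s1 : Psi w c A ≤ Psi w c (rep B A c) := by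
    refine chain B fun S v hS hv hP => ?_
    have e : ∀ u, ω u = true → rep S A c v u = A v u := fun u hu => rep_off hv (by
      by_contra hc
      rw [(hm u ((hB u).1 (hS u (by simpa using hc)))).1] at hu
      exact absurd hu (by simp))
    have e1 : tt w (rep S A c) c ω v = tt w A c ω v := by
      funext j
      unfold tt
      rw [I_congr (f := al (rep S A c) c ω v j) (g := al A c ω v j) fun u => ?_]
      unfold al X nb
      cases h : ω u
      · simp
      · rw [e u h]
    have e2 : dg w (rep S A c) c ω v = dg w A c ω v := I_congr fun u => by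
      unfold de D
      cases h : ω u
      · simp
      · rw [e u h]
    refine bad_any (ω := ω) (hA.rep S c) hw hl (fun j => (hX j).trans (hx j)) hμ
      (le_trans (I2_mono hw.nn fun s t => ?_) hF) (by rw [e1]; exact (hm v ((hB v).1 hP)).2)
      (by rw [e2]; exact ((hB v).1 hP).le)
    exact mul_le_mul_of_nonneg_left (de_rep S s t) (mul_nonneg (r_nn _) (r_nn _))
  have τ : ∀ s, I w (de (rep B A c) c s) ≤ 69 / 1600 := fun s => by
    cases h : B s
    · have h1 : dg w A c ω s ≤ 1 / 25 := not_lt.1 fun h2 => by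
        rw [(hB s).2 h2] at h; exact absurd h (by simp)
      have h2 : I w (de (rep B A c) c s) ≤ I w fun t => r (ω t) * de A c s t + r (!ω t) := by
        refine I_mono hw.nn fun t => (de_rep B s t).trans ?_
        have : de A c s t ≤ 1 := r_le _
        cases ω t <;> simp [this]
      rw [I_add] at h2
      unfold dg at h1
      linarith
    · refine le_trans (hw.le (k := 0) fun t => ?_) (by norm_num)
      simp [de, D_rep, h]
  have f : I2 w (de (rep B A c) c) ≤ 1 / 2500 := by
    have h1 : I2 w (de (rep B A c) c) ≤ I2 w fun s t => dw A c ω s t +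
        r (!ω s) * de (rep B A c) c s t + r (!ω t) * de (rep B A c) c t s := by
      refine I2_mono hw.nn fun s t => ?_
      have a1 := de_rep (A := A) (c := c) B s t
      have a2 := de_nn (A := rep B A c) (c := c) s t
      have a3 : de (rep B A c) c t s = de (rep B A c) c s t := by
        unfold de; rw [D_symm (hA.rep B c)]
      rw [a3]; unfold dw
      cases ω s <;> cases ω t <;> simp <;> linarith
    rw [I2_add, I2_add, I2_swap w fun s t => r (!ω s) * de (rep B A c) c s t] at h1
    have h2 : (I2 w fun s t => r (!ω s) * de (rep B A c) c s t) ≤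
        I w fun s => r (!ω s) * (69 / 1600) := by
      refine I_mono hw.nn fun s => ?_
      rw [I_mul]
      exact mul_le_mul_of_nonneg_left (τ s) (r_nn _)
    rw [I_mulr] at h2
    linarith
  have s2 := chain (w := w) (c := c) (A := rep B A c) (fun _ => true) fun S v _ _ _ =>
    good_any ((hA.rep B c).rep S c) hw v (fun j => (hl j).trans (hX j)) hx
      (fun s => (I_mono hw.nn (de_rep S s)).trans (τ s)) ((I2_mono hw.nn (de_rep S)).trans f)
  rw [rep_rep] at s2
  exact s1.trans s2

end Pool.Agent.Lib.MP_49b2f4_co.N7
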