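import Pool.Agent.Lib.MP_49b2f4_co.N7.ST

namespace Pool.Agent.Lib.MP_49b2f4_co.N7

set_option maxRecDepth 100000

theorem Sb0_0 : allT (.lf (nat_lit 0) Sv0 (nat_lit 0) []) (chkA SL3 SL5 ob2) = true := by decide +kernel
theorem Sb0_1 : allT (.lf (nat_lit 1108169199648) Sv1108169199648 (nat_lit 0) []) (chkA SL3 SL5 ob2) = true := by decide +kernel
theorem Sb0_2 : allT (.lf (nat_lit 3320111966256) Sv3320111966256 (nat_lit 0) []) (chkA SL3 SL5 ob2) = true := by decide +kernel
theorem Sb0_3 : allT (.lf (nat_lit 3350343983136) Sv3350343983136 (nat_lit 0) []) (chkA SL3 SL5 ob2) = true := by decide +kernel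
theorem Sb0_4 : allT (.lf (nat_lit 3350411616546) Sv3350411616546 (nat_lit 0) []) (chkA SL3 SL5 ob2) = true := by decide +kernel
theorem Sb0_5 : allT (.lf (nat_lit 4432676782080) Sv4432676782080 (nat_lit 0) []) (chkA SL3 SL5 ob2) = true := by decide +kernel
theorem Sb0_6 : allT (.lf (nat_lit 6640357617664) Sv6640357617664 (nat_lit 0) []) (chkA SL3 SL5 ob2) = true := by decide +kernel
theorem Sb0_7 : allT (.lf (nat_lit 7726767290424) Sv7726767290424 (nat_lit 0) []) (chkA SL3 SL5 ob2) = true := by decide +kernel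
theorem Sb0_8 : allT (.lf (nat_lit 7744181122104) Sv7744181122104 (nat_lit 0) []) (chkA SL3 SL5 ob2) = true := by decide +kernel
theorem Sb0_9 : allT (.lf (nat_lit 13246487592960) Sv13246487592960 (nat_lit 0) []) (chkA SL3 SL5 ob2) = true := by decide +kernel
theorem Sb0_10 : allT (.lf (nat_lit 13246487593218) Sv13246487593218 (nat_lit 0) []) (chkA SL3 SL5 ob2) = true := by decide +kernel
theorem Sb0_11 : allT (.lf (nat_lit 14350327876656) Sv14350327876656 (nat_lit 0) []) (chkA SL3 SL5 ob2) = true := by decide +kernel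
theorem Sb0_12 : allT (.lf (nat_lit 14354589159456) Sv14354589159456 (nat_lit 0) []) (chkA SL3 SL5 ob2) = true := by decide +kernel
theorem Sa0 : allT St0 (chkA SL3 SL5 ob2) = true := (allT_nd (allT_nd (allT_nd Sb0_0 (allT_nd Sb0_1 Sb0_2)) (allT_nd Sb0_3 (allT_nd Sb0_4 Sb0_5))) (allT_nd (allT_nd Sb0_6 (allT_nd Sb0_7 Sb0_8)) (allT_nd (allT_nd Sb0_9 Sb0_10) (allT_nd Sb0_11 Sb0_12))))

end Pool.Agent.Lib.MP_49b2f4_co.N7
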