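import Pool.Agent.Lib.MP_49b2f4_co.N7.SA0

namespace Pool.Agent.Lib.MP_49b2f4_co.N7

set_option maxRecDepth 100000

theorem Sb1_0 : allT (.lf (nat_lit 14354589159714) Sv14354589159714 (nat_lit 0) []) (chkA SL3 SL5 ob2) = true := by decide +kernel
theorem Sb1_1 : allT (.lf (nat_lit 14354606068776) Sv14354606068776 (nat_lit 0) []) (chkA SL3 SL5 ob2) = true := by decide +kernel
theorem Sb1_2 : allT (.lf (nat_lit 15454100795392) Sv15454100795392 (nat_lit 0) []) (chkA SL3 SL5 ob2) = true := by decide +kernel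
theorem Sb1_3 : allT (.lf (nat_lit 16553612423200) Sv16553612423200 (nat_lit 0) []) (chkA SL3 SL5 ob2) = true := by decide +kernel
theorem Sb1_4 : allT (.lf (nat_lit 16557907390512) Sv16557907390512 (nat_lit 0) []) (chkA SL3 SL5 ob2) = true := by decide +kernel
theorem Sb1_5 : allT (.lf (nat_lit 16557924299832) Sv16557924299832 (nat_lit 0) []) (chkA SL3 SL5 ob2) = true := by decide +kernel
theorem Sb1_6 : allT (.lf (nat_lit 16557957921852) Sv16557957921852 (nat_lit 0) []) (chkA SL3 SL5 ob2) = true := by decide +kernel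
theorem Sb1_7 : allT (.lf (nat_lit 16557975023664) Sv16557975023664 (nat_lit 0) []) (chkA SL3 SL5 ob2) = true := by decide +kernel
theorem Sb1_8 : allT (.lf (nat_lit 17729624997888) Sv17729624997888 (nat_lit 0) []) (chkA SL3 SL5 ob2) = true := by decide +kernel
theorem Sb1_9 : allT (.lf (nat_lit 21079968981024) Sv21079968981024 (nat_lit 0) []) (chkA SL3 SL5 ob2) = true := by decide +kernel
theorem Sb1_10 : allT (.lf (nat_lit 21079985890344) Sv21079985890344 (nat_lit 0) []) (chkA SL3 SL5 ob2) = true := by decide +kernel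
theorem Sb1_11 : allT (.lf (nat_lit 21080036614434) Sv21080036614434 (nat_lit 0) []) (chkA SL3 SL5 ob2) = true := by decide +kernel
theorem Sb1_12 : allT (.lf (nat_lit 22162301779968) Sv22162301779968 (nat_lit 0) []) (chkA SL3 SL5 ob2) = true := by decide +kernel
theorem Sa1 : allT St1 (chkA SL3 SL5 ob2) = true := (allT_nd (allT_nd (allT_nd Sb1_0 (allT_nd Sb1_1 Sb1_2)) (allT_nd Sb1_3 (allT_nd Sb1_4 Sb1_5))) (allT_nd (allT_nd Sb1_6 (allT_nd Sb1_7 Sb1_8)) (allT_nd (allT_nd Sb1_9 Sb1_10) (allT_nd Sb1_11 Sb1_12))))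

end Pool.Agent.Lib.MP_49b2f4_co.N7
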