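import Pool.Agent.Lib.MP_49b2f4_co.N7.SA9

namespace Pool.Agent.Lib.MP_49b2f4_co.N7

set_option maxRecDepth 100000

theorem Sb10_0 : allT (.lf (nat_lit 34274647482658) Sv34274647482658 (nat_lit 0) []) (chkA SL3 SL5 ob2) = true := by decide +kernel
theorem Sb10_1 : allT (.lf (nat_lit 34274664391720) Sv34274664391720 (nat_lit 0) []) (chkA SL3 SL5 ob2) = true := by decide +kernel
theorem Sb10_2 : allT (.lf (nat_lit 34274715115552) Sv34274715115552 (nat_lit 0) []) (chkA SL3 SL5 ob2) = true := by decide +kernel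
theorem Sb10_3 : allT (.lf (nat_lit 34274715115810) Sv34274715115810 (nat_lit 0) []) (chkA SL3 SL5 ob2) = true := by decide +kernel
theorem Sb10_4 : allT (.lf (nat_lit 34278976138288) Sv34278976138288 (nat_lit 0) []) (chkA SL3 SL5 ob2) = true := by decide +kernel
theorem Sb10_5 : allT (.lf (nat_lit 34279043639344) Sv34279043639344 (nat_lit 0) []) (chkA SL3 SL5 ob2) = true := by decide +kernel
theorem Sb10_6 : allT (.lf (nat_lit 34279043639602) Sv34279043639602 (nat_lit 0) []) (chkA SL3 SL5 ob2) = true := by decide +kernel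
theorem Sb10_7 : allT (.lf (nat_lit 34283237421088) Sv34283237421088 (nat_lit 0) []) (chkA SL3 SL5 ob2) = true := by decide +kernel
theorem Sb10_8 : allT (.lf (nat_lit 34283254198312) Sv34283254198312 (nat_lit 0) []) (chkA SL3 SL5 ob2) = true := by decide +kernel
theorem Sb10_9 : allT (.lf (nat_lit 34283305054240) Sv34283305054240 (nat_lit 0) []) (chkA SL3 SL5 ob2) = true := by decide +kernel
theorem Sb10_10 : allT (.lf (nat_lit 34283305054498) Sv34283305054498 (nat_lit 0) []) (chkA SL3 SL5 ob2) = true := by decide +kernel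
theorem Sb10_11 : allT (.lf (nat_lit 34283338610720) Sv34283338610720 (nat_lit 0) []) (chkA SL3 SL5 ob2) = true := by decide +kernel
theorem Sb10_12 : allT (.lf (nat_lit 34283338676260) Sv34283338676260 (nat_lit 0) []) (chkA SL3 SL5 ob2) = true := by decide +kernel
theorem Sa10 : allT St10 (chkA SL3 SL5 ob2) = true := (allT_nd (allT_nd (allT_nd Sb10_0 (allT_nd Sb10_1 Sb10_2)) (allT_nd Sb10_3 (allT_nd Sb10_4 Sb10_5))) (allT_nd (allT_nd Sb10_6 (allT_nd Sb10_7 Sb10_8)) (allT_nd (allT_nd Sb10_9 Sb10_10) (allT_nd Sb10_11 Sb10_12))))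

end Pool.Agent.Lib.MP_49b2f4_co.N7
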