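import Pool.Agent.Lib.MP_49b2f4_co.N7.SA10

namespace Pool.Agent.Lib.MP_49b2f4_co.N7

set_option maxRecDepth 100000

theorem Sb11_0 : allT (.lf (nat_lit 34283338676518) Sv34283338676518 (nat_lit 0) []) (chkA SL3 SL5 ob2) = true := by decide +kernel
theorem Sb11_1 : allT (.lf (nat_lit 34283338742816) Sv34283338742816 (nat_lit 0) []) (chkA SL3 SL5 ob2) = true := by decide +kernel
theorem Sb11_2 : allT (.lf (nat_lit 34287532388400) Sv34287532388400 (nat_lit 0) []) (chkA SL3 SL5 ob2) = true := by decide +kernel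
theorem Sb11_3 : allT (.lf (nat_lit 34287549297720) Sv34287549297720 (nat_lit 0) []) (chkA SL3 SL5 ob2) = true := by decide +kernel
theorem Sb11_4 : allT (.lf (nat_lit 34287582919740) Sv34287582919740 (nat_lit 0) []) (chkA SL3 SL5 ob2) = true := by decide +kernel
theorem Sb11_5 : allT (.lf (nat_lit 34287600021552) Sv34287600021552 (nat_lit 0) []) (chkA SL3 SL5 ob2) = true := by decide +kernel
theorem Sb11_6 : allT (.lf (nat_lit 34287616930872) Sv34287616930872 (nat_lit 0) []) (chkA SL3 SL5 ob2) = true := by decide +kernel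
theorem Sb11_7 : allT (.lf (nat_lit 34287633578032) Sv34287633578032 (nat_lit 0) []) (chkA SL3 SL5 ob2) = true := by decide +kernel
theorem Sb11_8 : allT (.lf (nat_lit 34287633710128) Sv34287633710128 (nat_lit 0) []) (chkA SL3 SL5 ob2) = true := by decide +kernel
theorem Sb11_9 : allT (.lf (nat_lit 34287650355256) Sv34287650355256 (nat_lit 0) []) (chkA SL3 SL5 ob2) = true := by decide +kernel
theorem Sb11_10 : allT (.lf (nat_lit 34287650487352) Sv34287650487352 (nat_lit 0) []) (chkA SL3 SL5 ob2) = true := by decide +kernel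
theorem Sb11_11 : allT (.lf (nat_lit 34287650552892) Sv34287650552892 (nat_lit 0) []) (chkA SL3 SL5 ob2) = true := by decide +kernel
theorem Sb11_12 : allT (.lf (nat_lit 34287650553150) Sv34287650553150 (nat_lit 0) []) (chkA SL3 SL5 ob2) = true := by decide +kernel
theorem Sa11 : allT St11 (chkA SL3 SL5 ob2) = true := (allT_nd (allT_nd (allT_nd Sb11_0 (allT_nd Sb11_1 Sb11_2)) (allT_nd Sb11_3 (allT_nd Sb11_4 Sb11_5))) (allT_nd (allT_nd Sb11_6 (allT_nd Sb11_7 Sb11_8)) (allT_nd (allT_nd Sb11_9 Sb11_10) (allT_nd Sb11_11 Sb11_12))))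

end Pool.Agent.Lib.MP_49b2f4_co.N7
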