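import Pool.Agent.Lib.MP_49b2f4_co.N7.SA1

namespace Pool.Agent.Lib.MP_49b2f4_co.N7

set_option maxRecDepth 100000

theorem Sb2_0 : allT (.lf (nat_lit 22162301780226) Sv22162301780226 (nat_lit 0) []) (chkA SL3 SL5 ob2) = true := by decide +kernel
theorem Sb2_1 : allT (.lf (nat_lit 22162318689288) Sv22162318689288 (nat_lit 0) []) (chkA SL3 SL5 ob2) = true := by decide +kernel
theorem Sb2_2 : allT (.lf (nat_lit 23270470979616) Sv23270470979616 (nat_lit 0) []) (chkA SL3 SL5 ob2) = true := by decide +kernel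
theorem Sb2_3 : allT (.lf (nat_lit 24361341820936) Sv24361341820936 (nat_lit 0) []) (chkA SL3 SL5 ob2) = true := by decide +kernel
theorem Sb2_4 : allT (.lf (nat_lit 25478067922984) Sv25478067922984 (nat_lit 0) []) (chkA SL3 SL5 ob2) = true := by decide +kernel
theorem Sb2_5 : allT (.lf (nat_lit 26526254891008) Sv26526254891008 (nat_lit 0) []) (chkA SL3 SL5 ob2) = true := by decide +kernel
theorem Sb2_6 : allT (.lf (nat_lit 26526255023104) Sv26526255023104 (nat_lit 0) []) (chkA SL3 SL5 ob2) = true := by decide +kernel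
theorem Sb2_7 : allT (.lf (nat_lit 26534912462848) Sv26534912462848 (nat_lit 0) []) (chkA SL3 SL5 ob2) = true := by decide +kernel
theorem Sb2_8 : allT (.lf (nat_lit 26560883064832) Sv26560883064832 (nat_lit 0) []) (chkA SL3 SL5 ob2) = true := by decide +kernel
theorem Sb2_9 : allT (.lf (nat_lit 26560883196928) Sv26560883196928 (nat_lit 0) []) (chkA SL3 SL5 ob2) = true := by decide +kernel
theorem Sb2_10 : allT (.lf (nat_lit 26560883262468) Sv26560883262468 (nat_lit 0) []) (chkA SL3 SL5 ob2) = true := by decide +kernel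
theorem Sb2_11 : allT (.lf (nat_lit 27634424222752) Sv27634424222752 (nat_lit 0) []) (chkA SL3 SL5 ob2) = true := by decide +kernel
theorem Sb2_12 : allT (.lf (nat_lit 27651638564896) Sv27651638564896 (nat_lit 0) []) (chkA SL3 SL5 ob2) = true := by decide +kernel
theorem Sa2 : allT St2 (chkA SL3 SL5 ob2) = true := (allT_nd (allT_nd (allT_nd Sb2_0 (allT_nd Sb2_1 Sb2_2)) (allT_nd Sb2_3 (allT_nd Sb2_4 Sb2_5))) (allT_nd (allT_nd Sb2_6 (allT_nd Sb2_7 Sb2_8)) (allT_nd (allT_nd Sb2_9 Sb2_10) (allT_nd Sb2_11 Sb2_12))))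

end Pool.Agent.Lib.MP_49b2f4_co.N7
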