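import Pool.Agent.Lib.MP_49b2f4_co.N7.SA2

namespace Pool.Agent.Lib.MP_49b2f4_co.N7

set_option maxRecDepth 100000

theorem Sb3_0 : allT (.lf (nat_lit 27669052264480) Sv27669052264480 (nat_lit 0) []) (chkA SL3 SL5 ob2) = true := by decide +kernel
theorem Sb3_1 : allT (.lf (nat_lit 28742526705664) Sv28742526705664 (nat_lit 0) []) (chkA SL3 SL5 ob2) = true := by decide +kernel
theorem Sb3_2 : allT (.lf (nat_lit 28777087246336) Sv28777087246336 (nat_lit 0) []) (chkA SL3 SL5 ob2) = true := by decide +kernel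
theorem Sb3_3 : allT (.lf (nat_lit 28777087312134) Sv28777087312134 (nat_lit 0) []) (chkA SL3 SL5 ob2) = true := by decide +kernel
theorem Sb3_4 : allT (.lf (nat_lit 28777087378432) Sv28777087378432 (nat_lit 0) []) (chkA SL3 SL5 ob2) = true := by decide +kernel
theorem Sb3_5 : allT (.lf (nat_lit 28777104155656) Sv28777104155656 (nat_lit 0) []) (chkA SL3 SL5 ob2) = true := by decide +kernel
theorem Sb3_6 : allT (.lf (nat_lit 29842038333472) Sv29842038333472 (nat_lit 0) []) (chkA SL3 SL5 ob2) = true := by decide +kernel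
theorem Sb3_7 : allT (.lf (nat_lit 29876666507296) Sv29876666507296 (nat_lit 0) []) (chkA SL3 SL5 ob2) = true := by decide +kernel
theorem Sb3_8 : allT (.lf (nat_lit 29876666639392) Sv29876666639392 (nat_lit 0) []) (chkA SL3 SL5 ob2) = true := by decide +kernel
theorem Sb3_9 : allT (.lf (nat_lit 29880995031088) Sv29880995031088 (nat_lit 0) []) (chkA SL3 SL5 ob2) = true := by decide +kernel
theorem Sb3_10 : allT (.lf (nat_lit 30924303499264) Sv30924303499264 (nat_lit 0) []) (chkA SL3 SL5 ob2) = true := by decide +kernel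
theorem Sb3_11 : allT (.lf (nat_lit 30924303499522) Sv30924303499522 (nat_lit 0) []) (chkA SL3 SL5 ob2) = true := by decide +kernel
theorem Sb3_12 : allT (.lf (nat_lit 30928632023056) Sv30928632023056 (nat_lit 0) []) (chkA SL3 SL5 ob2) = true := by decide +kernel
theorem Sa3 : allT St3 (chkA SL3 SL5 ob2) = true := (allT_nd (allT_nd (allT_nd Sb3_0 (allT_nd Sb3_1 Sb3_2)) (allT_nd Sb3_3 (allT_nd Sb3_4 Sb3_5))) (allT_nd (allT_nd Sb3_6 (allT_nd Sb3_7 Sb3_8)) (allT_nd (allT_nd Sb3_9 Sb3_10) (allT_nd Sb3_11 Sb3_12))))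

end Pool.Agent.Lib.MP_49b2f4_co.N7
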