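import Pool.Agent.Lib.MP_49b2f4_co.N7.SA3

namespace Pool.Agent.Lib.MP_49b2f4_co.N7

set_option maxRecDepth 100000

theorem Sb4_0 : allT (.lf (nat_lit 30932893437952) Sv30932893437952 (nat_lit 0) []) (chkA SL3 SL5 ob2) = true := by decide +kernel
theorem Sb4_1 : allT (.lf (nat_lit 30932927059972) Sv30932927059972 (nat_lit 0) []) (chkA SL3 SL5 ob2) = true := by decide +kernel
theorem Sb4_2 : allT (.lf (nat_lit 30937256038416) Sv30937256038416 (nat_lit 0) []) (chkA SL3 SL5 ob2) = true := by decide +kernel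
theorem Sb4_3 : allT (.lf (nat_lit 30950124689416) Sv30950124689416 (nat_lit 0) []) (chkA SL3 SL5 ob2) = true := by decide +kernel
theorem Sb4_4 : allT (.lf (nat_lit 30958931673088) Sv30958931673088 (nat_lit 0) []) (chkA SL3 SL5 ob2) = true := by decide +kernel
theorem Sb4_5 : allT (.lf (nat_lit 30958931673346) Sv30958931673346 (nat_lit 0) []) (chkA SL3 SL5 ob2) = true := by decide +kernel
theorem Sb4_6 : allT (.lf (nat_lit 30958931805184) Sv30958931805184 (nat_lit 0) []) (chkA SL3 SL5 ob2) = true := by decide +kernel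
theorem Sb4_7 : allT (.lf (nat_lit 30958931805442) Sv30958931805442 (nat_lit 0) []) (chkA SL3 SL5 ob2) = true := by decide +kernel
theorem Sb4_8 : allT (.lf (nat_lit 30963260394516) Sv30963260394516 (nat_lit 0) []) (chkA SL3 SL5 ob2) = true := by decide +kernel
theorem Sb4_9 : allT (.lf (nat_lit 30967521677316) Sv30967521677316 (nat_lit 0) []) (chkA SL3 SL5 ob2) = true := by decide +kernel
theorem Sb4_10 : allT (.lf (nat_lit 30976112590848) Sv30976112590848 (nat_lit 0) []) (chkA SL3 SL5 ob2) = true := by decide +kernel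
theorem Sb4_11 : allT (.lf (nat_lit 30976112591106) Sv30976112591106 (nat_lit 0) []) (chkA SL3 SL5 ob2) = true := by decide +kernel
theorem Sb4_12 : allT (.lf (nat_lit 30976129500168) Sv30976129500168 (nat_lit 0) []) (chkA SL3 SL5 ob2) = true := by decide +kernel
theorem Sa4 : allT St4 (chkA SL3 SL5 ob2) = true := (allT_nd (allT_nd (allT_nd Sb4_0 (allT_nd Sb4_1 Sb4_2)) (allT_nd Sb4_3 (allT_nd Sb4_4 Sb4_5))) (allT_nd (allT_nd Sb4_6 (allT_nd Sb4_7 Sb4_8)) (allT_nd (allT_nd Sb4_9 Sb4_10) (allT_nd Sb4_11 Sb4_12))))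

end Pool.Agent.Lib.MP_49b2f4_co.N7
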