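import Pool.Agent.Lib.MP_49b2f4_co.N7.SA4

namespace Pool.Agent.Lib.MP_49b2f4_co.N7

set_option maxRecDepth 100000

theorem Sb5_0 : allT (.lf (nat_lit 30976129500426) Sv30976129500426 (nat_lit 0) []) (chkA SL3 SL5 ob2) = true := by decide +kernel
theorem Sb5_1 : allT (.lf (nat_lit 30976146147328) Sv30976146147328 (nat_lit 0) []) (chkA SL3 SL5 ob2) = true := by decide +kernel
theorem Sb5_2 : allT (.lf (nat_lit 30976146147586) Sv30976146147586 (nat_lit 0) []) (chkA SL3 SL5 ob2) = true := by decide +kernel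
theorem Sb5_3 : allT (.lf (nat_lit 30976146279424) Sv30976146279424 (nat_lit 0) []) (chkA SL3 SL5 ob2) = true := by decide +kernel
theorem Sb5_4 : allT (.lf (nat_lit 30976146279682) Sv30976146279682 (nat_lit 0) []) (chkA SL3 SL5 ob2) = true := by decide +kernel
theorem Sb5_5 : allT (.lf (nat_lit 30976180224000) Sv30976180224000 (nat_lit 0) []) (chkA SL3 SL5 ob2) = true := by decide +kernel
theorem Sb5_6 : allT (.lf (nat_lit 30976180224258) Sv30976180224258 (nat_lit 0) []) (chkA SL3 SL5 ob2) = true := by decide +kernel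
theorem Sb5_7 : allT (.lf (nat_lit 32067033371680) Sv32067033371680 (nat_lit 0) []) (chkA SL3 SL5 ob2) = true := by decide +kernel
theorem Sb5_8 : allT (.lf (nat_lit 32067066993700) Sv32067066993700 (nat_lit 0) []) (chkA SL3 SL5 ob2) = true := by decide +kernel
theorem Sb5_9 : allT (.lf (nat_lit 32075657907232) Sv32075657907232 (nat_lit 0) []) (chkA SL3 SL5 ob2) = true := by decide +kernel
theorem Sb5_10 : allT (.lf (nat_lit 32075657907490) Sv32075657907490 (nat_lit 0) []) (chkA SL3 SL5 ob2) = true := by decide +kernel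
theorem Sb5_11 : allT (.lf (nat_lit 32080020507696) Sv32080020507696 (nat_lit 0) []) (chkA SL3 SL5 ob2) = true := by decide +kernel
theorem Sb5_12 : allT (.lf (nat_lit 32080020507954) Sv32080020507954 (nat_lit 0) []) (chkA SL3 SL5 ob2) = true := by decide +kernel
theorem Sa5 : allT St5 (chkA SL3 SL5 ob2) = true := (allT_nd (allT_nd (allT_nd Sb5_0 (allT_nd Sb5_1 Sb5_2)) (allT_nd Sb5_3 (allT_nd Sb5_4 Sb5_5))) (allT_nd (allT_nd Sb5_6 (allT_nd Sb5_7 Sb5_8)) (allT_nd (allT_nd Sb5_9 Sb5_10) (allT_nd Sb5_11 Sb5_12))))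

end Pool.Agent.Lib.MP_49b2f4_co.N7
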