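import Pool.Agent.Lib.MP_49b2f4_co.N7.SA5

namespace Pool.Agent.Lib.MP_49b2f4_co.N7

set_option maxRecDepth 100000

theorem Sb6_0 : allT (.lf (nat_lit 32084214157344) Sv32084214157344 (nat_lit 0) []) (chkA SL3 SL5 ob2) = true := by decide +kernel
theorem Sb6_1 : allT (.lf (nat_lit 32084214157602) Sv32084214157602 (nat_lit 0) []) (chkA SL3 SL5 ob2) = true := by decide +kernel
theorem Sb6_2 : allT (.lf (nat_lit 32084231066664) Sv32084231066664 (nat_lit 0) []) (chkA SL3 SL5 ob2) = true := by decide +kernel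
theorem Sb6_3 : allT (.lf (nat_lit 32084231066922) Sv32084231066922 (nat_lit 0) []) (chkA SL3 SL5 ob2) = true := by decide +kernel
theorem Sb6_4 : allT (.lf (nat_lit 32084264688684) Sv32084264688684 (nat_lit 0) []) (chkA SL3 SL5 ob2) = true := by decide +kernel
theorem Sb6_5 : allT (.lf (nat_lit 32084281790496) Sv32084281790496 (nat_lit 0) []) (chkA SL3 SL5 ob2) = true := by decide +kernel
theorem Sb6_6 : allT (.lf (nat_lit 32084281790754) Sv32084281790754 (nat_lit 0) []) (chkA SL3 SL5 ob2) = true := by decide +kernel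
theorem Sb6_7 : allT (.lf (nat_lit 33123326763008) Sv33123326763008 (nat_lit 0) []) (chkA SL3 SL5 ob2) = true := by decide +kernel
theorem Sb6_8 : allT (.lf (nat_lit 33127621730320) Sv33127621730320 (nat_lit 0) []) (chkA SL3 SL5 ob2) = true := by decide +kernel
theorem Sb6_9 : allT (.lf (nat_lit 33131984334848) Sv33131984334848 (nat_lit 0) []) (chkA SL3 SL5 ob2) = true := by decide +kernel
theorem Sb6_10 : allT (.lf (nat_lit 33136296079384) Sv33136296079384 (nat_lit 0) []) (chkA SL3 SL5 ob2) = true := by decide +kernel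
theorem Sb6_11 : allT (.lf (nat_lit 33149198809088) Sv33149198809088 (nat_lit 0) []) (chkA SL3 SL5 ob2) = true := by decide +kernel
theorem Sb6_12 : allT (.lf (nat_lit 33153510553624) Sv33153510553624 (nat_lit 0) []) (chkA SL3 SL5 ob2) = true := by decide +kernel
theorem Sa6 : allT St6 (chkA SL3 SL5 ob2) = true := (allT_nd (allT_nd (allT_nd Sb6_0 (allT_nd Sb6_1 Sb6_2)) (allT_nd Sb6_3 (allT_nd Sb6_4 Sb6_5))) (allT_nd (allT_nd Sb6_6 (allT_nd Sb6_7 Sb6_8)) (allT_nd (allT_nd Sb6_9 Sb6_10) (allT_nd Sb6_11 Sb6_12))))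

end Pool.Agent.Lib.MP_49b2f4_co.N7
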