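import Pool.Agent.Lib.MP_49b2f4_co.N7.SA6

namespace Pool.Agent.Lib.MP_49b2f4_co.N7

set_option maxRecDepth 100000

theorem Sb7_0 : allT (.lf (nat_lit 33157954936832) Sv33157954936832 (nat_lit 0) []) (chkA SL3 SL5 ob2) = true := by decide +kernel
theorem Sb7_1 : allT (.lf (nat_lit 33157955002372) Sv33157955002372 (nat_lit 0) []) (chkA SL3 SL5 ob2) = true := by decide +kernel
theorem Sb7_2 : allT (.lf (nat_lit 33157955002630) Sv33157955002630 (nat_lit 0) []) (chkA SL3 SL5 ob2) = true := by decide +kernel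
theorem Sb7_3 : allT (.lf (nat_lit 33162249904144) Sv33162249904144 (nat_lit 0) []) (chkA SL3 SL5 ob2) = true := by decide +kernel
theorem Sb7_4 : allT (.lf (nat_lit 33162250036240) Sv33162250036240 (nat_lit 0) []) (chkA SL3 SL5 ob2) = true := by decide +kernel
theorem Sb7_5 : allT (.lf (nat_lit 33162266813464) Sv33162266813464 (nat_lit 0) []) (chkA SL3 SL5 ob2) = true := by decide +kernel
theorem Sb7_6 : allT (.lf (nat_lit 33166612508672) Sv33166612508672 (nat_lit 0) []) (chkA SL3 SL5 ob2) = true := by decide +kernel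
theorem Sb7_7 : allT (.lf (nat_lit 33166612574470) Sv33166612574470 (nat_lit 0) []) (chkA SL3 SL5 ob2) = true := by decide +kernel
theorem Sb7_8 : allT (.lf (nat_lit 33170907541524) Sv33170907541524 (nat_lit 0) []) (chkA SL3 SL5 ob2) = true := by decide +kernel
theorem Sb7_9 : allT (.lf (nat_lit 33170924385304) Sv33170924385304 (nat_lit 0) []) (chkA SL3 SL5 ob2) = true := by decide +kernel
theorem Sb7_10 : allT (.lf (nat_lit 33175135854592) Sv33175135854592 (nat_lit 0) []) (chkA SL3 SL5 ob2) = true := by decide +kernel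
theorem Sb7_11 : allT (.lf (nat_lit 33175135854850) Sv33175135854850 (nat_lit 0) []) (chkA SL3 SL5 ob2) = true := by decide +kernel
theorem Sb7_12 : allT (.lf (nat_lit 33175152631816) Sv33175152631816 (nat_lit 0) []) (chkA SL3 SL5 ob2) = true := by decide +kernel
theorem Sa7 : allT St7 (chkA SL3 SL5 ob2) = true := (allT_nd (allT_nd (allT_nd Sb7_0 (allT_nd Sb7_1 Sb7_2)) (allT_nd Sb7_3 (allT_nd Sb7_4 Sb7_5))) (allT_nd (allT_nd Sb7_6 (allT_nd Sb7_7 Sb7_8)) (allT_nd (allT_nd Sb7_9 Sb7_10) (allT_nd Sb7_11 Sb7_12))))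

end Pool.Agent.Lib.MP_49b2f4_co.N7
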