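import Pool.Agent.Lib.MP_49b2f4_co.N7.SA7

namespace Pool.Agent.Lib.MP_49b2f4_co.N7

set_option maxRecDepth 100000

theorem Sb8_0 : allT (.lf (nat_lit 33175152632074) Sv33175152632074 (nat_lit 0) []) (chkA SL3 SL5 ob2) = true := by decide +kernel
theorem Sb8_1 : allT (.lf (nat_lit 33175169476612) Sv33175169476612 (nat_lit 0) []) (chkA SL3 SL5 ob2) = true := by decide +kernel
theorem Sb8_2 : allT (.lf (nat_lit 33175203487744) Sv33175203487744 (nat_lit 0) []) (chkA SL3 SL5 ob2) = true := by decide +kernel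
theorem Sb8_3 : allT (.lf (nat_lit 33175203488002) Sv33175203488002 (nat_lit 0) []) (chkA SL3 SL5 ob2) = true := by decide +kernel
theorem Sb8_4 : allT (.lf (nat_lit 33179464378384) Sv33179464378384 (nat_lit 0) []) (chkA SL3 SL5 ob2) = true := by decide +kernel
theorem Sb8_5 : allT (.lf (nat_lit 33179464510480) Sv33179464510480 (nat_lit 0) []) (chkA SL3 SL5 ob2) = true := by decide +kernel
theorem Sb8_6 : allT (.lf (nat_lit 33183725793280) Sv33183725793280 (nat_lit 0) []) (chkA SL3 SL5 ob2) = true := by decide +kernel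
theorem Sb8_7 : allT (.lf (nat_lit 33183742570504) Sv33183742570504 (nat_lit 0) []) (chkA SL3 SL5 ob2) = true := by decide +kernel
theorem Sb8_8 : allT (.lf (nat_lit 33183742636044) Sv33183742636044 (nat_lit 0) []) (chkA SL3 SL5 ob2) = true := by decide +kernel
theorem Sb8_9 : allT (.lf (nat_lit 33183742636302) Sv33183742636302 (nat_lit 0) []) (chkA SL3 SL5 ob2) = true := by decide +kernel
theorem Sb8_10 : allT (.lf (nat_lit 33183793426432) Sv33183793426432 (nat_lit 0) []) (chkA SL3 SL5 ob2) = true := by decide +kernel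
theorem Sb8_11 : allT (.lf (nat_lit 33183793426690) Sv33183793426690 (nat_lit 0) []) (chkA SL3 SL5 ob2) = true := by decide +kernel
theorem Sb8_12 : allT (.lf (nat_lit 33183810203656) Sv33183810203656 (nat_lit 0) []) (chkA SL3 SL5 ob2) = true := by decide +kernel
theorem Sa8 : allT St8 (chkA SL3 SL5 ob2) = true := (allT_nd (allT_nd (allT_nd Sb8_0 (allT_nd Sb8_1 Sb8_2)) (allT_nd Sb8_3 (allT_nd Sb8_4 Sb8_5))) (allT_nd (allT_nd Sb8_6 (allT_nd Sb8_7 Sb8_8)) (allT_nd (allT_nd Sb8_9 Sb8_10) (allT_nd Sb8_11 Sb8_12))))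

end Pool.Agent.Lib.MP_49b2f4_co.N7
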