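import Pool.Agent.Lib.MP_49b2f4_co.N7.SA8

namespace Pool.Agent.Lib.MP_49b2f4_co.N7

set_option maxRecDepth 100000

theorem Sb9_0 : allT (.lf (nat_lit 33183810203914) Sv33183810203914 (nat_lit 0) []) (chkA SL3 SL5 ob2) = true := by decide +kernel
theorem Sb9_1 : allT (.lf (nat_lit 33183826982912) Sv33183826982912 (nat_lit 0) []) (chkA SL3 SL5 ob2) = true := by decide +kernel
theorem Sb9_2 : allT (.lf (nat_lit 33183827048452) Sv33183827048452 (nat_lit 0) []) (chkA SL3 SL5 ob2) = true := by decide +kernel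
theorem Sb9_3 : allT (.lf (nat_lit 33183827048710) Sv33183827048710 (nat_lit 0) []) (chkA SL3 SL5 ob2) = true := by decide +kernel
theorem Sb9_4 : allT (.lf (nat_lit 33183827115008) Sv33183827115008 (nat_lit 0) []) (chkA SL3 SL5 ob2) = true := by decide +kernel
theorem Sb9_5 : allT (.lf (nat_lit 34222838390816) Sv34222838390816 (nat_lit 0) []) (chkA SL3 SL5 ob2) = true := by decide +kernel
theorem Sb9_6 : allT (.lf (nat_lit 34231495962656) Sv34231495962656 (nat_lit 0) []) (chkA SL3 SL5 ob2) = true := by decide +kernel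
theorem Sb9_7 : allT (.lf (nat_lit 34235807839288) Sv34235807839288 (nat_lit 0) []) (chkA SL3 SL5 ob2) = true := by decide +kernel
theorem Sb9_8 : allT (.lf (nat_lit 34248710436896) Sv34248710436896 (nat_lit 0) []) (chkA SL3 SL5 ob2) = true := by decide +kernel
theorem Sb9_9 : allT (.lf (nat_lit 34253022181432) Sv34253022181432 (nat_lit 0) []) (chkA SL3 SL5 ob2) = true := by decide +kernel
theorem Sb9_10 : allT (.lf (nat_lit 34257466564640) Sv34257466564640 (nat_lit 0) []) (chkA SL3 SL5 ob2) = true := by decide +kernel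
theorem Sb9_11 : allT (.lf (nat_lit 34266124136480) Sv34266124136480 (nat_lit 0) []) (chkA SL3 SL5 ob2) = true := by decide +kernel
theorem Sb9_12 : allT (.lf (nat_lit 34274647482400) Sv34274647482400 (nat_lit 0) []) (chkA SL3 SL5 ob2) = true := by decide +kernel
theorem Sa9 : allT St9 (chkA SL3 SL5 ob2) = true := (allT_nd (allT_nd (allT_nd Sb9_0 (allT_nd Sb9_1 Sb9_2)) (allT_nd Sb9_3 (allT_nd Sb9_4 Sb9_5))) (allT_nd (allT_nd Sb9_6 (allT_nd Sb9_7 Sb9_8)) (allT_nd (allT_nd Sb9_9 Sb9_10) (allT_nd Sb9_11 Sb9_12))))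

end Pool.Agent.Lib.MP_49b2f4_co.N7
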