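import Pool.Agent.Lib.MP_49b2f4_co.N7.SA11
import Pool.Agent.Lib.MP_49b2f4_co.D.H

namespace Pool.Agent.Lib.MP_49b2f4_co.N7

set_option maxRecDepth 100000

theorem ShA : allT St (chkA SL3 SL5 ob2) = true := (allT_nd (allT_nd (allT_nd Sa0 (allT_nd Sa1 Sa2)) (allT_nd Sa3 (allT_nd Sa4 Sa5))) (allT_nd (allT_nd Sa6 (allT_nd Sa7 Sa8)) (allT_nd Sa9 (allT_nd Sa10 Sa11))))
theorem ShB : allT D.t7 (chkB St 274877906944) = true := by decide +kernel
theorem Scert : ∀ g, Good g → 0 ≤ Sym (cc SL3 SL5 oc2) 7 g :=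
  cov_zero (cov_step (inv7 _) (by norm_num) D.k0 (cov_step (inv7 _) (by norm_num) D.k1
    (cov_step (inv7 _) (by norm_num) D.k2 (cov_step (inv7 _) (by norm_num) D.k3
    (cov_step (inv7 _) (by norm_num) D.k4 (cov_step (inv7 _) (by norm_num) D.k5
    (cov_step (inv7 _) (by norm_num) D.k6 (main_chk Sh3 Sh5 ob2_bnd ob2_val ShA ShB))))))))

end Pool.Agent.Lib.MP_49b2f4_co.N7
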