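import Pool.Agent.Lib.MP_49b2f4_co.N7.Pt
import Pool.Agent.Lib.MP_49b2f4_co.N7.Num

/-! Repairing one vertex does not decrease the potential. -/

namespace Pool.Agent.Lib.MP_49b2f4_co.N7

open Finset

variable {V : Type} [Fintype V] {w : V → ℝ} {A : V → V → Bool} {c : V → Fin 5} {ω : V → Bool} {v : V}

theorem half (hw : Pr w) (x : V → Bool) :
    I w (fun u => r (x u)) * I w (fun u => r (!x u)) ≤ 1 / 4 ∧
    I w (fun u => r (!x u)) * I w (fun u => r (x u)) ≤ 1 / 4 := by
  simp only [r_not, I_sub, hw.const]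
  constructor <;> nlinarith [sq_nonneg (I w (fun u => r (x u)) - 1 / 2)]

theorem third (hw : Pr w) {f g h : V → ℝ} (f0 : ∀ u, 0 ≤ f u) (g0 : ∀ u, 0 ≤ g u)
    (h0 : ∀ u, 0 ≤ h u) (s : ∀ u, f u + g u + h u ≤ 1) : I w f * I w g * I w h ≤ 1 / 27 := by
  have s1 := hw.le s
  rw [I_add, I_add] at s1
  have x0 := I_nn hw.nn f0
  have y0 := I_nn hw.nn g0
  have z0 := I_nn hw.nn h0
  generalize I w f = x at *
  generalize I w g = y at *
  generalize I w h = z at *
  have h1 : x * y ≤ (1 - z) ^ 2 / 4 := by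
    have := pow_le_pow_left₀ (add_nonneg x0 y0) (show x + y ≤ 1 - z by linarith) 2
    nlinarith [sq_nonneg (x - y)]
  have h2 := mul_le_mul_of_nonneg_right h1 z0
  have h3 : 0 ≤ (z - 1 / 3) ^ 2 * (4 / 3 - z) := mul_nonneg (sq_nonneg _) (by linarith)
  linarith

theorem XX (hw : Pr w) (hx : ∀ j, I w (X c ω j) ≤ 21 / 100) (i j : Fin 5) :
    I w (X c ω i) * I w (X c ω j) ≤ 441 / 10000 :=
  hi2 (I_nn hw.nn (X_nn ω i)) (I_nn hw.nn (X_nn ω j)) (hx i) (hx j)

omit [Fintype V] in
theorem de_nn (s t : V) : 0 ≤ de A c s t := r_nn _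

omit [Fintype V] in
theorem xd_nn (i j : Fin 5) (s t : V) : 0 ≤ xd A c ω i j s t :=
  mul_nonneg (mul_nonneg (X_nn _ _ _) (X_nn _ _ _)) (de_nn _ _)

omit [Fintype V] in
theorem dw_nn (s t : V) : 0 ≤ dw A c ω s t := mul_nonneg (mul_nonneg (r_nn _) (r_nn _)) (de_nn _ _)

theorem main_eq (w : V → ℝ) (A : V → V → Bool) (c : V → Fin 5) (ω : V → Bool) (v : V) :
    I4 w (Lo A c ω v) + I4 w (fun a b d e => Lo A c ω v e d b a) - I4 w (Gs A c ω v) =
    2 * Mn (I w (al A c ω v 0)) (I w (be A c ω v 0)) (I w (al A c ω v 1)) (I w (be A c ω v 1))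
      (I w (al A c ω v 2)) (I w (be A c ω v 2)) (I w (al A c ω v 3)) (I w (be A c ω v 3))
      (I w (al A c ω v 4)) (I w (be A c ω v 4)) := by
  have hX : ∀ j, I w (X c ω j) = I w (al A c ω v j) + I w (be A c ω v j) := fun j => by
    rw [← I_add]; exact I_congr (al_be ω j)
  rw [p3210 w (Lo A c ω v)]
  unfold Lo Gs Mn
  simp only [I4_add, I4_sub, I4_prod, hX]
  ring

theorem I4_E1 (hw : Pr w) (hx : ∀ j, I w (X c ω j) ≤ 21 / 100) :
    I4 w (E1 A c ω) ≤ 441 / 10000 * I2 w (dw A c ω) := by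
  have t12 := K2_12 hw.nn (xd A c ω 1 2) (fun _ _ => X c ω 3) (fun _ _ => X c ω 4) (xd_nn _ _)
    (fun _ _ => XX hw hx _ _)
  have t13 := K2_13 hw.nn (xd A c ω 1 3) (fun _ _ => X c ω 2) (fun _ _ => X c ω 4) (xd_nn _ _)
    (fun _ _ => XX hw hx _ _)
  have t14 := K2_14 hw.nn (xd A c ω 1 4) (fun _ _ => X c ω 2) (fun _ _ => X c ω 3) (xd_nn _ _)
    (fun _ _ => XX hw hx _ _)
  have t23 := K2_23 hw.nn (xd A c ω 2 3) (fun _ _ => X c ω 1) (fun _ _ => X c ω 4) (xd_nn _ _)
    (fun _ _ => XX hw hx _ _)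
  have t24 := K2_24 hw.nn (xd A c ω 2 4) (fun _ _ => X c ω 1) (fun _ _ => X c ω 3) (xd_nn _ _)
    (fun _ _ => XX hw hx _ _)
  have t34 := K2_34 hw.nn (xd A c ω 3 4) (fun _ _ => X c ω 1) (fun _ _ => X c ω 2) (xd_nn _ _)
    (fun _ _ => XX hw hx _ _)
  have s : I2 w (fun s t => xd A c ω 1 2 s t + xd A c ω 1 3 s t + xd A c ω 1 4 s t + xd A c ω 2 3 s t + xd A c ω 2 4 s t + xd A c ω 3 4 s t) ≤ I2 w (dw A c ω) := by
    refine I2_mono hw.nn fun s t => ?_
    have : ∀ (a b : Fin 5) (o o' x : Bool), o.toNat * (a == 1).toNat * (o'.toNat * (b == 2).toNat) * x.toNat +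
      o.toNat * (a == 1).toNat * (o'.toNat * (b == 3).toNat) * x.toNat +
      o.toNat * (a == 1).toNat * (o'.toNat * (b == 4).toNat) * x.toNat +
      o.toNat * (a == 2).toNat * (o'.toNat * (b == 3).toNat) * x.toNat +
      o.toNat * (a == 2).toNat * (o'.toNat * (b == 4).toNat) * x.toNat +
      o.toNat * (a == 3).toNat * (o'.toNat * (b == 4).toNat) * x.toNat ≤ o.toNat * o'.toNat * x.toNat := by decide +kernel
    simp only [xd, dw, X, de, r_nat]
    exact_mod_cast this _ _ _ _ _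
  simp only [I2_add] at s
  unfold E1
  simp only [I4_add]
  linarith

omit [Fintype V] in
theorem q_nn (s t : V) : 0 ≤ q12 A v s t ∧ 0 ≤ q13 A v s t ∧ 0 ≤ q14 A v s t ∧ 0 ≤ q21 A v s t ∧
    0 ≤ q23 A v s t ∧ 0 ≤ q24 A v s t ∧ 0 ≤ q34 A v s t := by
  simp only [q12, q13, q14, q21, q23, q24, q34, nb, nc, ee, ec, r_nat]
  refine ⟨?_, ?_, ?_, ?_, ?_, ?_, ?_⟩ <;> positivity

omit [Fintype V] in
theorem q_sum (s t : V) :
    q12 A v s t + q13 A v s t + q14 A v s t + q23 A v s t + q24 A v s t + q34 A v s t ≤ 1 := by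
  simp only [q12, q13, q14, q23, q24, q34, nb, nc, ee, ec]
  cases A v s <;> cases A v t <;> cases A s t <;> simp

theorem I4_E2 (hw : Pr w) : I4 w (E2 A c ω v) ≤ 1 / 4 * I2 w (dw A c ω) := by
  have t12 := K2_12 hw.nn (fun s t => dw A c ω s t * q12 A v s t) (fun _ _ => nc A v) (fun _ _ => nb A v)
    (fun s t => mul_nonneg (dw_nn s t) (q_nn s t).1) (fun _ _ => (half hw (A v)).2)
  have t13 := K2_13 hw.nn (fun s t => dw A c ω s t * q13 A v s t) (fun _ _ => nc A v) (fun _ _ => nb A v)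
    (fun s t => mul_nonneg (dw_nn s t) (q_nn s t).2.1) (fun _ _ => (half hw (A v)).2)
  have t14 := K2_14 hw.nn (fun s t => dw A c ω s t * q14 A v s t) (fun s _ => ee A s) (fun s _ => ec A s)
    (fun s t => mul_nonneg (dw_nn s t) (q_nn s t).2.2.1) (fun s _ => (half hw (A s)).1)
  have t23 := K2_23 hw.nn (fun s t => dw A c ω s t * q23 A v s t) (fun s _ => ee A s) (fun s _ => ec A s)
    (fun s t => mul_nonneg (dw_nn s t) (q_nn s t).2.2.2.2.1) (fun s _ => (half hw (A s)).1)
  have t24 := K2_24 hw.nn (fun s t => dw A c ω s t * q24 A v s t) (fun _ _ => nb A v) (fun _ _ => nc A v)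
    (fun s t => mul_nonneg (dw_nn s t) (q_nn s t).2.2.2.2.2.1) (fun _ _ => (half hw (A v)).1)
  have t34 := K2_34 hw.nn (fun s t => dw A c ω s t * q34 A v s t) (fun _ _ => nb A v) (fun _ _ => nc A v)
    (fun s t => mul_nonneg (dw_nn s t) (q_nn s t).2.2.2.2.2.2) (fun _ _ => (half hw (A v)).1)
  have s : I2 w (fun s t => dw A c ω s t * q12 A v s t + dw A c ω s t * q13 A v s t + dw A c ω s t * q14 A v s t + dw A c ω s t * q23 A v s t + dw A c ω s t * q24 A v s t + dw A c ω s t * q34 A v s t) ≤ I2 w (dw A c ω) := by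
    refine I2_mono hw.nn fun s t => ?_
    have := mul_le_mul_of_nonneg_left (q_sum (A := A) (v := v) s t) (dw_nn (A := A) (c := c) (ω := ω) s t)
    linarith
  simp only [I2_add] at s
  unfold E2
  simp only [I4_add]
  linarith

theorem I4_E3 (hw : Pr w) : I4 w (E3 A ω v) ≤ 2 / 27 * I w (fun u => r (!ω u)) := by
  have t1 := K1_1 hw.nn (fun s => r (!ω s) * nb A v s) (fun s u => nc A v u * ee A s u) (fun s u => nc A v u * ec A s u) (fun s u => nb A v u * ec A s u)
    (fun s => mul_nonneg (r_nn _) (r_nn _)) (fun s => third hw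
      (fun _ => mul_nonneg (r_nn _) (r_nn _)) (fun _ => mul_nonneg (r_nn _) (r_nn _))
      (fun _ => mul_nonneg (r_nn _) (r_nn _)) (fun u => by
        simp only [nb, nc, ee, ec]; cases A v u <;> cases A s u <;> simp))
  have t2 := K1_2 hw.nn (fun s => r (!ω s) * nc A v s) (fun s u => nb A v u * ee A s u) (fun s u => nc A v u * ee A s u) (fun s u => nb A v u * ec A s u)
    (fun s => mul_nonneg (r_nn _) (r_nn _)) (fun s => third hw
      (fun _ => mul_nonneg (r_nn _) (r_nn _)) (fun _ => mul_nonneg (r_nn _) (r_nn _))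
      (fun _ => mul_nonneg (r_nn _) (r_nn _)) (fun u => by
        simp only [nb, nc, ee, ec]; cases A v u <;> cases A s u <;> simp))
  have t3 := K1_3 hw.nn (fun s => r (!ω s) * nc A v s) (fun s u => nb A v u * ec A s u) (fun s u => nc A v u * ee A s u) (fun s u => nb A v u * ee A s u)
    (fun s => mul_nonneg (r_nn _) (r_nn _)) (fun s => third hw
      (fun _ => mul_nonneg (r_nn _) (r_nn _)) (fun _ => mul_nonneg (r_nn _) (r_nn _))
      (fun _ => mul_nonneg (r_nn _) (r_nn _)) (fun u => by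
        simp only [nb, nc, ee, ec]; cases A v u <;> cases A s u <;> simp))
  have t4 := K1_4 hw.nn (fun s => r (!ω s) * nb A v s) (fun s u => nb A v u * ec A s u) (fun s u => nc A v u * ec A s u) (fun s u => nc A v u * ee A s u)
    (fun s => mul_nonneg (r_nn _) (r_nn _)) (fun s => third hw
      (fun _ => mul_nonneg (r_nn _) (r_nn _)) (fun _ => mul_nonneg (r_nn _) (r_nn _))
      (fun _ => mul_nonneg (r_nn _) (r_nn _)) (fun u => by
        simp only [nb, nc, ee, ec]; cases A v u <;> cases A s u <;> simp))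
  have s : I w (fun s => r (!ω s) * nb A v s + r (!ω s) * nc A v s) = I w (fun u => r (!ω u)) :=
    I_congr fun s => by simp only [nb, nc, r_not (A v s)]; ring
  simp only [I_add] at s
  unfold E3
  simp only [I4_add]
  linarith

theorem dd_le (hw : Pr w) {τ : ℝ} (hτ : ∀ s, I w (de A c s) ≤ τ) :
    I2 w (fun s t => de A c v s * de A c s t) ≤ τ * I w (de A c v) := by
  rw [← I_mul]
  refine I_mono hw.nn fun s => ?_
  rw [I_mul, mul_comm τ]
  exact mul_le_mul_of_nonneg_left (hτ s) (de_nn _ _)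

theorem k3le {a h k : ℝ} (a0 : 0 ≤ a) (h0 : 0 ≤ h) (hk : k ≤ 21 / 100) :
    a * h * k ≤ 21 / 100 * (a * h) := by
  have := mul_le_mul_of_nonneg_left hk (mul_nonneg a0 h0)
  linarith

theorem I4_G1 (hw : Pr w) (hx : ∀ j, I w (X c ω j) ≤ 21 / 100) {τ : ℝ}
    (hτ : ∀ s, I w (de A c s) ≤ τ) :
    I4 w (G1 A c ω v) ≤ 441 / 10000 * (τ * I w (de A c v)) +
      21 / 100 * (I w (de A c v) * I2 w (de A c)) := by
  have t12 := K2_12 hw.nn (fun s t => de A c v s * xd A c ω 1 2 s t) (fun _ _ => X c ω 3)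
    (fun _ _ => X c ω 4) (fun s t => mul_nonneg (de_nn _ _) (xd_nn _ _ _ _)) (fun _ _ => XX hw hx _ _)
  have t13 := K2_13 hw.nn (fun s t => de A c v s * xd A c ω 1 3 s t) (fun _ _ => X c ω 2)
    (fun _ _ => X c ω 4) (fun s t => mul_nonneg (de_nn _ _) (xd_nn _ _ _ _)) (fun _ _ => XX hw hx _ _)
  have t14 := K2_14 hw.nn (fun s t => de A c v s * xd A c ω 1 4 s t) (fun _ _ => X c ω 2)
    (fun _ _ => X c ω 3) (fun s t => mul_nonneg (de_nn _ _) (xd_nn _ _ _ _)) (fun _ _ => XX hw hx _ _)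
  have t21 := K2_21 hw.nn (fun s t => de A c v s * xd A c ω 2 1 s t) (fun _ _ => X c ω 3)
    (fun _ _ => X c ω 4) (fun s t => mul_nonneg (de_nn _ _) (xd_nn _ _ _ _)) (fun _ _ => XX hw hx _ _)
  have t23 := K2_23 hw.nn (fun s t => de A c v s * xd A c ω 2 3 s t) (fun _ _ => X c ω 1)
    (fun _ _ => X c ω 4) (fun s t => mul_nonneg (de_nn _ _) (xd_nn _ _ _ _)) (fun _ _ => XX hw hx _ _)
  have t24 := K2_24 hw.nn (fun s t => de A c v s * xd A c ω 2 4 s t) (fun _ _ => X c ω 1)
    (fun _ _ => X c ω 3) (fun s t => mul_nonneg (de_nn _ _) (xd_nn _ _ _ _)) (fun _ _ => XX hw hx _ _)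
  have t31 := K2_31 hw.nn (fun s t => de A c v s * xd A c ω 3 1 s t) (fun _ _ => X c ω 2)
    (fun _ _ => X c ω 4) (fun s t => mul_nonneg (de_nn _ _) (xd_nn _ _ _ _)) (fun _ _ => XX hw hx _ _)
  have t32 := K2_32 hw.nn (fun s t => de A c v s * xd A c ω 3 2 s t) (fun _ _ => X c ω 1)
    (fun _ _ => X c ω 4) (fun s t => mul_nonneg (de_nn _ _) (xd_nn _ _ _ _)) (fun _ _ => XX hw hx _ _)
  have t34 := K2_34 hw.nn (fun s t => de A c v s * xd A c ω 3 4 s t) (fun _ _ => X c ω 1)
    (fun _ _ => X c ω 2) (fun s t => mul_nonneg (de_nn _ _) (xd_nn _ _ _ _)) (fun _ _ => XX hw hx _ _)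
  have t41 := K2_41 hw.nn (fun s t => de A c v s * xd A c ω 4 1 s t) (fun _ _ => X c ω 2)
    (fun _ _ => X c ω 3) (fun s t => mul_nonneg (de_nn _ _) (xd_nn _ _ _ _)) (fun _ _ => XX hw hx _ _)
  have t42 := K2_42 hw.nn (fun s t => de A c v s * xd A c ω 4 2 s t) (fun _ _ => X c ω 1)
    (fun _ _ => X c ω 3) (fun s t => mul_nonneg (de_nn _ _) (xd_nn _ _ _ _)) (fun _ _ => XX hw hx _ _)
  have t43 := K2_43 hw.nn (fun s t => de A c v s * xd A c ω 4 3 s t) (fun _ _ => X c ω 1)
    (fun _ _ => X c ω 2) (fun s t => mul_nonneg (de_nn _ _) (xd_nn _ _ _ _)) (fun _ _ => XX hw hx _ _)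
  have s : I2 w (fun s t => de A c v s * xd A c ω 1 2 s t +
      de A c v s * xd A c ω 1 3 s t +
      de A c v s * xd A c ω 1 4 s t +
      de A c v s * xd A c ω 2 1 s t +
      de A c v s * xd A c ω 2 3 s t +
      de A c v s * xd A c ω 2 4 s t +
      de A c v s * xd A c ω 3 1 s t +
      de A c v s * xd A c ω 3 2 s t +
      de A c v s * xd A c ω 3 4 s t +
      de A c v s * xd A c ω 4 1 s t +
      de A c v s * xd A c ω 4 2 s t +
      de A c v s * xd A c ω 4 3 s t) ≤
      I2 w (fun s t => de A c v s * de A c s t) := by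
    refine I2_mono hw.nn fun s t => ?_
    have : ∀ (a b : Fin 5) (o o' x y : Bool), y.toNat * (o.toNat * (a == 1).toNat * (o'.toNat * (b == 2).toNat) * x.toNat) +
      y.toNat * (o.toNat * (a == 1).toNat * (o'.toNat * (b == 3).toNat) * x.toNat) +
      y.toNat * (o.toNat * (a == 1).toNat * (o'.toNat * (b == 4).toNat) * x.toNat) +
      y.toNat * (o.toNat * (a == 2).toNat * (o'.toNat * (b == 1).toNat) * x.toNat) +
      y.toNat * (o.toNat * (a == 2).toNat * (o'.toNat * (b == 3).toNat) * x.toNat) +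
      y.toNat * (o.toNat * (a == 2).toNat * (o'.toNat * (b == 4).toNat) * x.toNat) +
      y.toNat * (o.toNat * (a == 3).toNat * (o'.toNat * (b == 1).toNat) * x.toNat) +
      y.toNat * (o.toNat * (a == 3).toNat * (o'.toNat * (b == 2).toNat) * x.toNat) +
      y.toNat * (o.toNat * (a == 3).toNat * (o'.toNat * (b == 4).toNat) * x.toNat) +
      y.toNat * (o.toNat * (a == 4).toNat * (o'.toNat * (b == 1).toNat) * x.toNat) +
      y.toNat * (o.toNat * (a == 4).toNat * (o'.toNat * (b == 2).toNat) * x.toNat) +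
      y.toNat * (o.toNat * (a == 4).toNat * (o'.toNat * (b == 3).toNat) * x.toNat) ≤ y.toNat * x.toNat := by decide +kernel
    simp only [xd, X, de, r_nat]
    exact_mod_cast this _ _ _ _ _ _
  have s2 := dd_le (v := v) hw hτ
  simp only [I2_add] at s
  have f0 : 0 ≤ I2 w (de A c) := I2_nn hw.nn de_nn
  have a1 : 0 ≤ I w (fun s => de A c v s * X c ω 1 s) :=
    I_nn hw.nn fun s => mul_nonneg (de_nn _ _) (X_nn _ _ _)
  have u123 := (K3_123 w (fun s => de A c v s * X c ω 1 s) (X c ω 4) (xd A c ω 2 3)).trans_le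
    (k3le a1 (I2_nn hw.nn (xd_nn _ _)) (hx _))
  have u124 := (K3_124 w (fun s => de A c v s * X c ω 1 s) (X c ω 3) (xd A c ω 2 4)).trans_le
    (k3le a1 (I2_nn hw.nn (xd_nn _ _)) (hx _))
  have u134 := (K3_134 w (fun s => de A c v s * X c ω 1 s) (X c ω 2) (xd A c ω 3 4)).trans_le
    (k3le a1 (I2_nn hw.nn (xd_nn _ _)) (hx _))
  have h1 : I2 w (fun s t => xd A c ω 2 3 s t + xd A c ω 2 4 s t + xd A c ω 3 4 s t) ≤ I2 w (de A c) := by
    refine I2_mono hw.nn fun s t => ?_
    have : ∀ (a b : Fin 5) (o o' x : Bool), o.toNat * (a == 2).toNat * (o'.toNat * (b == 3).toNat) * x.toNat +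
      o.toNat * (a == 2).toNat * (o'.toNat * (b == 4).toNat) * x.toNat +
      o.toNat * (a == 3).toNat * (o'.toNat * (b == 4).toNat) * x.toNat ≤ x.toNat := by decide +kernel
    simp only [xd, X, de, r_nat]
    exact_mod_cast this _ _ _ _ _
  simp only [I2_add] at h1
  have g1 := mul_le_mul_of_nonneg_left h1 a1
  have a2 : 0 ≤ I w (fun s => de A c v s * X c ω 2 s) :=
    I_nn hw.nn fun s => mul_nonneg (de_nn _ _) (X_nn _ _ _)
  have u213 := (K3_213 w (fun s => de A c v s * X c ω 2 s) (X c ω 4) (xd A c ω 1 3)).trans_le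
    (k3le a2 (I2_nn hw.nn (xd_nn _ _)) (hx _))
  have u214 := (K3_214 w (fun s => de A c v s * X c ω 2 s) (X c ω 3) (xd A c ω 1 4)).trans_le
    (k3le a2 (I2_nn hw.nn (xd_nn _ _)) (hx _))
  have u234 := (K3_234 w (fun s => de A c v s * X c ω 2 s) (X c ω 1) (xd A c ω 3 4)).trans_le
    (k3le a2 (I2_nn hw.nn (xd_nn _ _)) (hx _))
  have h2 : I2 w (fun s t => xd A c ω 1 3 s t + xd A c ω 1 4 s t + xd A c ω 3 4 s t) ≤ I2 w (de A c) := by
    refine I2_mono hw.nn fun s t => ?_
    have : ∀ (a b : Fin 5) (o o' x : Bool), o.toNat * (a == 1).toNat * (o'.toNat * (b == 3).toNat) * x.toNat +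
      o.toNat * (a == 1).toNat * (o'.toNat * (b == 4).toNat) * x.toNat +
      o.toNat * (a == 3).toNat * (o'.toNat * (b == 4).toNat) * x.toNat ≤ x.toNat := by decide +kernel
    simp only [xd, X, de, r_nat]
    exact_mod_cast this _ _ _ _ _
  simp only [I2_add] at h2
  have g2 := mul_le_mul_of_nonneg_left h2 a2
  have a3 : 0 ≤ I w (fun s => de A c v s * X c ω 3 s) :=
    I_nn hw.nn fun s => mul_nonneg (de_nn _ _) (X_nn _ _ _)
  have u312 := (K3_312 w (fun s => de A c v s * X c ω 3 s) (X c ω 4) (xd A c ω 1 2)).trans_le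
    (k3le a3 (I2_nn hw.nn (xd_nn _ _)) (hx _))
  have u314 := (K3_314 w (fun s => de A c v s * X c ω 3 s) (X c ω 2) (xd A c ω 1 4)).trans_le
    (k3le a3 (I2_nn hw.nn (xd_nn _ _)) (hx _))
  have u324 := (K3_324 w (fun s => de A c v s * X c ω 3 s) (X c ω 1) (xd A c ω 2 4)).trans_le
    (k3le a3 (I2_nn hw.nn (xd_nn _ _)) (hx _))
  have h3 : I2 w (fun s t => xd A c ω 1 2 s t + xd A c ω 1 4 s t + xd A c ω 2 4 s t) ≤ I2 w (de A c) := by
    refine I2_mono hw.nn fun s t => ?_
    have : ∀ (a b : Fin 5) (o o' x : Bool), o.toNat * (a == 1).toNat * (o'.toNat * (b == 2).toNat) * x.toNat +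
      o.toNat * (a == 1).toNat * (o'.toNat * (b == 4).toNat) * x.toNat +
      o.toNat * (a == 2).toNat * (o'.toNat * (b == 4).toNat) * x.toNat ≤ x.toNat := by decide +kernel
    simp only [xd, X, de, r_nat]
    exact_mod_cast this _ _ _ _ _
  simp only [I2_add] at h3
  have g3 := mul_le_mul_of_nonneg_left h3 a3
  have a4 : 0 ≤ I w (fun s => de A c v s * X c ω 4 s) :=
    I_nn hw.nn fun s => mul_nonneg (de_nn _ _) (X_nn _ _ _)
  have u412 := (K3_412 w (fun s => de A c v s * X c ω 4 s) (X c ω 3) (xd A c ω 1 2)).trans_le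
    (k3le a4 (I2_nn hw.nn (xd_nn _ _)) (hx _))
  have u413 := (K3_413 w (fun s => de A c v s * X c ω 4 s) (X c ω 2) (xd A c ω 1 3)).trans_le
    (k3le a4 (I2_nn hw.nn (xd_nn _ _)) (hx _))
  have u423 := (K3_423 w (fun s => de A c v s * X c ω 4 s) (X c ω 1) (xd A c ω 2 3)).trans_le
    (k3le a4 (I2_nn hw.nn (xd_nn _ _)) (hx _))
  have h4 : I2 w (fun s t => xd A c ω 1 2 s t + xd A c ω 1 3 s t + xd A c ω 2 3 s t) ≤ I2 w (de A c) := by
    refine I2_mono hw.nn fun s t => ?_
    have : ∀ (a b : Fin 5) (o o' x : Bool), o.toNat * (a == 1).toNat * (o'.toNat * (b == 2).toNat) * x.toNat +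
      o.toNat * (a == 1).toNat * (o'.toNat * (b == 3).toNat) * x.toNat +
      o.toNat * (a == 2).toNat * (o'.toNat * (b == 3).toNat) * x.toNat ≤ x.toNat := by decide +kernel
    simp only [xd, X, de, r_nat]
    exact_mod_cast this _ _ _ _ _
  simp only [I2_add] at h4
  have g4 := mul_le_mul_of_nonneg_left h4 a4
  have z : I w (fun s => de A c v s * X c ω 1 s + de A c v s * X c ω 2 s + de A c v s * X c ω 3 s + de A c v s * X c ω 4 s) ≤ I w (de A c v) := by
    refine I_mono hw.nn fun s => ?_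
    have : ∀ (a : Fin 5) (o x : Bool), x.toNat * (o.toNat * (a == 1).toNat) + x.toNat * (o.toNat * (a == 2).toNat) + x.toNat * (o.toNat * (a == 3).toNat) + x.toNat * (o.toNat * (a == 4).toNat) ≤ x.toNat := by decide +kernel
    simp only [X, de, r_nat]
    exact_mod_cast this _ _ _
  simp only [I_add] at z
  have z2 := mul_le_mul_of_nonneg_right z f0
  unfold G1
  simp only [I4_add]
  linarith

theorem I4_G2 (hw : Pr w) (hx : ∀ j, I w (fun u => r (c u == j)) ≤ 21 / 100) {τ : ℝ}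
    (hτ : ∀ s, I w (de A c s) ≤ τ) :
    I4 w (G2 A c v) ≤ 441 / 10000 * (τ * I w (de A c v)) + I w (de A c v) * I2 w (de A c) := by
  have xx : ∀ i j, I w (fun u => r (c u == i)) * I w (fun u => r (c u == j)) ≤ 441 / 10000 :=
    fun i j => hi2 (I_nn hw.nn fun _ => r_nn _) (I_nn hw.nn fun _ => r_nn _) (hx i) (hx j)
  have t12 := K2_12 hw.nn (fun s t => de A c v s * de A c s t * q12 A v s t)
    (fun s t u => r (c u == tb 0 (c s) (c t))) (fun s t u => r (c u == tb 24414062500 (c s) (c t)))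
    (fun s t => mul_nonneg (mul_nonneg (de_nn _ _) (de_nn _ _)) (q_nn s t).1) (fun _ _ => xx _ _)
  have t13 := K2_13 hw.nn (fun s t => de A c v s * de A c s t * q13 A v s t)
    (fun s t u => r (c u == tb 2291259765625 (c s) (c t))) (fun s t u => r (c u == tb 767822265625 (c s) (c t)))
    (fun s t => mul_nonneg (mul_nonneg (de_nn _ _) (de_nn _ _)) (q_nn s t).2.1) (fun _ _ => xx _ _)
  have t14 := K2_14 hw.nn (fun s t => de A c v s * de A c s t * q14 A v s t)
    (fun s t u => r (c u == tb 38150781250000 (c s) (c t))) (fun s t u => r (c u == tb 57222998046875 (c s) (c t)))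
    (fun s t => mul_nonneg (mul_nonneg (de_nn _ _) (de_nn _ _)) (q_nn s t).2.2.1) (fun _ _ => xx _ _)
  have t21 := K2_21 hw.nn (fun s t => de A c v s * de A c s t * q21 A v s t)
    (fun s t u => r (c u == tb 1430511478515625 (c s) (c t))) (fun s t u => r (c u == tb 1907348635156250 (c s) (c t)))
    (fun s t => mul_nonneg (mul_nonneg (de_nn _ _) (de_nn _ _)) (q_nn s t).2.2.2.1) (fun _ _ => xx _ _)
  have t23 := K2_23 hw.nn (fun s t => de A c v s * de A c s t * q23 A v s t)
    (fun s t u => r (c u == tb 9536743166406250 (c s) (c t))) (fun s t u => r (c u == tb 2384185800390625 (c s) (c t)))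
    (fun s t => mul_nonneg (mul_nonneg (de_nn _ _) (de_nn _ _)) (q_nn s t).2.2.2.2.1) (fun _ _ => xx _ _)
  have t24 := K2_24 hw.nn (fun s t => de A c v s * de A c s t * q24 A v s t)
    (fun s t u => r (c u == tb 0 (c s) (c t))) (fun s t u => r (c u == tb 35762786865390625 (c s) (c t)))
    (fun s t => mul_nonneg (mul_nonneg (de_nn _ _) (de_nn _ _)) (q_nn s t).2.2.2.2.2.1) (fun _ _ => xx _ _)
  have s : I2 w (fun s t => de A c v s * de A c s t * q12 A v s t +
      de A c v s * de A c s t * q13 A v s t +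
      de A c v s * de A c s t * q14 A v s t +
      de A c v s * de A c s t * q21 A v s t +
      de A c v s * de A c s t * q23 A v s t +
      de A c v s * de A c s t * q24 A v s t) ≤
      I2 w (fun s t => de A c v s * de A c s t) := by
    refine I2_mono hw.nn fun s t => ?_
    have := mul_le_mul_of_nonneg_left (q_sum (A := A) (v := v) s t)
      (mul_nonneg (de_nn (A := A) (c := c) v s) (de_nn (A := A) (c := c) s t))
    have e : q21 A v s t = q34 A v s t := rfl
    rw [e]; linarith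
  have s2 := dd_le (v := v) hw hτ
  simp only [I2_add] at s
  have f0 : 0 ≤ I2 w (de A c) := I2_nn hw.nn de_nn
  have a1 : 0 ≤ I w (fun s => de A c v s * nb A v s) :=
    I_nn hw.nn fun s => mul_nonneg (de_nn _ _) (r_nn _)
  have u123 := K3_123 w (fun s => de A c v s * nb A v s) (fun _ => 1)
    (fun s t => de A c s t * q23 A v s t)
  rw [hw.const] at u123
  have u124 := K3_124 w (fun s => de A c v s * nb A v s) (fun _ => 1)
    (fun s t => de A c s t * q24 A v s t)
  rw [hw.const] at u124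
  have u134 := K3_134 w (fun s => de A c v s * nb A v s) (fun _ => 1)
    (fun s t => de A c s t * q34 A v s t)
  rw [hw.const] at u134
  have h1 : I2 w (fun s t => de A c s t * q23 A v s t + de A c s t * q24 A v s t + de A c s t * q34 A v s t) ≤ I2 w (de A c) := by
    refine I2_mono hw.nn fun s t => ?_
    have := mul_le_mul_of_nonneg_left (q_sum (A := A) (v := v) s t) (de_nn (A := A) (c := c) s t)
    have := mul_nonneg (de_nn (A := A) (c := c) s t) (q_nn (A := A) (v := v) s t).1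
    have := mul_nonneg (de_nn (A := A) (c := c) s t) (q_nn (A := A) (v := v) s t).2.1
    have := mul_nonneg (de_nn (A := A) (c := c) s t) (q_nn (A := A) (v := v) s t).2.2.1
    linarith
  simp only [I2_add] at h1
  have g1 := mul_le_mul_of_nonneg_left h1 a1
  have a2 : 0 ≤ I w (fun s => de A c v s * nc A v s) :=
    I_nn hw.nn fun s => mul_nonneg (de_nn _ _) (r_nn _)
  have u213 := K3_213 w (fun s => de A c v s * nc A v s) (fun _ => 1)
    (fun s t => de A c s t * q13 A v s t)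
  rw [hw.const] at u213
  have u214 := K3_214 w (fun s => de A c v s * nc A v s) (fun _ => 1)
    (fun s t => de A c s t * q14 A v s t)
  rw [hw.const] at u214
  have u234 := K3_234 w (fun s => de A c v s * nc A v s) (fun _ => 1)
    (fun s t => de A c s t * q34 A v s t)
  rw [hw.const] at u234
  have h2 : I2 w (fun s t => de A c s t * q13 A v s t + de A c s t * q14 A v s t + de A c s t * q34 A v s t) ≤ I2 w (de A c) := by
    refine I2_mono hw.nn fun s t => ?_
    have := mul_le_mul_of_nonneg_left (q_sum (A := A) (v := v) s t) (de_nn (A := A) (c := c) s t)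
    have := mul_nonneg (de_nn (A := A) (c := c) s t) (q_nn (A := A) (v := v) s t).1
    have := mul_nonneg (de_nn (A := A) (c := c) s t) (q_nn (A := A) (v := v) s t).2.2.2.2.1
    have := mul_nonneg (de_nn (A := A) (c := c) s t) (q_nn (A := A) (v := v) s t).2.2.2.2.2.1
    linarith
  simp only [I2_add] at h2
  have g2 := mul_le_mul_of_nonneg_left h2 a2
  have z : I w (fun s => de A c v s * nb A v s + de A c v s * nc A v s) = I w (de A c v) :=
    I_congr fun s => by simp only [nb, nc, r_not (A v s)]; ring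
  simp only [I_add] at z
  have z2 := congrArg (· * I2 w (de A c)) z
  unfold G2
  simp only [I4_add]
  linarith

omit [Fintype V] in
theorem om_de (hv : c v = 0) (t : V) : r (ω t) * de A c v t =
    be A c ω v 1 t + al A c ω v 2 t + al A c ω v 3 t + be A c ω v 4 t := by
  have : ∀ (a : Fin 5) (o n : Bool), o.toNat * (dd 0 a n).toNat =
    o.toNat * (a == 1).toNat * (!n).toNat + o.toNat * (a == 2).toNat * n.toNat +
    o.toNat * (a == 3).toNat * n.toNat + o.toNat * (a == 4).toNat * (!n).toNat := by decide +kernel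
  simp only [de, D, hv, al, be, X, nb, nc, r_nat]
  exact_mod_cast this _ _ _

noncomputable def Psi (w : V → ℝ) (c : V → Fin 5) (A : V → V → Bool) : ℝ :=
  12 * NW w A + 1 / 200 * I2 w (de A c)

variable [DecidableEq V]

theorem Psi_step (hA : Gr A) (hw : Pr w) (h : I w (de A c v) / 6000 ≤
    I4 w fun a b d e => pi (rep (sing v) A c) v a b d e - pi A v a b d e) :
    Psi w c A ≤ Psi w c (rep (sing v) A c) := by
  have h1 := NW_step hA (hA.rep (sing v) c) (v := v)
    (fun a b ha hb => rep_off (by simp [sing, ha]) (by simp [sing, hb])) w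
  have h2 : I2 w (de A c) ≤ I2 w (fun s t => de (rep (sing v) A c) c s t +
      r (decide (s = v)) * de A c s t + r (decide (t = v)) * de A c t s) := by
    refine I2_mono hw.nn fun s t => ?_
    simp only [de, D_rep, sing, D_symm hA c t s]
    cases D A c s t <;> cases decide (s = v) <;> cases decide (t = v) <;> simp
  simp only [I2_add] at h2
  simp only [I2, I_mul, I_at] at h2
  have h3 := mul_le_mul_of_nonneg_left h (hw.nn v)
  unfold Psi I2
  linarith

theorem bad_step (hA : Gr A) (hw : Pr w) (hv : c v = 0) (hx : ∀ j, I w (X c ω j) ≤ 21 / 100)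
    (hμ : I w (fun u => r (!ω u)) ≤ 1 / 320) (hF : I2 w (dw A c ω) ≤ 1 / 8000)
    (hM : 138 / 1000000 + (I w fun t => r (ω t) * de A c v t) / 12000 ≤
      Mn (I w (al A c ω v 0)) (I w (be A c ω v 0)) (I w (al A c ω v 1)) (I w (be A c ω v 1))
      (I w (al A c ω v 2)) (I w (be A c ω v 2)) (I w (al A c ω v 3)) (I w (be A c ω v 3))
      (I w (al A c ω v 4)) (I w (be A c ω v 4))) :
    Psi w c A ≤ Psi w c (rep (sing v) A c) := by
  refine Psi_step hA hw (le_trans ?_ (I4_mono hw.nn (ptB ω hA hv)))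
  have m := main_eq w A c ω v
  have e1 := I4_E1 (A := A) hw hx
  have e2 := I4_E2 (A := A) (c := c) (ω := ω) (v := v) hw
  have e3 := I4_E3 (A := A) (ω := ω) (v := v) hw
  have e4 := p3210 w (E1 A c ω)
  have d : I w (de A c v) ≤ I w fun t => r (ω t) * de A c v t + r (!ω t) := by
    refine I_mono hw.nn fun t => ?_
    have : de A c v t ≤ 1 := r_le _
    cases ω t <;> simp [this]
  rw [I_add] at d
  simp only [I4_add, I4_sub]
  linarith

theorem good_step (hA : Gr A) (hw : Pr w) (hv : c v = 0)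
    (hl : ∀ j, 19 / 100 ≤ I w (fun u => r (c u == j))) (hx : ∀ j, I w (fun u => r (c u == j)) ≤ 21 / 100)
    (hτ : ∀ s, I w (de A c s) ≤ 69 / 1600) (hf : I2 w (de A c) ≤ 1 / 2500) :
    Psi w c A ≤ Psi w c (rep (sing v) A c) := by
  refine Psi_step hA hw (le_trans ?_ (I4_mono hw.nn (ptG hA hv)))
  have eX : ∀ j, I w (X c (fun _ => true) j) = I w (fun u => r (c u == j)) := fun j =>
    I_congr fun u => one_mul _
  have hX : ∀ j, I w (al A c (fun _ => true) v j) + I w (be A c (fun _ => true) v j) =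
      I w (fun u => r (c u == j)) := fun j => by
    rw [← I_add, ← eX]; exact (I_congr (al_be _ j)).symm
  have a0 := fun j => I_nn hw.nn (al_nn (A := A) (c := c) (fun _ => true) (v := v) j)
  have b0 := fun j => I_nn hw.nn (be_nn (A := A) (c := c) (fun _ => true) (v := v) j)
  have m := main_eq w A c (fun _ => true) v
  have m2 := Mn_small (a0 0) (b0 0) (a0 1) (b0 1) (a0 2) (b0 2) (a0 3) (b0 3) (a0 4) (b0 4)
    (hX 0 ▸ hx 0) (hX 1 ▸ hl 1) (hX 1 ▸ hx 1) (hX 2 ▸ hl 2) (hX 2 ▸ hx 2) (hX 3 ▸ hl 3)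
    (hX 3 ▸ hx 3) (hX 4 ▸ hl 4) (hX 4 ▸ hx 4)
  have d : I w (de A c v) = _ :=
    I_congr fun t => (one_mul _).symm.trans (om_de (A := A) (ω := fun _ => true) hv t)
  simp only [I_add] at d
  rw [← d] at m2
  have e1 := I4_G1 (A := A) (ω := fun _ => true) (v := v) hw (fun j => eX j ▸ hx j) hτ
  have e2 := I4_G2 (A := A) (v := v) hw hx hτ
  have e3 := p3210 w (G1 A c (fun _ => true) v)
  have e4 := p3210 w (G2 A c v)
  have d0 : 0 ≤ I w (de A c v) := I_nn hw.nn (de_nn v)
  have d1 := mul_le_mul_of_nonneg_left (hτ v) d0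
  have d2 := mul_le_mul_of_nonneg_left hf d0
  simp only [I4_add, I4_sub]
  linarith

end Pool.Agent.Lib.MP_49b2f4_co.N7
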