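import Pool.Agent.Lib.MP_49b2f4_co.N7.Lim
import Pool.Agent.Lib.MP_49b2f4_co.N7.Rep

/-! Graphs substituted into the five-cycle. -/

namespace Pool.Agent.Lib.MP_49b2f4_co.N7

open Finset

section
variable {V : Type} [Fintype V] {A : V → V → Bool} {c : V → Fin 5}

theorem NW_clean (h : ∀ u v, D A c u v = false) (w : V → ℝ) :
    NW w A = 10 * ∏ i, (I w fun u => r (c u == i)) +
      ∑ i, NW (fun u => w u * r (c u == i)) A := by
  have e : NW w A = I w fun a => I4 w fun b d e f => (stN (c a) (c b) (c d) (c e) (c f) : ℝ) +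
      csN (c a) (c b) (c d) (c e) (c f) * pi A a b d e f :=
    I_congr fun a => I4_congr fun b d e f => pi_clean (h _ _) (h _ _) (h _ _) (h _ _) (h _ _)
      (h _ _) (h _ _) (h _ _) (h _ _) (h _ _)
  rw [e]
  simp only [I4_add, I_add]
  congr 1
  · simp only [stN, Nat.cast_sum, Nat.cast_add, Nat.cast_mul, ← r_nat, I4, I_sum, I_add, I_mul,
      I_mulr]
    simp only [Fin.sum_univ_five, Fin.prod_univ_five, Fin.isValue, Fin.reduceAdd]
    ring
  · simp only [csN, Nat.cast_sum, Nat.cast_mul, ← r_nat, NW, I4, I_wt, sum_mul, I_sum, mul_assoc,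
      I_mul]

omit [Fintype V] in
theorem r_clean (h : ∀ u v, D A c u v = false) (a b : V) :
    r (A a b) = ∑ i, (r (c a == i) * r (c b == i + 1) + r (c a == i + 1) * r (c b == i)) +
      ∑ i, r (c a == i) * (r (c b == i) * r (A a b)) := by
  have : ∀ (x y : Fin 5) (e : Bool), dd x y e = false → e.toNat =
      ∑ i, ((x == i).toNat * (y == i + 1).toNat + (x == i + 1).toNat * (y == i).toNat) +
      ∑ i, (x == i).toNat * ((y == i).toNat * e.toNat) := by decide +kernel
  simp only [r_nat]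
  exact_mod_cast this _ _ _ (h a b)

theorem PW_clean (h : ∀ u v, D A c u v = false) (w : V → ℝ) :
    PW w A = 2 * ∑ i, (I w fun u => r (c u == i)) * (I w fun u => r (c u == i + 1)) +
      ∑ i, PW (fun u => w u * r (c u == i)) A := by
  have e : PW w A = I w fun a => I w fun b => _ :=
    I_congr fun a => I_congr fun b => r_clean h a b
  rw [e]
  simp only [I_add, I_sum, I_mul, I_mulr, PW, I2, I_wt, sum_add_distrib]
  rw [two_mul]
  congr 2
  exact sum_congr rfl fun _ _ => mul_comm _ _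

end

def RS (p : ℝ) : Set ℝ := {v | ∃ x r : Fin 5 → ℝ, (∀ i, 19 / 100 ≤ x i ∧ x i ≤ 21 / 100) ∧
  ∑ i, x i = 1 ∧ (∀ i, 0 ≤ r i ∧ r i ≤ 1) ∧ 2 * ∑ i, x i * x (i + 1) + ∑ i, x i ^ 2 * r i = p ∧
  v = 120 * ∏ i, x i + ∑ i, x i ^ 5 * gmax (r i)}

def Asub {V : Fin 5 → Type} (A : ∀ i, V i → V i → Bool) (a b : Σ i, V i) : Bool :=
  if h : b.1 = a.1 then A a.1 a.2 (h ▸ b.2) else CC a.1 b.1

theorem RS_le {p v : ℝ} (h : v ∈ RS p) : v ≤ gmax p := by
  obtain ⟨x, q, xb, x1, hq, hp, rfl⟩ := h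
  have x0 : ∀ i, 0 ≤ x i := fun i => le_trans (by norm_num) (xb i).1
  refine le_of_forall_pos_le_add fun δ hδ => ?_
  have := fun i => approx (hq i).1 (hq i).2 (show 0 < δ / 10 by positivity)
  choose V _ A w hA hw a1 a2 using this
  have xl : ∀ i, x i ≤ 1 := fun i => by
    rw [← x1]; exact single_le_sum (fun j _ => x0 j) (mem_univ i)
  have gA : Gr (Asub A) := by
    refine ⟨?_, fun ⟨i, u⟩ => by simp [Asub, (hA i).irr]⟩
    rintro ⟨i, u⟩ ⟨j, v⟩
    by_cases e : i = j
    · subst e; simp [Asub, (hA i).symm u v]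
    · simp [Asub, e, Ne.symm e, CC_symm i j]
  have hD : ∀ a b, D (Asub A) Sigma.fst a b = false := by
    rintro ⟨i, u⟩ ⟨j, v⟩
    by_cases e : i = j
    · simp [D, dd, e]
    · simp [D, dd, Asub, Ne.symm e]
  set W : (Σ i, V i) → ℝ := fun a => x a.1 * w a.1 a.2 with hW
  have push : ∀ i, Push (fun u => x i * w i u) (Sigma.mk i) (fun a => W a * r (a.1 == i)) := by
    intro i f
    unfold I
    rw [Fintype.sum_sigma, sum_eq_single i]
    · simp [hW]
    · intro j _ hj; simp [show (j == i) = false by simpa using hj]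
    · simp
  have hx : ∀ i, (I W fun a => r (a.1 == i)) = x i := by
    intro i
    have := push i (fun _ => 1)
    rw [I_sc, I_wt, (hw i).const] at this
    simp only [mul_one] at this
    exact this.symm
  have eA : ∀ i, (fun s t => Asub A ⟨i, s⟩ ⟨i, t⟩) = A i := fun i => by
    funext s t; simp [Asub]
  have pW : Pr W := ⟨fun a => mul_nonneg (x0 _) ((hw _).nn _), by
    rw [Fintype.sum_sigma]
    simp only [hW, ← mul_sum, (hw _).one, mul_one, x1]⟩
  have hN := NW_clean hD W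
  have hP := PW_clean hD W
  simp only [hx, ← (push _).NW, ← (push _).PW, eA, NW_sc, PW_sc] at hN hP
  have g1 := le_gmax gA pW.nn pW.one.le
  have p0 : 0 ≤ p := by
    rw [← hp]
    exact add_nonneg (mul_nonneg (by norm_num) (sum_nonneg fun i _ => mul_nonneg (x0 _) (x0 _)))
      (sum_nonneg fun i _ => mul_nonneg (sq_nonneg _) (hq i).1)
  have p1 : p ≤ 1 := by
    have s1 : ∑ i, x i ^ 2 * q i ≤ ∑ i, x i ^ 2 :=
      sum_le_sum fun i _ => mul_le_of_le_one_right (sq_nonneg _) (hq i).2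
    simp only [Fin.sum_univ_five, Fin.isValue, Fin.reduceAdd] at hp x1 s1
    have := mul_nonneg (x0 0) (x0 2)
    have := mul_nonneg (x0 0) (x0 3)
    have := mul_nonneg (x0 1) (x0 3)
    have := mul_nonneg (x0 1) (x0 4)
    have := mul_nonneg (x0 2) (x0 4)
    have e : (x 0 + x 1 + x 2 + x 3 + x 4) ^ 2 = 1 := by rw [x1]; norm_num
    nlinarith
  have g2 := lip (PW_nn pW.nn (Asub A)) (PW_le pW _) p0 p1
  have d1 : |PW W (Asub A) - p| ≤ 5 * (δ / 10) := by
    have e : PW W (Asub A) - p = ∑ i, x i ^ 2 * (PW (w i) (A i) - q i) := by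
      rw [hP, ← hp]; simp only [mul_sub, sum_sub_distrib]; ring
    rw [e]
    refine (abs_sum_le_sum_abs _ _).trans ((sum_le_sum (g := fun _ => δ / 10) fun i _ => ?_).trans
      (by simp))
    rw [abs_mul, abs_of_nonneg (sq_nonneg _)]
    exact (mul_le_of_le_one_left (abs_nonneg _) (pow_le_one₀ (x0 i) (xl i))).trans (a1 i)
  have d2 : ∑ i, x i ^ 5 * gmax (q i) ≤ ∑ i, (12 * (x i ^ 5 * NW (w i) (A i)) + δ / 10) := by
    refine sum_le_sum fun i _ => ?_
    have := mul_le_mul_of_nonneg_left (a2 i) (pow_nonneg (x0 i) 5)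
    have := mul_le_mul_of_nonneg_right (pow_le_one₀ (n := 5) (x0 i) (xl i)) hδ.le
    linarith
  rw [sum_add_distrib, ← mul_sum, sum_const, card_univ, Fintype.card_fin, nsmul_eq_mul] at d2
  push_cast at d2
  linarith

end Pool.Agent.Lib.MP_49b2f4_co.N7
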