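import Pool.Agent.Lib.MP_49b2f4_co.N7.Clean
import Pool.Agent.Lib.MP_49b2f4_co.N7.SCert
import Pool.Agent.Lib.MP_49b2f4_co.N7.ECert

/-! The values on the two new ranges. -/

namespace Pool.Agent.Lib.MP_49b2f4_co.N7

open Finset

theorem g_left : gmax (45 / 128) ≤ 24 / 625 * (15 / 16) ^ 5 := by
  refine gmax_le (L := 1300) (by norm_num) (by norm_num) (by norm_num) fun V _ A w hA hw _ => ?_
  have h := cert1 A Eh3 Eh5 Ecert hA hw
  rw [show 128 * PW w A - 45 = 128 * (PW w A - 45 / 128) by ring, abs_mul] at h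
  have := abs_nonneg (PW w A - 45 / 128)
  norm_num at h ⊢
  linarith

theorem g_pent {q : ℝ} (q0 : 45 / 128 ≤ q) (q1 : q ≤ 2 / 5) :
    gmax q = 24 / 625 * (5 / 2 * q) ^ (5 / 2 : ℝ) := by
  obtain ⟨s, s0, rfl⟩ : ∃ s : ℝ, 0 ≤ s ∧ q = s ^ 2 * (2 / 5) :=
    ⟨√(5 / 2 * q), by positivity, by rw [Real.sq_sqrt (by linarith)]; ring⟩
  have s1 : s ≤ 1 := by nlinarith
  have s2 : 15 / 16 ≤ s := by nlinarith
  have sp : 0 < s := by linarith
  rw [show 5 / 2 * (s ^ 2 * (2 / 5)) = s ^ (2 : ℝ) by rw [Real.rpow_two]; ring,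
    ← Real.rpow_mul s0, show (2 : ℝ) * (5 / 2) = (5 : ℕ) by norm_num, Real.rpow_natCast]
  refine le_antisymm ?_ ?_
  · have h := scale (p := s ^ 2 * (2 / 5)) (t := 15 / 16 / s) (by positivity) (by linarith)
      (by positivity) ((div_le_one sp).2 s2)
    rw [show (15 / 16 / s) ^ 2 * (s ^ 2 * (2 / 5)) = 45 / 128 by field_simp; norm_num, div_pow,
      div_mul_eq_mul_div, div_le_iff₀ (by positivity)] at h
    have := mul_le_mul_of_nonneg_right g_left (pow_pos sp 5).le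
    linarith
  · have h := scale (p := 2 / 5) (by norm_num) (by norm_num) s0 s1
    have := mul_le_mul_of_nonneg_left (g_mid (q := 2 / 5) le_rfl (by norm_num)) (pow_pos sp 5).le
    linarith

theorem g_up {q u : ℝ} (q0 : 2 / 5 ≤ q) (q1 : q ≤ 1 / 2) (hu : ∀ v ∈ RS q, v ≤ u) : gmax q ≤ u := by
  refine gmax_le (L := 1 / 200) (by linarith) (by linarith) (by norm_num) fun V _ A w hA hw h => ?_
  by_cases hN : 4958 / 100 + PW w A ≤ 15625 * NW w A
  · obtain ⟨ω, c, h2⟩ := cert2 A Sh3 Sh5 Scert hA hw (by linarith [(abs_le.1 h).1]) hN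
    exact stab_le q0 q1 hu hA hw h2
  · linarith [RS_lin q0 q1 hu, le_abs_self (PW w A - q), abs_nonneg (PW w A - q)]

theorem RS_symm {p v : ℝ} (h : v ∈ RS (1 - p)) : v ∈ RS p := by
  obtain ⟨x, t, xb, x1, ht, hp, rfl⟩ := h
  refine ⟨fun i => x (2 * i), fun i => 1 - t (2 * i), fun i => xb _, ?_,
    fun i => ⟨by linarith [(ht (2 * i)).2], by linarith [(ht (2 * i)).1]⟩, ?_, ?_⟩ <;>
    simp only [Fin.sum_univ_five, Fin.prod_univ_five, Fin.isValue, Fin.reduceAdd, Fin.reduceMul,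
      gmax_symm] at hp x1 ⊢
  · linarith
  · linear_combination (x 0 + x 1 + x 2 + x 3 + x 4 + 1) * x1 - hp
  · ring

theorem RS_max {p : ℝ} (p0 : 2 / 5 ≤ p) (p1 : p ≤ 3 / 5) : ∃ u, IsGreatest (RS p) u := by
  have gc : ContinuousOn gmax (Set.Icc 0 1) :=
    (LipschitzOnWith.of_dist_le_mul (K := 1) fun a ha b hb => by
      have h1 := lip ha.1 ha.2 hb.1 hb.2
      have h2 := lip hb.1 hb.2 ha.1 ha.2
      rw [abs_sub_comm] at h2
      have := abs_nonneg (a - b)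
      rw [Real.dist_eq, Real.dist_eq, NNReal.coe_one, abs_le]
      constructor <;> linarith).continuousOn
  let K : Set ((Fin 5 → ℝ) × (Fin 5 → ℝ)) :=
    Set.Icc (fun _ => 19 / 100, fun _ => 0) (fun _ => 21 / 100, fun _ => 1) ∩
      ({z | ∑ i, z.1 i = 1} ∩ {z | 2 * ∑ i, z.1 i * z.1 (i + 1) + ∑ i, z.1 i ^ 2 * z.2 i = p})
  have hK : IsCompact K := isCompact_Icc.inter_right
    ((isClosed_eq (by fun_prop) continuous_const).inter (isClosed_eq (by fun_prop) continuous_const))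
  have e : RS p = (fun z => 120 * ∏ i, z.1 i + ∑ i, z.1 i ^ 5 * gmax (z.2 i)) '' K := by
    ext v
    constructor
    · rintro ⟨x, t, xb, x1, ht, hp, rfl⟩
      exact ⟨(x, t), ⟨⟨⟨fun i => (xb i).1, fun i => (ht i).1⟩, fun i => (xb i).2,
        fun i => (ht i).2⟩, x1, hp⟩, rfl⟩
    · rintro ⟨z, ⟨⟨⟨a, b⟩, c, d⟩, x1, hp⟩, rfl⟩
      exact ⟨z.1, z.2, fun i => ⟨a i, c i⟩, x1, fun i => ⟨b i, d i⟩, hp, rfl⟩
  refine IsCompact.exists_isGreatest ?_ ⟨_, mem_unif (fun _ => 5 * p - 2)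
    (fun _ => ⟨by linarith, by linarith⟩) (by ring)⟩
  rw [e]
  refine hK.image_of_continuousOn (ContinuousOn.add (by fun_prop)
    (continuousOn_finsetSum _ fun i _ => ContinuousOn.mul (by fun_prop) ?_))
  exact gc.comp (f := fun z : (Fin 5 → ℝ) × (Fin 5 → ℝ) => z.2 i) (by fun_prop)
    fun z hz => ⟨hz.1.1.2 i, hz.1.2.2 i⟩

theorem g_rec {p : ℝ} (p0 : 2 / 5 ≤ p) (p1 : p ≤ 3 / 5) : IsGreatest (RS p) (gmax p) := by
  obtain ⟨u, hu⟩ := RS_max p0 p1
  have h : gmax p ≤ u := by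
    rcases le_total p (1 / 2) with h | h
    · exact g_up p0 h hu.2
    · rw [← gmax_symm]
      exact g_up (by linarith) (by linarith) fun v hv => hu.2 (RS_symm hv)
  rwa [le_antisymm h (RS_le hu.1)]

theorem gmax_min (p : ℝ) : gmax p = gmax (min p (1 - p)) := by
  rcases min_choice p (1 - p) with h | h <;> rw [h]
  exact (gmax_symm p).symm

end Pool.Agent.Lib.MP_49b2f4_co.N7
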