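import Pool.Agent.Lib.MP_49b2f4_co.N7.Top
import Pool.Agent.Lib.MP_49b2f4_co.Defs2

/-! The recursion has only one bounded solution. -/

namespace Pool.Agent.Lib.MP_49b2f4_co.N7

open Finset

theorem rec_le {h k : ℝ → ℝ} {p a b δ : ℝ} (ha : a ∈ recVals h p) (hb : b ∈ upperBounds (recVals k p))
    (hδ : ∀ r ∈ Set.Icc (0 : ℝ) 1, h r - k r ≤ δ) (d0 : 0 ≤ δ) : a - b ≤ δ / 2 := by
  obtain ⟨x, t, xb, x1, ht, hp, rfl⟩ := ha
  have h1 := hb ⟨x, t, xb, x1, ht, hp, rfl⟩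
  have h2 : ∑ i, x i ^ 5 * h (t i) ≤ ∑ i, (x i ^ 5 * k (t i) + δ / 10) := sum_le_sum fun i _ => by
    have x0 : 0 ≤ x i := le_trans (by norm_num) (xb i).1
    have := mul_le_mul_of_nonneg_left (hδ _ (ht i)) (pow_nonneg x0 5)
    have := mul_le_mul_of_nonneg_right (pow_le_pow_left₀ x0 (xb i).2 5) d0
    linarith
  rw [sum_add_distrib, sum_const, card_univ, Fintype.card_fin, nsmul_eq_mul] at h2
  push_cast at h2
  linarith

theorem g_rec2 {p : ℝ} (h : 2 / 5 ≤ min p (1 - p)) : IsGreatest (recVals gmax p) (gmax p) :=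
  g_rec (h.trans (min_le_left _ _)) (by linarith [min_le_right p (1 - p)])

theorem g_uniq {h : ℝ → ℝ} (hb : ∀ r ∈ Set.Icc (0 : ℝ) 1, |h r| ≤ 1)
    (h1 : ∀ r ∈ Set.Icc (0 : ℝ) 1, min r (1 - r) < 2 / 5 → h r = gmax r)
    (h2 : ∀ r ∈ Set.Icc (0 : ℝ) 1, 2 / 5 ≤ min r (1 - r) → IsGreatest (recVals h r) (h r))
    {p : ℝ} (hp : p ∈ Set.Icc (0 : ℝ) 1) : h p = gmax p := by
  have key : ∀ n : ℕ, ∀ r ∈ Set.Icc (0 : ℝ) 1, |h r - gmax r| ≤ 2 * (1 / 2) ^ n := by
    intro n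
    induction n with
    | zero =>
      intro r hr
      have := abs_le.1 (hb r hr)
      have := gmax_nn r
      have := gmax_lin hr.1 hr.2
      have := hr.2
      rw [abs_le]; constructor <;> linarith
    | succ n ih =>
      intro r hr
      rcases lt_or_ge (min r (1 - r)) (2 / 5) with c | c
      · rw [h1 r hr c, sub_self, abs_zero]; positivity
      · have a1 := rec_le (h2 r hr c).1 (g_rec2 c).2 (fun s hs => (abs_sub_le_iff.1 (ih s hs)).1)
          (by positivity)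
        have a2 := rec_le (g_rec2 c).1 (h2 r hr c).2 (fun s hs => (abs_sub_le_iff.1 (ih s hs)).2)
          (by positivity)
        rw [pow_succ, abs_sub_le_iff]; constructor <;> linarith
  by_contra hc
  obtain ⟨n, hn⟩ := exists_pow_lt_of_lt_one (half_pos (abs_pos.2 (sub_ne_zero.2 hc)))
    (show (1 / 2 : ℝ) < 1 by norm_num)
  linarith [key n p hp]

end Pool.Agent.Lib.MP_49b2f4_co.N7
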