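import Pool.Agent.Lib.MP_49b2f4_co.Count

/-! Weighted sums over the vertices of a finite graph. -/

namespace Pool.Agent.Lib.MP_49b2f4_co.N7

open Finset

variable {V : Type} [Fintype V]

def I (w f : V → ℝ) : ℝ := ∑ v, w v * f v

structure Pr (w : V → ℝ) : Prop where
  nn : ∀ v, 0 ≤ w v
  one : ∑ v, w v = 1

structure Gr {V : Type} (A : V → V → Bool) : Prop where
  symm : ∀ u v, A u v = A v u
  irr : ∀ u, A u u = false

def r (b : Bool) : ℝ := if b then 1 else 0

@[simp] theorem r_true : r true = 1 := rfl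
@[simp] theorem r_false : r false = 0 := rfl
theorem r_nn (b : Bool) : 0 ≤ r b := by cases b <;> simp
theorem r_le (b : Bool) : r b ≤ 1 := by cases b <;> simp
theorem r_nn' (b : Bool) : 0 ≤ 1 - r b := by cases b <;> simp
theorem r_and (a b : Bool) : r (a && b) = r a * r b := by cases a <;> cases b <;> simp
theorem r_not (a : Bool) : r (!a) = 1 - r a := by cases a <;> simp
theorem r_nat (b : Bool) : r b = (b.toNat : ℝ) := by cases b <;> simp

noncomputable def pi {V : Type} (A : V → V → Bool) (a b c d e : V) : ℝ :=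
  if pat A a b c d e then 1 else 0

theorem pi_nn {V : Type} (A : V → V → Bool) (a b c d e : V) : 0 ≤ pi A a b c d e := by
  unfold pi; split_ifs <;> norm_num

def dd (i j : Fin 5) (e : Bool) : Bool := (i != j) && (e != CC i j)

/-- a pair in different classes whose adjacency differs from that of the classes -/
def D {V : Type} (A : V → V → Bool) (c : V → Fin 5) (u v : V) : Bool := dd (c u) (c v) (A u v)

theorem D_symm {V : Type} {A : V → V → Bool} (h : Gr A) (c : V → Fin 5) (u v : V) :
    D A c u v = D A c v u := by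
  have : ∀ i j e, dd i j e = dd j i e := by decide
  unfold D; rw [h.symm, this]

theorem dd_false : ∀ {i j : Fin 5} {e : Bool}, dd i j e = false → i ≠ j → e = CC i j := by decide

section
variable (w : V → ℝ)

theorem I_add (f g : V → ℝ) : I w (fun v => f v + g v) = I w f + I w g := by
  simp only [I, mul_add, sum_add_distrib]

theorem I_sub (f g : V → ℝ) : I w (fun v => f v - g v) = I w f - I w g := by
  simp only [I, mul_sub, sum_sub_distrib]

theorem I_mul (k : ℝ) (f : V → ℝ) : I w (fun v => k * f v) = k * I w f := by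
  simp only [I, mul_sum]; exact sum_congr rfl fun _ _ => by ring

theorem I_mulr (k : ℝ) (f : V → ℝ) : I w (fun v => f v * k) = I w f * k := by
  simp only [I, sum_mul]; exact sum_congr rfl fun _ _ => by ring

theorem I_zero : I w (fun _ => 0) = 0 := by simp [I]

theorem I_comm {U : Type} [Fintype U] (u : U → ℝ) (F : V → U → ℝ) :
    I w (fun a => I u (fun b => F a b)) = I u (fun b => I w (fun a => F a b)) := by
  simp only [I, mul_sum]
  rw [sum_comm]
  exact sum_congr rfl fun _ _ => sum_congr rfl fun _ _ => by ring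

theorem I_sum {ι : Type} (s : Finset ι) (F : ι → V → ℝ) :
    I w (fun v => ∑ i ∈ s, F i v) = ∑ i ∈ s, I w (F i) := by
  simp only [I, mul_sum]; exact sum_comm

theorem I_at [DecidableEq V] (v : V) (f : V → ℝ) :
    I w (fun a => r (decide (a = v)) * f a) = w v * f v := by
  unfold I
  rw [sum_eq_single v]
  · simp
  · intro b _ hb; simp [hb]
  · simp

theorem I_wt (χ f : V → ℝ) : I (fun v => w v * χ v) f = I w (fun v => χ v * f v) := by
  simp only [I, mul_assoc]

theorem I_sc (k : ℝ) (f : V → ℝ) : I (fun v => k * w v) f = k * I w f := by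
  simp only [I, mul_assoc, mul_sum]

variable {w}

theorem I_congr {f g : V → ℝ} (h : ∀ v, f v = g v) : I w f = I w g := by rw [funext h]

theorem I_mono (hw : ∀ v, 0 ≤ w v) {f g : V → ℝ} (h : ∀ v, f v ≤ g v) : I w f ≤ I w g :=
  sum_le_sum fun v _ => mul_le_mul_of_nonneg_left (h v) (hw v)

theorem I_nn (hw : ∀ v, 0 ≤ w v) {f : V → ℝ} (h : ∀ v, 0 ≤ f v) : 0 ≤ I w f :=
  sum_nonneg fun v _ => mul_nonneg (hw v) (h v)

theorem Pr.const (hw : Pr w) (k : ℝ) : I w (fun _ => k) = k := by
  simp only [I, ← sum_mul, hw.one, one_mul]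

theorem Pr.le (hw : Pr w) {f : V → ℝ} {k : ℝ} (h : ∀ v, f v ≤ k) : I w f ≤ k :=
  (I_mono hw.nn h).trans (hw.const k).le

theorem Pr.ge (hw : Pr w) {f : V → ℝ} {k : ℝ} (h : ∀ v, k ≤ f v) : k ≤ I w f :=
  (hw.const k).ge.trans (I_mono hw.nn h)

end

section
variable (w : V → ℝ)

def I2 (F : V → V → ℝ) : ℝ := I w fun a => I w fun b => F a b

def I4 (F : V → V → V → V → ℝ) : ℝ := I w fun a => I w fun b => I w fun c => I w fun d => F a b c d

noncomputable def PW (A : V → V → Bool) : ℝ := I2 w fun a b => r (A a b)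

noncomputable def NW (A : V → V → Bool) : ℝ := I w fun a => I4 w (pi A a)

theorem I2_add (F G : V → V → ℝ) : I2 w (fun a b => F a b + G a b) = I2 w F + I2 w G := by
  simp only [I2, I_add]

theorem I2_sub (F G : V → V → ℝ) : I2 w (fun a b => F a b - G a b) = I2 w F - I2 w G := by
  simp only [I2, I_sub]

theorem I2_mul (k : ℝ) (F : V → V → ℝ) : I2 w (fun a b => k * F a b) = k * I2 w F := by
  simp only [I2, I_mul]

theorem I2_swap (F : V → V → ℝ) : I2 w (fun a b => F b a) = I2 w F := I_comm w w _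

theorem I4_add (F G : V → V → V → V → ℝ) :
    I4 w (fun a b c d => F a b c d + G a b c d) = I4 w F + I4 w G := by
  simp only [I4, I_add]

theorem I4_sub (F G : V → V → V → V → ℝ) :
    I4 w (fun a b c d => F a b c d - G a b c d) = I4 w F - I4 w G := by
  simp only [I4, I_sub]

theorem I4_mul (k : ℝ) (F : V → V → V → V → ℝ) :
    I4 w (fun a b c d => k * F a b c d) = k * I4 w F := by
  simp only [I4, I_mul]

theorem I4_prod (f g h k : V → ℝ) :
    I4 w (fun a b c d => f a * g b * h c * k d) = I w f * I w g * I w h * I w k := by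
  simp only [I4, I_mul, I_mulr]

theorem sw01 (F : V → V → V → V → ℝ) : I4 w (fun a b c d => F b a c d) = I4 w F := I_comm w w _

theorem sw12 (F : V → V → V → V → ℝ) : I4 w (fun a b c d => F a c b d) = I4 w F :=
  I_congr fun _ => I_comm w w _

theorem sw23 (F : V → V → V → V → ℝ) : I4 w (fun a b c d => F a b d c) = I4 w F :=
  I_congr fun _ => I_congr fun _ => I_comm w w _

theorem p0123 (F : V → V → V → V → ℝ) : I4 w (fun a b c d => F a b c d) = I4 w F := rfl

theorem p1023 (F : V → V → V → V → ℝ) : I4 w (fun a b c d => F b a c d) = I4 w F :=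
  (sw01 w (fun a b c d => F a b c d)).trans (p0123 w F)

theorem p0213 (F : V → V → V → V → ℝ) : I4 w (fun a b c d => F a c b d) = I4 w F :=
  (sw12 w (fun a b c d => F a b c d)).trans (p0123 w F)

theorem p0132 (F : V → V → V → V → ℝ) : I4 w (fun a b c d => F a b d c) = I4 w F :=
  (sw23 w (fun a b c d => F a b c d)).trans (p0123 w F)

theorem p2013 (F : V → V → V → V → ℝ) : I4 w (fun a b c d => F c a b d) = I4 w F :=
  (sw12 w (fun a b c d => F b a c d)).trans (p1023 w F)

theorem p1032 (F : V → V → V → V → ℝ) : I4 w (fun a b c d => F b a d c) = I4 w F :=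
  (sw23 w (fun a b c d => F b a c d)).trans (p1023 w F)

theorem p1203 (F : V → V → V → V → ℝ) : I4 w (fun a b c d => F b c a d) = I4 w F :=
  (sw01 w (fun a b c d => F a c b d)).trans (p0213 w F)

theorem p0312 (F : V → V → V → V → ℝ) : I4 w (fun a b c d => F a d b c) = I4 w F :=
  (sw23 w (fun a b c d => F a c b d)).trans (p0213 w F)

theorem p0231 (F : V → V → V → V → ℝ) : I4 w (fun a b c d => F a c d b) = I4 w F :=
  (sw12 w (fun a b c d => F a b d c)).trans (p0132 w F)

theorem p2103 (F : V → V → V → V → ℝ) : I4 w (fun a b c d => F c b a d) = I4 w F :=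
  (sw01 w (fun a b c d => F c a b d)).trans (p2013 w F)

theorem p3012 (F : V → V → V → V → ℝ) : I4 w (fun a b c d => F d a b c) = I4 w F :=
  (sw23 w (fun a b c d => F c a b d)).trans (p2013 w F)

theorem p2031 (F : V → V → V → V → ℝ) : I4 w (fun a b c d => F c a d b) = I4 w F :=
  (sw12 w (fun a b c d => F b a d c)).trans (p1032 w F)

theorem p1302 (F : V → V → V → V → ℝ) : I4 w (fun a b c d => F b d a c) = I4 w F :=
  (sw23 w (fun a b c d => F b c a d)).trans (p1203 w F)

theorem p0321 (F : V → V → V → V → ℝ) : I4 w (fun a b c d => F a d c b) = I4 w F :=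
  (sw12 w (fun a b c d => F a d b c)).trans (p0312 w F)

theorem p1230 (F : V → V → V → V → ℝ) : I4 w (fun a b c d => F b c d a) = I4 w F :=
  (sw01 w (fun a b c d => F a c d b)).trans (p0231 w F)

theorem p3102 (F : V → V → V → V → ℝ) : I4 w (fun a b c d => F d b a c) = I4 w F :=
  (sw23 w (fun a b c d => F c b a d)).trans (p2103 w F)

theorem p3021 (F : V → V → V → V → ℝ) : I4 w (fun a b c d => F d a c b) = I4 w F :=
  (sw12 w (fun a b c d => F d a b c)).trans (p3012 w F)

theorem p2130 (F : V → V → V → V → ℝ) : I4 w (fun a b c d => F c b d a) = I4 w F :=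
  (sw01 w (fun a b c d => F c a d b)).trans (p2031 w F)

theorem p2301 (F : V → V → V → V → ℝ) : I4 w (fun a b c d => F c d a b) = I4 w F :=
  (sw12 w (fun a b c d => F b d a c)).trans (p1302 w F)

theorem p1320 (F : V → V → V → V → ℝ) : I4 w (fun a b c d => F b d c a) = I4 w F :=
  (sw01 w (fun a b c d => F a d c b)).trans (p0321 w F)

theorem p3201 (F : V → V → V → V → ℝ) : I4 w (fun a b c d => F d c a b) = I4 w F :=
  (sw12 w (fun a b c d => F d b a c)).trans (p3102 w F)

theorem p3120 (F : V → V → V → V → ℝ) : I4 w (fun a b c d => F d b c a) = I4 w F :=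
  (sw01 w (fun a b c d => F d a c b)).trans (p3021 w F)

theorem p2310 (F : V → V → V → V → ℝ) : I4 w (fun a b c d => F c d b a) = I4 w F :=
  (sw01 w (fun a b c d => F c d a b)).trans (p2301 w F)

theorem p3210 (F : V → V → V → V → ℝ) : I4 w (fun a b c d => F d c b a) = I4 w F :=
  (sw01 w (fun a b c d => F d c a b)).trans (p3201 w F)

variable {w}

theorem I2_mono (hw : ∀ v, 0 ≤ w v) {F G : V → V → ℝ} (h : ∀ a b, F a b ≤ G a b) :
    I2 w F ≤ I2 w G := I_mono hw fun a => I_mono hw fun b => h a b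

theorem I2_nn (hw : ∀ v, 0 ≤ w v) {F : V → V → ℝ} (h : ∀ a b, 0 ≤ F a b) : 0 ≤ I2 w F :=
  I_nn hw fun a => I_nn hw fun b => h a b

theorem I4_mono (hw : ∀ v, 0 ≤ w v) {F G : V → V → V → V → ℝ}
    (h : ∀ a b c d, F a b c d ≤ G a b c d) : I4 w F ≤ I4 w G :=
  I_mono hw fun a => I_mono hw fun b => I_mono hw fun c => I_mono hw fun d => h a b c d

theorem I4_congr {F G : V → V → V → V → ℝ} (h : ∀ a b c d, F a b c d = G a b c d) :
    I4 w F = I4 w G :=
  I_congr fun a => I_congr fun b => I_congr fun c => I_congr fun d => h a b c d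

theorem NW_nn (hw : ∀ v, 0 ≤ w v) (A : V → V → Bool) : 0 ≤ NW w A :=
  I_nn hw fun _ => I_nn hw fun _ => I_nn hw fun _ => I_nn hw fun _ => I_nn hw fun _ =>
    pi_nn _ _ _ _ _ _

theorem PW_nn (hw : ∀ v, 0 ≤ w v) (A : V → V → Bool) : 0 ≤ PW w A := I2_nn hw fun _ _ => r_nn _

theorem PW_le (hw : Pr w) (A : V → V → Bool) : PW w A ≤ 1 :=
  hw.le fun _ => hw.le fun _ => r_le _

theorem K2 (hw : ∀ v, 0 ≤ w v) {g : V → V → ℝ} {h k : V → V → V → ℝ} {K : ℝ}
    (hg : ∀ a b, 0 ≤ g a b) (hK : ∀ a b, I w (h a b) * I w (k a b) ≤ K) :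
    I4 w (fun a b c d => g a b * h a b c * k a b d) ≤ K * I2 w g := by
  rw [← I2_mul]
  refine I2_mono hw fun a b => ?_
  simp only [I_mul, I_mulr]
  rw [mul_assoc, mul_comm K]
  exact mul_le_mul_of_nonneg_left (hK a b) (hg a b)

theorem K1 (hw : ∀ v, 0 ≤ w v) {g : V → ℝ} {h k l : V → V → ℝ} {K : ℝ}
    (hg : ∀ a, 0 ≤ g a) (hK : ∀ a, I w (h a) * I w (k a) * I w (l a) ≤ K) :
    I4 w (fun a b c d => g a * h a b * k a c * l a d) ≤ K * I w g := by
  rw [← I_mul]
  refine I_mono hw fun a => ?_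
  simp only [I_mul, I_mulr]
  have := mul_le_mul_of_nonneg_left (hK a) (hg a)
  linarith

theorem K3 (g k : V → ℝ) (h : V → V → ℝ) :
    I4 w (fun a b c d => g a * h b c * k d) = I w g * I2 w h * I w k := by
  simp only [I4, I2, I_mul, I_mulr]

end

end Pool.Agent.Lib.MP_49b2f4_co.N7
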